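import Pool.Agent.Lib.MP_264509_pr.Prob

open Finset MeasureTheory Filter Set
open scoped Topology ENNReal

namespace Pool.Agent.Lib.MP_264509_pr

/-- the uniform law on `[0,1]` -/
noncomputable def U : Measure ℝ := volume.restrict (Icc 0 1)

instance : IsProbabilityMeasure U := ⟨by simp [U]⟩

/-- the cell of `x` in the subdivision of `[0,1]` into `n + 1` cells -/
noncomputable def fl (n : ℕ) (x : ℝ) : Fin (n + 1) :=
  ⟨min ⌊((n : ℝ) + 1) * x⌋₊ n, by
    have := min_le_right ⌊((n : ℝ) + 1) * x⌋₊ n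
    omega⟩

lemma fl_coe (n : ℕ) (x : ℝ) : (fl n x : ℕ) = min ⌊((n : ℝ) + 1) * x⌋₊ n := rfl

lemma measurable_fl (n : ℕ) : Measurable (fl n) := by
  have h1 : Measurable fun x : ℝ => min ⌊((n : ℝ) + 1) * x⌋₊ n := by
    exact (Nat.measurable_floor.comp (measurable_const.mul measurable_id)).min measurable_const
  apply measurable_to_countable'
  intro a
  have : fl n ⁻¹' {a} = (fun x : ℝ => min ⌊((n : ℝ) + 1) * x⌋₊ n) ⁻¹' {(a : ℕ)} := by
    ext x
    simp only [Set.mem_preimage, Set.mem_singleton_iff, Fin.ext_iff, fl_coe]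
  rw [this]
  exact h1 (measurableSet_singleton _)

lemma U_fl (n : ℕ) (a : Fin (n + 1)) : U.real (fl n ⁻¹' {a}) = 1 / ((n : ℝ) + 1) := by
  have hn : (0 : ℝ) < (n : ℝ) + 1 := by positivity
  have han : ((a : ℕ) : ℝ) + 1 ≤ (n : ℝ) + 1 := by exact_mod_cast a.2
  have hm : MeasurableSet (fl n ⁻¹' {a}) := measurable_fl n (measurableSet_singleton _)
  have h1 : Ico ((a : ℝ) / (n + 1)) (((a : ℝ) + 1) / (n + 1)) ⊆ fl n ⁻¹' {a} ∩ Icc 0 1 := by
    rintro x ⟨hx1, hx2⟩
    rw [div_le_iff₀ hn] at hx1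
    rw [lt_div_iff₀ hn] at hx2
    have hx0 : 0 ≤ x := by
      by_contra h
      push Not at h
      have : x * ((n : ℝ) + 1) < 0 := mul_neg_of_neg_of_pos h hn
      have : (0 : ℝ) ≤ (a : ℕ) := Nat.cast_nonneg _
      linarith
    refine ⟨?_, hx0, ?_⟩
    · rw [Set.mem_preimage, Set.mem_singleton_iff, Fin.ext_iff, fl_coe]
      have h2 : ⌊((n : ℝ) + 1) * x⌋₊ = (a : ℕ) := by
        rw [Nat.floor_eq_iff (by positivity)]
        constructor <;> linarith
      rw [h2]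
      have := a.2
      omega
    · nlinarith
  have h2 : fl n ⁻¹' {a} ∩ Icc 0 1 ⊆ Icc ((a : ℝ) / (n + 1)) (((a : ℝ) + 1) / (n + 1)) := by
    rintro x ⟨hx1, hx2, hx3⟩
    rw [Set.mem_preimage, Set.mem_singleton_iff, Fin.ext_iff, fl_coe] at hx1
    have h3 : ((⌊((n : ℝ) + 1) * x⌋₊ : ℕ) : ℝ) ≤ ((n : ℝ) + 1) * x :=
      Nat.floor_le (by positivity)
    have h4 : ((n : ℝ) + 1) * x < ((⌊((n : ℝ) + 1) * x⌋₊ : ℕ) : ℝ) + 1 := Nat.lt_floor_add_one _
    rw [Set.mem_Icc, div_le_iff₀ hn, le_div_iff₀ hn]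
    rcases min_choice ⌊((n : ℝ) + 1) * x⌋₊ n with h | h
    · rw [h] at hx1
      rw [hx1] at h3 h4
      constructor <;> linarith
    · have h5 : n ≤ ⌊((n : ℝ) + 1) * x⌋₊ := min_eq_right_iff.1 h
      rw [h] at hx1
      have h6 : (n : ℝ) ≤ (⌊((n : ℝ) + 1) * x⌋₊ : ℕ) := by exact_mod_cast h5
      rw [← hx1]
      constructor
      · linarith
      · nlinarith
  have h3 : U (fl n ⁻¹' {a}) = volume (fl n ⁻¹' {a} ∩ Icc 0 1) := by
    rw [U, Measure.restrict_apply hm]
  have h4 : ((a : ℝ) + 1) / (n + 1) - (a : ℝ) / (n + 1) = 1 / ((n : ℝ) + 1) := by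
    rw [← sub_div]; ring
  rw [Measure.real, h3]
  have h5 : volume (fl n ⁻¹' {a} ∩ Icc 0 1) = ENNReal.ofReal (1 / ((n : ℝ) + 1)) := by
    apply le_antisymm
    · refine (measure_mono h2).trans ?_
      rw [Real.volume_Icc, h4]
    · refine le_trans ?_ (measure_mono h1)
      rw [Real.volume_Ico, h4]
  rw [h5, ENNReal.toReal_ofReal (by positivity)]

/-- the law of `l` independent uniform points -/
noncomputable def Ul (l : ℕ) : Measure (Fin l → ℝ) := Measure.pi fun _ => U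

instance (l : ℕ) : IsProbabilityMeasure (Ul l) := by unfold Ul; infer_instance

lemma sum_eq_integral (n l : ℕ) (F : (Fin l → Fin (n + 1)) → ℝ) :
    ∑ a, F a = ∫ x, ((n : ℝ) + 1) ^ l * F (fun i => fl n (x i)) ∂(Ul l) := by
  have hmeas : Measurable fun (x : Fin l → ℝ) (i : Fin l) => fl n (x i) :=
    measurable_pi_lambda _ fun i => (measurable_fl n).comp (measurable_pi_apply i)
  have h1 : ∫ x, ((n : ℝ) + 1) ^ l * F (fun i => fl n (x i)) ∂(Ul l) =
      ∫ a, ((n : ℝ) + 1) ^ l * F a ∂((Ul l).map fun (x : Fin l → ℝ) (i : Fin l) => fl n (x i)) := by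
    rw [integral_map hmeas.aemeasurable]
    exact Measurable.aestronglyMeasurable (measurable_of_finite _)
  have : IsProbabilityMeasure
      ((Ul l).map fun (x : Fin l → ℝ) (i : Fin l) => fl n (x i)) :=
    Measure.isProbabilityMeasure_map hmeas.aemeasurable
  rw [h1, integral_fintype (Integrable.of_finite)]
  apply Finset.sum_congr rfl
  intro a _
  have h2 : ((Ul l).map fun (x : Fin l → ℝ) (i : Fin l) => fl n (x i)).real {a} =
      (1 / ((n : ℝ) + 1)) ^ l := by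
    rw [Measure.real, Measure.map_apply hmeas (measurableSet_singleton _)]
    have h3 : (fun (x : Fin l → ℝ) (i : Fin l) => fl n (x i)) ⁻¹' {a} =
        Set.pi Set.univ fun i => fl n ⁻¹' {a i} := by
      ext x
      simp [funext_iff]
    rw [h3, Ul, Measure.pi_pi, ENNReal.toReal_prod]
    have h4 : ∀ i, (U (fl n ⁻¹' {a i})).toReal = 1 / ((n : ℝ) + 1) := fun i => U_fl n (a i)
    simp only [h4, Finset.prod_const, Finset.card_univ, Fintype.card_fin]
  rw [h2, smul_eq_mul, ← mul_assoc, ← mul_pow, one_div,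
    inv_mul_cancel₀ (by positivity : ((n : ℝ) + 1) ≠ 0), one_pow, one_mul]

end Pool.Agent.Lib.MP_264509_pr
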