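import Pool.Agent.Lib.MP_264509_pr.Word

open Set

namespace Pool.Agent.Lib.MP_264509_pr

/-- the point `x` has the label `l` in the configuration `c` -/
def HasLab (c : Config) (x : ℝ) : Lab → Prop
  | .disp k => x ∈ c.pts k
  | .stack j => c.letters j = x

/-- a configuration in which every point has at most one label -/
def WF (c : Config) : Prop := ∀ x l l', HasLab c x l → HasLab c x l' → l = l'

/-- the child relation on configurations -/
def CC (c c' : Config) : Prop := ∃ x ∈ c.pts 0, c' = c.bump x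

/-- the change of the label of `z` when `x` is bumped -/
noncomputable def updP (x z : ℝ) (l : Lab) : Lab :=
  open Classical in if z = x ∧ l = .disp 0 then .stack 0 else updL (z < x) l

lemma updP_inj {x z : ℝ} {l l' : Lab} (h : updP x z l = updP x z l') : l = l' := by
  classical
  unfold updP at h
  split_ifs at h with h1 h2 h2
  · rw [h1.2, h2.2]
  · exact absurd h.symm (updL_ne _ _)
  · exact absurd h (updL_ne _ _)
  · exact updL_inj _ h

lemma config_ext {a b : Config} (h : ∀ z l, HasLab a z l ↔ HasLab b z l) : a = b := by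
  have h1 : a.pts = b.pts := by
    funext k; ext z; exact h z (.disp k)
  have h2 : a.letters = b.letters := by
    funext j; exact ((h (a.letters j) (.stack j)).1 rfl).symm
  cases a; cases b; simp_all

lemma hasLab_bump {c : Config} {x : ℝ} (hx : x ∈ c.pts 0) {z : ℝ} {l' : Lab} :
    HasLab (c.bump x) z l' ↔ ∃ l, HasLab c z l ∧ updP x z l = l' := by
  classical
  cases l' with
  | stack j =>
    cases j with
    | zero =>
      change x = z ↔ _
      constructor
      · rintro rfl
        exact ⟨.disp 0, hx, by simp [updP]⟩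
      · rintro ⟨l, hl, h⟩
        unfold updP at h
        split_ifs at h with h1
        · exact h1.1.symm
        · exact absurd h (updL_ne _ _)
    | succ j =>
      change c.letters j = z ↔ _
      constructor
      · intro h
        exact ⟨.stack j, h, by simp [updP, updL]⟩
      · rintro ⟨l, hl, h⟩
        unfold updP at h
        split_ifs at h with h1
        · simp at h
        · cases l with
          | disp k => simp only [updL] at h; split_ifs at h
          | stack i =>
            simp only [updL, Lab.stack.injEq, Nat.add_right_cancel_iff] at h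
            subst h; exact hl
  | disp k =>
    change ((z < x ∧ z ∈ c.pts (k + 1)) ∨ (x ≤ z ∧ z ∈ c.pts k ∧ ¬ (k = 0 ∧ z = x))) ↔ _
    constructor
    · rintro (⟨h1, h2⟩ | ⟨h1, h2, h3⟩)
      · refine ⟨.disp (k + 1), h2, ?_⟩
        simp [updP, updL, h1, h1.ne]
      · refine ⟨.disp k, h2, ?_⟩
        unfold updP
        rw [if_neg]
        · simp [updL, not_lt.2 h1]
        · rintro ⟨h4, h5⟩
          simp only [Lab.disp.injEq] at h5
          exact h3 ⟨h5, h4⟩
    · rintro ⟨l, hl, h⟩
      unfold updP at h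
      split_ifs at h with h1
      · cases l with
        | stack i => simp [updL] at h
        | disp m =>
          by_cases hz : z < x
          · simp only [updL, hz, if_true, Lab.disp.injEq] at h
            left
            refine ⟨hz, ?_⟩
            have : m = k + 1 := by omega
            rw [← this]; exact hl
          · simp only [updL, hz, if_false, Lab.disp.injEq] at h
            subst h
            right
            refine ⟨not_lt.1 hz, hl, ?_⟩
            rintro ⟨h4, h5⟩
            exact h1 ⟨h5, by rw [h4]⟩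

lemma hasLab_bump' {c : Config} {x : ℝ} (hx : x ∈ c.pts 0) {z : ℝ} {l : Lab} :
    HasLab (c.bump x) z (updP x z l) ↔ HasLab c z l := by
  rw [hasLab_bump hx]
  constructor
  · rintro ⟨l1, h1, h2⟩
    rwa [← updP_inj h2]
  · intro h; exact ⟨l, h, rfl⟩

lemma CC_unique : ∀ a b c, CC a c → CC b c → a = b := by
  rintro a b c ⟨x, hx, rfl⟩ ⟨y, hy, h⟩
  have h1 : x = y := by
    have := congrArg (fun c => c.letters 0) h
    exact this
  subst h1
  apply config_ext
  intro z l
  rw [← hasLab_bump' hx, ← hasLab_bump' hy, h]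

lemma wf_child {c : Config} {x : ℝ} (hx : x ∈ c.pts 0) : WF (c.bump x) ↔ WF c := by
  constructor
  · intro h z l l' h1 h2
    exact updP_inj (h z _ _ ((hasLab_bump' hx).2 h1) ((hasLab_bump' hx).2 h2))
  · intro h z l l' h1 h2
    obtain ⟨m, hm, rfl⟩ := (hasLab_bump hx).1 h1
    obtain ⟨m', hm', rfl⟩ := (hasLab_bump hx).1 h2
    rw [h z _ _ hm hm']

/-- labels at distance at most `k` -/
def Rel (k : ℕ) : Lab → Lab → Prop
  | .disp m, .disp m' => m ≤ m' + k ∧ m' ≤ m + k
  | .stack j, .stack j' => j ≤ j' + k ∧ j' ≤ j + k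
  | .disp m, .stack j => j < k ∧ m ≤ k ∧ -(k : ℤ) ≤ m
  | .stack j, .disp m => j < k ∧ m ≤ k ∧ -(k : ℤ) ≤ m

lemma rel_self (l : Lab) : Rel 0 l l := by cases l <;> simp [Rel]

lemma rel_mono {k : ℕ} {l l' : Lab} (h : Rel k l l') : Rel (k + 1) l l' := by
  cases l <;> cases l' <;> simp only [Rel] at * <;> omega

lemma rel_child {k : ℕ} {l l' : Lab} (x z : ℝ) (h : Rel k l l') : Rel (k + 1) l (updP x z l') := by
  classical
  unfold updP
  split_ifs with h1
  · rw [h1.2] at h
    cases l <;> simp only [Rel] at * <;> omega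
  · cases l <;> cases l' <;> simp only [updL] <;> (try split_ifs) <;> simp only [Rel] at * <;> omega

lemma rel_parent {k : ℕ} {l l' : Lab} (x z : ℝ) (h : Rel k l (updP x z l')) :
    Rel (k + 1) l l' := by
  classical
  unfold updP at h
  split_ifs at h with h1
  · rw [h1.2]
    cases l <;> simp only [Rel] at * <;> omega
  · cases l <;> cases l' <;> simp only [updL] at h <;> (try split_ifs at h) <;>
      simp only [Rel] at * <;> omega

/-- the invariant of the configurations near `ω` -/
def InvC (ω : Config) (k : ℕ) (y : Config) : Prop :=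
  WF y ∧ (∀ z l', HasLab y z l' → ∃ l, HasLab ω z l ∧ Rel k l l') ∧
    ∀ z l, HasLab ω z l → ∃ l', HasLab y z l' ∧ Rel k l l'

lemma invC_mono (ω : Config) (k : ℕ) (y : Config) (h : InvC ω k y) : InvC ω (k + 1) y := by
  refine ⟨h.1, fun z l' hl' => ?_, fun z l hl => ?_⟩
  · obtain ⟨l, h1, h2⟩ := h.2.1 z l' hl'
    exact ⟨l, h1, rel_mono h2⟩
  · obtain ⟨l', h1, h2⟩ := h.2.2 z l hl
    exact ⟨l', h1, rel_mono h2⟩

lemma invC_child (ω : Config) (k : ℕ) (y y' : Config) (h : InvC ω k y) (hc : CC y y') :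
    InvC ω (k + 1) y' := by
  obtain ⟨x, hx, rfl⟩ := hc
  refine ⟨(wf_child hx).2 h.1, fun z l' hl' => ?_, fun z l hl => ?_⟩
  · obtain ⟨m, hm, rfl⟩ := (hasLab_bump hx).1 hl'
    obtain ⟨l, h1, h2⟩ := h.2.1 z m hm
    exact ⟨l, h1, rel_child x z h2⟩
  · obtain ⟨l', h1, h2⟩ := h.2.2 z l hl
    exact ⟨_, (hasLab_bump' hx).2 h1, rel_child x z h2⟩

lemma invC_parent (ω : Config) (k : ℕ) (y y' : Config) (h : InvC ω k y) (hc : CC y' y) :
    InvC ω (k + 1) y' := by
  obtain ⟨x, hx, rfl⟩ := hc
  refine ⟨(wf_child hx).1 h.1, fun z l' hl' => ?_, fun z l hl => ?_⟩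
  · obtain ⟨l, h1, h2⟩ := h.2.1 z _ ((hasLab_bump' hx).2 hl')
    exact ⟨l, h1, rel_parent x z h2⟩
  · obtain ⟨l', h1, h2⟩ := h.2.2 z l hl
    obtain ⟨m, hm, rfl⟩ := (hasLab_bump hx).1 h1
    exact ⟨m, hm, rel_parent x z h2⟩

lemma invC_of_near {ω : Config} (hω : WF ω) {k : ℕ} {y : Config} (h : Near CC ω k y) :
    InvC ω k y :=
  near_induct (P := InvC ω) ⟨hω, fun _ l hl => ⟨l, hl, rel_self l⟩,
    fun _ l hl => ⟨l, hl, rel_self l⟩⟩ (invC_mono ω) (invC_child ω) (invC_parent ω) h

/-- the labels in the window of radius `R` -/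
def InWin (R : ℕ) : Lab → Prop
  | .disp m => m ≤ R ∧ -(R : ℤ) ≤ m
  | .stack j => j < R

/-- the parent of a configuration -/
def parentC (c : Config) : Config where
  pts k := {z | (z < c.letters 0 ∧ z ∈ c.pts (k - 1)) ∨ (c.letters 0 < z ∧ z ∈ c.pts k) ∨
    (k = 0 ∧ z = c.letters 0)}
  letters j := c.letters (j + 1)

lemma parentC_mem (c : Config) : c.letters 0 ∈ (parentC c).pts 0 := Or.inr (Or.inr ⟨rfl, rfl⟩)

lemma parentC_bump {c : Config} (hc : WF c) : (parentC c).bump (c.letters 0) = c := by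
  apply config_ext
  intro z l
  cases l with
  | stack j =>
    cases j with
    | zero => rfl
    | succ j => rfl
  | disp k =>
    change ((z < c.letters 0 ∧ ((z < c.letters 0 ∧ z ∈ c.pts (k + 1 - 1)) ∨
      (c.letters 0 < z ∧ z ∈ c.pts (k + 1)) ∨ (k + 1 = 0 ∧ z = c.letters 0))) ∨
      (c.letters 0 ≤ z ∧ ((z < c.letters 0 ∧ z ∈ c.pts (k - 1)) ∨
      (c.letters 0 < z ∧ z ∈ c.pts k) ∨ (k = 0 ∧ z = c.letters 0)) ∧
      ¬ (k = 0 ∧ z = c.letters 0))) ↔ z ∈ c.pts k
    rw [add_sub_cancel_right]
    rcases lt_trichotomy z (c.letters 0) with h | h | h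
    · simp [h, h.ne, not_lt.2 h.le, not_le.2 h]
    · have h0 : ¬ (z ∈ c.pts k) := by
        intro hz
        have := hc z (.disp k) (.stack 0) hz h.symm
        simp at this
      simp only [h, lt_irrefl, false_and, and_true, false_or, le_refl, true_and]
      rw [← h]
      simp only [h0, iff_false]
      tauto
    · simp [h, h.ne', not_lt.2 h.le, h.le]

theorem conf_cover {ω : Config} (hω : WF ω) {R K : ℕ} (hR : K + 2 ≤ R) (w : List Lab)
    (emb : Fin w.length → ℝ) (hmono : StrictMono emb) (hlab : ∀ i, HasLab ω (emb i) (w.get i))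
    (hsurj : ∀ z l, HasLab ω z l → InWin R l → ∃ i, emb i = z) :
    ∃ p : Config → (Fin w.length → Lab), p ω = w.get ∧ LocalCover CC (CW _) p ω K := by
  classical
  let p : Config → (Fin w.length → Lab) := fun y i =>
    if h : ∃ l, HasLab y (emb i) l then h.choose else .disp 0
  have hp : ∀ {y : Config}, WF y → ∀ {i l}, HasLab y (emb i) l → p y i = l := by
    intro y hy i l h
    have h1 : ∃ l, HasLab y (emb i) l := ⟨l, h⟩
    change (if h : ∃ l, HasLab y (emb i) l then h.choose else .disp 0) = l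
    rw [dif_pos h1]
    exact hy _ _ _ h1.choose_spec h
  have hex : ∀ {k : ℕ} {y : Config}, InvC ω k y → ∀ i, HasLab y (emb i) (p y i) := by
    intro k y hy i
    obtain ⟨l', h1, -⟩ := hy.2.2 _ _ (hlab i)
    rw [hp hy.1 h1]; exact h1
  have hwin : ∀ {y : Config}, InvC ω K y → ∀ x ∈ y.pts 0, ∃ i, emb i = x := by
    intro y hy x hx
    obtain ⟨l, h1, h2⟩ := hy.2.1 x (.disp 0) hx
    apply hsurj x l h1
    cases l <;> simp only [Rel, InWin] at * <;> omega
  have hbump : ∀ {k : ℕ} {y : Config}, InvC ω k y → ∀ l, emb l ∈ y.pts 0 →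
      p (y.bump (emb l)) = upd l (p y) := by
    intro k y hy l hl
    funext j
    have h1 := hex hy j
    have h2 := (hasLab_bump' hl).2 h1
    rw [hp ((wf_child hl).2 hy.1) h2]
    unfold upd updP
    by_cases hj : j = l
    · subst hj
      rw [hp hy.1 (l := .disp 0) hl]
      simp
    · rw [if_neg hj, if_neg (fun h => hj (hmono.injective h.1))]
      have h3 : emb j < emb l ↔ j < l := hmono.lt_iff_lt
      cases p y j with
      | disp k => simp only [updL, h3]
      | stack i => simp only [updL]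
  refine ⟨p, ?_, ?_⟩
  · funext i
    exact hp hω (hlab i)
  · refine ⟨CC_unique, CW_unique, CW_pot, ?_, ?_, ?_, ?_⟩
    · rintro y y' hy ⟨x, hx, rfl⟩
      have hinv := invC_of_near hω hy
      obtain ⟨l, rfl⟩ := hwin hinv x hx
      exact ⟨l, hp hinv.1 (l := .disp 0) hx, hbump hinv l hx⟩
    · rintro y t hy ⟨l, hl, rfl⟩
      have hinv := invC_of_near hω hy
      have h1 : emb l ∈ y.pts 0 := by
        have := hex hinv l
        rw [hl] at this
        exact this
      exact ⟨_, ⟨emb l, h1, rfl⟩, hbump hinv l h1⟩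
    · rintro y t hy ⟨l, hl, hpt⟩
      have hinv := invC_of_near hω hy
      have h1 : y.letters 0 = emb l := by
        have := hex hinv l
        rw [hpt, upd_self] at this
        exact this
      have hc : CC (parentC y) y := ⟨y.letters 0, parentC_mem y, (parentC_bump hinv.1).symm⟩
      have hinv' := invC_of_near hω (near_parent CC_unique hy hc)
      have hmem : emb l ∈ (parentC y).pts 0 := h1 ▸ parentC_mem y
      refine ⟨_, hc, ?_⟩
      have h4 := hbump hinv' l hmem
      rw [← h1, parentC_bump hinv.1] at h4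
      exact CW_unique _ _ _ ⟨l, hp hinv'.1 (l := .disp 0) hmem, h4⟩ ⟨l, hl, hpt⟩
    · rintro y y₁ y₂ hy ⟨x, hx, rfl⟩ ⟨x', hx', rfl⟩ hpp
      have hinv := invC_of_near hω hy
      obtain ⟨l, rfl⟩ := hwin hinv x hx
      obtain ⟨m, rfl⟩ := hwin hinv x' hx'
      rw [hbump hinv l hx, hbump hinv m hx'] at hpp
      have : l = m := by
        apply upd_eq_zero (s := p y)
        rw [← hpp, upd_self]
      rw [this]

theorem conf_ballIso {ω : Config} (hω : WF ω) {R K : ℕ} (hR : K + 2 ≤ R) (w : List Lab)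
    (emb : Fin w.length → ℝ) (hmono : StrictMono emb) (hlab : ∀ i, HasLab ω (emb i) (w.get i))
    (hsurj : ∀ z l, HasLab ω z l → InWin R l → ∃ i, emb i = z) {r : ℕ} (hr : 2 * (r + 1) ≤ K)
    {W : Type*} (G : SimpleGraph W) (g : W) :
    BallIso configGraph ω r G g ↔ BallIso (SimpleGraph.fromRel (CW w.length)) w.get r G g := by
  obtain ⟨p, hp, H⟩ := conf_cover hω hR w emb hmono hlab hsurj
  rw [← hp]
  exact H.ballIso_iff hr G g

end Pool.Agent.Lib.MP_264509_pr
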