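import Pool.Agent.Lib.MP_264509_pr.Word

open Finset

namespace Pool.Agent.Lib.MP_264509_pr

variable {A : Type*}

/-- the number of occurrences of `v` as a subword of `W` -/
def cnt [DecidableEq A] : List A → List A → ℕ
  | [], _ => 1
  | _ :: _, [] => 0
  | x :: v, y :: W => cnt (x :: v) W + if x = y then cnt v W else 0

/-- the sum of `F` over the words of length `m` with letters in `S` -/
def sumW {M : Type*} [AddCommMonoid M] (S : Finset A) : ℕ → (List A → M) → M
  | 0, F => F []
  | m + 1, F => ∑ x ∈ S, sumW S m fun v => F (x :: v)

section cnt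

variable [DecidableEq A]

lemma cnt_nil (W : List A) : cnt [] W = 1 := by cases W <;> rfl

lemma cnt_cons_nil (x : A) (v : List A) : cnt (x :: v) [] = 0 := rfl

lemma cnt_cons_cons (x y : A) (v W : List A) :
    cnt (x :: v) (y :: W) = cnt (x :: v) W + if x = y then cnt v W else 0 := rfl

lemma cnt_zero : ∀ (w v : List A), v.length < w.length → cnt w v = 0
  | [], v, h => by simp at h
  | x :: w, [], h => rfl
  | x :: w, y :: v, h => by
    simp only [List.length_cons] at h
    rw [cnt_cons_cons, cnt_zero (x :: w) v (by simp only [List.length_cons]; omega),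
      cnt_zero w v (by omega)]
    simp

lemma cnt_eq_len : ∀ (w v : List A), v.length = w.length → cnt w v = if w = v then 1 else 0
  | [], v, h => by
    have : v = [] := List.length_eq_zero_iff.1 h
    subst this; simp [cnt_nil]
  | x :: w, [], h => by simp at h
  | x :: w, y :: v, h => by
    simp only [List.length_cons, Nat.add_right_cancel_iff] at h
    rw [cnt_cons_cons, cnt_zero (x :: w) v (by simp only [List.length_cons]; omega),
      cnt_eq_len w v h]
    by_cases h1 : x = y <;> by_cases h2 : w = v <;> simp [h1, h2]

lemma cnt_le_choose : ∀ (w v : List A), cnt w v ≤ v.length.choose w.length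
  | [], v => by simp [cnt_nil]
  | x :: w, [] => by simp [cnt_cons_nil]
  | x :: w, y :: v => by
    rw [cnt_cons_cons, List.length_cons, List.length_cons, Nat.choose_succ_succ']
    have h1 := cnt_le_choose (x :: w) v
    have h2 := cnt_le_choose w v
    rw [List.length_cons] at h1
    split_ifs <;> omega

lemma cnt_le_two_pow (w v : List A) : cnt w v ≤ 2 ^ v.length :=
  (cnt_le_choose w v).trans (Nat.choose_le_two_pow _ _)

end cnt

section sumW

variable {M : Type*} [AddCommMonoid M] (S : Finset A)

lemma sumW_congr : ∀ (m : ℕ) (F G : List A → M),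
    (∀ v : List A, v.length = m → (∀ x ∈ v, x ∈ S) → F v = G v) → sumW S m F = sumW S m G
  | 0, F, G, h => h [] rfl (by simp)
  | m + 1, F, G, h => by
    apply Finset.sum_congr rfl
    intro x hx
    apply sumW_congr m
    intro v hv hv'
    exact h _ (by simp [hv]) (by simpa [hx] using hv')

lemma sumW_add : ∀ (m : ℕ) (F G : List A → M),
    sumW S m (fun v => F v + G v) = sumW S m F + sumW S m G
  | 0, F, G => rfl
  | m + 1, F, G => by
    simp only [sumW]
    rw [← Finset.sum_add_distrib]
    exact Finset.sum_congr rfl fun x _ => sumW_add m _ _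

lemma sumW_zero : ∀ (m : ℕ), sumW S m (fun _ => (0 : M)) = 0
  | 0 => rfl
  | m + 1 => by
    simp only [sumW]
    exact Finset.sum_eq_zero fun x _ => sumW_zero m

end sumW

lemma sumW_cast (S : Finset A) : ∀ (m : ℕ) (F : List A → ℕ),
    ((sumW S m F : ℕ) : ℝ) = sumW S m (fun v => (F v : ℝ))
  | 0, F => rfl
  | m + 1, F => by
    simp only [sumW]
    rw [Nat.cast_sum]
    exact Finset.sum_congr rfl fun x _ => sumW_cast S m _

lemma sumW_mul_left {M : Type*} [Semiring M] (S : Finset A) (c : M) : ∀ (m : ℕ) (F : List A → M),
    sumW S m (fun v => c * F v) = c * sumW S m F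
  | 0, F => rfl
  | m + 1, F => by
    simp only [sumW]
    rw [Finset.mul_sum]
    exact Finset.sum_congr rfl fun x _ => sumW_mul_left S c m _

lemma sumW_le (S : Finset A) : ∀ (m : ℕ) (F : List A → ℝ) (B : ℝ),
    (∀ v : List A, v.length = m → F v ≤ B) → sumW S m F ≤ (S.card : ℝ) ^ m * B
  | 0, F, B, h => by simpa [sumW] using h [] rfl
  | m + 1, F, B, h => by
    simp only [sumW]
    calc ∑ x ∈ S, sumW S m (fun v => F (x :: v)) ≤ ∑ x ∈ S, (S.card : ℝ) ^ m * B :=
          Finset.sum_le_sum fun x _ => sumW_le S m _ B fun v hv => h _ (by simp [hv])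
      _ = (S.card : ℝ) ^ (m + 1) * B := by
          rw [Finset.sum_const, nsmul_eq_mul]; ring

lemma sumW_nonneg (S : Finset A) : ∀ (m : ℕ) (F : List A → ℝ),
    (∀ v : List A, 0 ≤ F v) → 0 ≤ sumW S m F
  | 0, F, h => h []
  | m + 1, F, h => by
    simp only [sumW]
    exact Finset.sum_nonneg fun x _ => sumW_nonneg S m _ fun v => h _

lemma sumW_sum {ι M : Type*} [AddCommMonoid M] (S : Finset A) (s : Finset ι) :
    ∀ (m : ℕ) (F : ι → List A → M),
    sumW S m (fun v => ∑ i ∈ s, F i v) = ∑ i ∈ s, sumW S m (F i)
  | 0, F => rfl
  | m + 1, F => by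
    simp only [sumW]
    rw [Finset.sum_comm]
    exact Finset.sum_congr rfl fun x _ => sumW_sum S s m fun i v => F i (x :: v)

variable [DecidableEq A]

/-- the composition identity for subword counts -/
theorem sumW_cnt (S : Finset A) : ∀ (W w : List A) (s : ℕ), (∀ x ∈ W, x ∈ S) →
    sumW S (w.length + s) (fun v => cnt w v * cnt v W) =
      cnt w W * (W.length - w.length).choose s
  | [], w, s, hW => by
    rcases Nat.eq_zero_or_pos (w.length + s) with h | h
    · have h1 : w = [] := List.length_eq_zero_iff.1 (by omega)
      have h2 : s = 0 := by omega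
      subst h1 h2
      rfl
    · obtain ⟨m, hm⟩ := Nat.exists_eq_succ_of_ne_zero h.ne'
      rw [hm]
      have : sumW S m.succ (fun v => cnt w v * cnt v ([] : List A)) = 0 := by
        rw [Nat.succ_eq_add_one]
        simp only [sumW]
        apply Finset.sum_eq_zero
        intro x _
        rw [sumW_congr S m _ (fun _ => 0) (fun v _ _ => by rw [cnt_cons_nil, mul_zero]),
          sumW_zero]
      rw [this]
      cases w with
      | nil =>
        simp only [List.length_nil, zero_add] at hm
        subst hm
        simp
      | cons a w => rw [cnt_cons_nil, zero_mul]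
  | y :: W, w, s, hW => by
    have hW' : ∀ x ∈ W, x ∈ S := fun x hx => hW x (List.mem_cons_of_mem _ hx)
    have hy : y ∈ S := hW y List.mem_cons_self
    have key : ∀ m, sumW S (m + 1) (fun v => cnt w v * cnt v (y :: W)) =
        sumW S (m + 1) (fun v => cnt w v * cnt v W) +
          sumW S m (fun v => cnt w (y :: v) * cnt v W) := by
      intro m
      simp only [sumW]
      have : ∀ x ∈ S, sumW S m (fun v => cnt w (x :: v) * cnt (x :: v) (y :: W)) =
          sumW S m (fun v => cnt w (x :: v) * cnt (x :: v) W) +
            if x = y then sumW S m (fun v => cnt w (y :: v) * cnt v W) else 0 := by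
        intro x _
        split_ifs with h
        · rw [← sumW_add]
          apply sumW_congr
          intro v _ _
          rw [cnt_cons_cons, if_pos h, mul_add, h]
        · rw [add_zero]
          apply sumW_congr
          intro v _ _
          rw [cnt_cons_cons, if_neg h, add_zero]
      rw [Finset.sum_congr rfl this, Finset.sum_add_distrib, Finset.sum_ite_eq' S y, if_pos hy]
    cases w with
    | nil =>
      cases s with
      | zero => simp [sumW, cnt_nil]
      | succ s =>
        have h1 : ([] : List A).length + (s + 1) = s + 1 := by simp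
        rw [h1, key s]
        have h2 := sumW_cnt S W [] (s + 1) hW'
        have h3 := sumW_cnt S W [] s hW'
        rw [h1] at h2
        simp only [List.length_nil, zero_add, cnt_nil, one_mul, Nat.sub_zero] at h2 h3
        simp only [List.length_nil, cnt_nil, one_mul, Nat.sub_zero, List.length_cons]
        rw [h2, h3, Nat.choose_succ_succ]
        ring
    | cons x w =>
      have h1 : (x :: w).length + s = (w.length + s) + 1 := by simp only [List.length_cons]; ring
      rw [h1, key]
      have h2 := sumW_cnt S W (x :: w) s hW'
      rw [h1] at h2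
      rw [h2]
      have h4 : sumW S (w.length + s) (fun v => cnt (x :: w) (y :: v) * cnt v W) =
          sumW S (w.length + s) (fun v => cnt (x :: w) v * cnt v W) +
          (if x = y then 1 else 0) * sumW S (w.length + s) (fun v => cnt w v * cnt v W) := by
        rw [← sumW_mul_left, ← sumW_add]
        apply sumW_congr
        intro v _ _
        rw [cnt_cons_cons]
        split_ifs <;> ring
      rw [h4, sumW_cnt S W w s hW']
      rw [cnt_cons_cons]
      simp only [List.length_cons]
      rw [Nat.add_sub_add_right]
      cases s with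
      | zero =>
        have h5 : sumW S (w.length + 0) (fun v => cnt (x :: w) v * cnt v W) = 0 := by
          rw [sumW_congr S _ _ (fun _ => 0), sumW_zero]
          intro v hv _
          rw [cnt_zero (x :: w) v (by simp only [List.length_cons]; omega), zero_mul]
        rw [h5]
        split_ifs <;> simp
      | succ s =>
        have h6 := sumW_cnt S W (x :: w) s hW'
        have h7 : (x :: w).length + s = w.length + (s + 1) := by
          simp only [List.length_cons]; ring
        rw [h7] at h6
        rw [h6]
        simp only [List.length_cons]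
        by_cases h8 : cnt (x :: w) W = 0
        · rw [h8]
          split_ifs <;> ring
        · have h9 : w.length + 1 ≤ W.length := by
            by_contra h10
            exact h8 (cnt_zero (x :: w) W (by simp only [List.length_cons]; omega))
          have h11 : W.length - w.length = (W.length - (w.length + 1)) + 1 := by omega
          rw [h11, Nat.choose_succ_succ]
          split_ifs <;> ring

/-- the alternating sum that detects a word -/
theorem hasSum_detect (S : Finset A) (W w : List A) (hW : ∀ x ∈ W, x ∈ S) :
    HasSum (fun s : ℕ => (-1 : ℝ) ^ s * sumW S (w.length + s)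
      (fun v => (cnt w v : ℝ) * (cnt v W : ℝ))) (if W = w then 1 else 0) := by
  have h1 : ∀ s, sumW S (w.length + s) (fun v => (cnt w v : ℝ) * (cnt v W : ℝ)) =
      cnt w W * ((W.length - w.length).choose s : ℕ) := by
    intro s
    have := sumW_cnt S W w s hW
    rw [← Nat.cast_mul, ← this, sumW_cast]
    apply sumW_congr
    intro v _ _
    push_cast; rfl
  simp only [h1]
  have h2 : HasSum (fun s : ℕ => (-1 : ℝ) ^ s * ((cnt w W : ℝ) *
      ((W.length - w.length).choose s : ℕ)))
      (∑ s ∈ range (W.length - w.length + 1), (-1 : ℝ) ^ s * ((cnt w W : ℝ) *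
      ((W.length - w.length).choose s : ℕ))) := by
    apply hasSum_sum_of_ne_finset_zero
    intro s hs
    rw [Finset.mem_range, not_lt] at hs
    rw [Nat.choose_eq_zero_of_lt (by omega)]
    simp
  convert! h2 using 1
  have h3 : ∑ s ∈ range (W.length - w.length + 1), (-1 : ℝ) ^ s * ((cnt w W : ℝ) *
      ((W.length - w.length).choose s : ℕ)) = cnt w W *
      ((∑ s ∈ range (W.length - w.length + 1), (-1 : ℤ) ^ s *
        ((W.length - w.length).choose s : ℕ) : ℤ) : ℝ) := by
    push_cast
    rw [Finset.mul_sum]
    exact Finset.sum_congr rfl fun s _ => by ring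
  rw [h3, Int.alternating_sum_range_choose]
  rcases lt_trichotomy W.length w.length with h | h | h
  · rw [cnt_zero w W h, if_neg]
    · simp
    · intro he; rw [he] at h; exact lt_irrefl _ h
  · rw [cnt_eq_len w W h, h, Nat.sub_self]
    by_cases h4 : W = w
    · simp [h4]
    · rw [if_neg h4, if_neg (fun h => h4 h.symm)]; simp
  · rw [if_neg, if_neg (by omega)]
    · simp
    · intro he; rw [he] at h; exact lt_irrefl _ h

end Pool.Agent.Lib.MP_264509_pr
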