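import Pool.Agent.Lib.MP_264509_pr.Defs

open Finset Equiv

namespace Pool.Agent.Lib.MP_264509_pr

lemma sameCycle_induct {α : Type*} {σ : Perm α} {r : α → α → Prop} (hr : Equivalence r)
    (h : ∀ x, r x (σ x)) {x y : α} (hxy : σ.SameCycle x y) : r x y := by
  obtain ⟨k, rfl⟩ := hxy
  induction k with
  | zero => simpa using hr.refl x
  | succ n ih =>
    rw [add_comm, zpow_add, zpow_one, Perm.mul_apply]
    exact hr.trans ih (h _)
  | pred n ih =>
    have h1 := h ((σ ^ (-(n : ℤ) - 1)) x)
    have h2 : σ ((σ ^ (-(n : ℤ) - 1)) x) = (σ ^ (-(n : ℤ))) x := by
      rw [← Perm.mul_apply, ← zpow_one_add]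
      congr 2
      ring
    rw [h2] at h1
    exact hr.trans ih (hr.symm h1)

lemma numCycles_eq {α β : Type*} {τ : Perm α} (f : α → β) (hs : Function.Surjective f)
    (h : ∀ x y, τ.SameCycle x y ↔ f x = f y) : numCycles τ = Nat.card β := by
  unfold numCycles
  apply Nat.card_congr
  refine Equiv.ofBijective (Quotient.lift (s := Perm.SameCycle.setoid τ) f fun x y hxy =>
    (h x y).1 hxy) ⟨?_, ?_⟩
  · intro x y
    induction x using Quotient.inductionOn
    induction y using Quotient.inductionOn
    intro hxy
    exact Quotient.sound ((h _ _).2 hxy)
  · intro y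
    obtain ⟨x, rfl⟩ := hs y
    exact ⟨Quotient.mk _ x, rfl⟩

lemma mk_eq {α : Type*} {σ : Perm α} {x y : α} :
    Quotient.mk (Perm.SameCycle.setoid σ) x = Quotient.mk (Perm.SameCycle.setoid σ) y ↔
      σ.SameCycle x y := Quotient.eq

lemma numCycles_congr {α β : Type*} (e : α ≃ β) (σ : Perm α) :
    numCycles (e.permCongr σ) = numCycles σ := by
  rw [numCycles_eq (β := Quotient (Perm.SameCycle.setoid σ))
    (fun y => Quotient.mk _ (e.symm y))]
  · rfl
  · intro q
    induction q using Quotient.inductionOn with
    | _ x => exact ⟨e x, by simp⟩
  · intro x y
    rw [mk_eq]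
    constructor
    · intro h
      refine sameCycle_induct (r := fun x y => σ.SameCycle (e.symm x) (e.symm y))
        ⟨fun x => Perm.SameCycle.refl _ _, fun h => h.symm, fun h h' => h.trans h'⟩ ?_ h
      intro x
      have h1 : σ.SameCycle (e.symm x) (σ (e.symm x)) := (Perm.sameCycle_apply_right).2
        (Perm.SameCycle.refl _ _)
      simpa [Equiv.permCongr_apply] using h1
    · intro h
      have h2 : (e.permCongr σ).SameCycle (e (e.symm x)) (e (e.symm y)) := by
        refine sameCycle_induct (r := fun x y => (e.permCongr σ).SameCycle (e x) (e y))
          ⟨fun x => Perm.SameCycle.refl _ _, fun h => h.symm, fun h h' => h.trans h'⟩ ?_ h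
        intro x
        have h1 : (e.permCongr σ) (e x) = e (σ x) := by simp [Equiv.permCongr_apply]
        rw [← h1]
        exact (Perm.sameCycle_apply_right).2 (Perm.SameCycle.refl _ _)
      simpa using h2

lemma numCycles_symm {α : Type*} (σ : Perm α) : numCycles σ.symm = numCycles σ := by
  rw [numCycles_eq (β := Quotient (Perm.SameCycle.setoid σ)) (fun y => Quotient.mk _ y)]
  · rfl
  · exact Quotient.mk_surjective
  · intro x y
    rw [mk_eq]
    exact Perm.sameCycle_inv

lemma sameCycle_step {α : Type*} (σ : Perm α) (x : α) : σ.SameCycle x (σ x) :=
  (Perm.sameCycle_apply_right).2 (Perm.SameCycle.refl _ _)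

lemma numCycles_optionCongr {α : Type*} [Finite α] (σ : Perm α) :
    numCycles (optionCongr σ) = numCycles σ + 1 := by
  have hfin : Finite (Quotient (Perm.SameCycle.setoid σ)) := Quotient.finite _
  rw [numCycles_eq (β := Option (Quotient (Perm.SameCycle.setoid σ)))
    (Option.map (Quotient.mk _))]
  · rw [Finite.card_option]; rfl
  · intro q
    cases q with
    | none => exact ⟨none, rfl⟩
    | some q =>
      induction q using Quotient.inductionOn with
      | _ x => exact ⟨some x, rfl⟩
  · intro x y
    constructor
    · intro h
      refine sameCycle_induct (r := fun x y => Option.map (Quotient.mk (Perm.SameCycle.setoid σ)) x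
        = Option.map (Quotient.mk (Perm.SameCycle.setoid σ)) y)
        ⟨fun x => rfl, fun h => h.symm, fun h h' => h.trans h'⟩ ?_ h
      intro x
      cases x with
      | none => simp
      | some x =>
        simp only [Equiv.optionCongr_apply, Option.map_some, Option.some.injEq]
        rw [mk_eq]
        exact sameCycle_step σ x
    · intro h
      cases x with
      | none =>
        cases y with
        | none => exact Perm.SameCycle.refl _ _
        | some y => simp at h
      | some x =>
        cases y with
        | none => simp at h
        | some y =>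
          simp only [Option.map_some, Option.some.injEq] at h
          rw [mk_eq] at h
          refine sameCycle_induct (σ := σ)
            (r := fun x y => Perm.SameCycle (optionCongr σ) (some x) (some y))
            ⟨fun x => Perm.SameCycle.refl _ _, fun h => h.symm, fun h h' => h.trans h'⟩ ?_ h
          intro x
          exact sameCycle_step (optionCongr σ) (some x)

lemma numCycles_swap {α : Type*} [Finite α] [DecidableEq α] (σ : Perm α) (i : α) :
    numCycles (swap none (some i) * optionCongr σ) = numCycles σ := by
  set τ := swap none (some i) * optionCongr σ with hτ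
  have hnone : τ none = some i := by simp [hτ]
  have hsome : ∀ x, τ (some x) = if σ x = i then none else some (σ x) := by
    intro x
    rw [hτ, Perm.mul_apply, Equiv.optionCongr_apply, Option.map_some]
    split_ifs with h
    · rw [h, swap_apply_right]
    · rw [swap_apply_of_ne_of_ne]
      · simp
      · simpa using h
  rw [numCycles_eq (β := Quotient (Perm.SameCycle.setoid σ))
    (fun y => Quotient.mk _ (y.getD i))]
  · rfl
  · intro q
    induction q using Quotient.inductionOn with
    | _ x => exact ⟨some x, rfl⟩
  · intro x y
    rw [mk_eq]
    constructor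
    · intro h
      have heq : Equivalence fun x y : Option α => σ.SameCycle (x.getD i) (y.getD i) :=
        ⟨fun x => Perm.SameCycle.refl _ _, fun h => Perm.SameCycle.symm h,
          fun h h' => Perm.SameCycle.trans h h'⟩
      refine sameCycle_induct heq ?_ h
      intro x
      cases x with
      | none => rw [hnone]; exact Perm.SameCycle.refl _ _
      | some x =>
        rw [hsome]
        split_ifs with h
        · simp only [Option.getD_some, Option.getD_none]
          rw [← h]
          exact sameCycle_step σ x
        · exact sameCycle_step σ x
    · intro h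
      have h0 : τ.SameCycle none (some i) := by rw [← hnone]; exact sameCycle_step τ none
      have h1 : ∀ x y, σ.SameCycle x y → τ.SameCycle (some x) (some y) := by
        intro x y hxy
        refine sameCycle_induct (σ := σ) (r := fun x y => τ.SameCycle (some x) (some y))
          ⟨fun x => Perm.SameCycle.refl _ _, fun h => h.symm, fun h h' => h.trans h'⟩ ?_ hxy
        intro x
        have h2 := sameCycle_step τ (some x)
        rw [hsome] at h2
        split_ifs at h2 with h3
        · rw [h3]; exact h2.trans h0
        · exact h2
      have h4 : ∀ x : Option α, τ.SameCycle x (some (x.getD i)) := by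
        intro x
        cases x with
        | none => exact h0
        | some x => exact Perm.SameCycle.refl _ _
      exact (h4 x).trans ((h1 _ _ h).trans (h4 y).symm)

end Pool.Agent.Lib.MP_264509_pr
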