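import Pool.Agent.Lib.MP_264509_pr.Model

open Finset Filter MeasureTheory
open scoped Topology

namespace Pool.Agent.Lib.MP_264509_pr

section

variable {p : ∀ n, Equiv.Perm (Fin n) → ℝ} {ρ : Lab → ℝ → ℝ}

lemma pow_factorial_le {n l : ℕ} (h : 2 * l ≤ n) :
    (n : ℝ) ^ l * (((n - l).factorial : ℝ) / (n.factorial : ℝ)) ≤ 2 ^ l := by
  have h1 := Nat.pow_sub_le_descFactorial n l
  have h2 := Nat.factorial_mul_descFactorial (show l ≤ n by omega)
  have h3 : ((n - l).factorial : ℝ) * (n.descFactorial l : ℝ) = (n.factorial : ℝ) := by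
    exact_mod_cast h2
  have h4 : ((n + 1 - l : ℕ) : ℝ) ^ l ≤ (n.descFactorial l : ℝ) := by exact_mod_cast h1
  have h5 : (n : ℝ) ≤ 2 * ((n + 1 - l : ℕ) : ℝ) := by
    have : n ≤ 2 * (n + 1 - l) := by omega
    exact_mod_cast this
  have h6 : (0 : ℝ) < n.factorial := by positivity
  rw [← mul_div_assoc, div_le_iff₀ h6, ← h3]
  calc (n : ℝ) ^ l * ((n - l).factorial : ℝ) ≤
      (2 * ((n + 1 - l : ℕ) : ℝ)) ^ l * ((n - l).factorial : ℝ) := by gcongr
    _ = 2 ^ l * (((n - l).factorial : ℝ) * ((n + 1 - l : ℕ) : ℝ) ^ l) := by rw [mul_pow]; ring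
    _ ≤ 2 ^ l * (((n - l).factorial : ℝ) * (n.descFactorial l : ℝ)) := by gcongr

lemma lab_of_posRel {R a m : ℕ} {x : Lab} (h : PosRel x a m) (hx : x ∈ winS R)
    (ha : 2 * R ≤ a) : lab R a m = some x := by
  rw [mem_winS] at hx
  unfold lab
  rcases hx with ⟨d, h1, h2, rfl⟩ | ⟨j, h1, rfl⟩
  · simp only [PosRel] at h
    rw [if_neg (by omega), if_pos (by unfold Close; omega), h]
  · simp only [PosRel] at h
    rw [if_pos (by omega), h]

/-- far apart letters away from the two ends -/
def Far {n l : ℕ} (R : ℕ) (a : Fin l → Fin n) : Prop :=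
  (∀ i, 2 * R ≤ (a i : ℕ) ∧ (a i : ℕ) + R < n) ∧ ∀ i j, i ≠ j → ¬ Close (2 * R) (a i) (a j)

lemma exists_positions {n l R : ℕ} (p : Equiv.Perm (Fin n) → ℝ) {v : Fin l → Lab}
    (hv : StackDistinct v) (hvS : ∀ i, v i ∈ winS R) {a : Fin l → Fin n} (ha : Far R a) :
    ∃ m : Fin l → Fin n, Function.Injective m ∧ (∀ i, PosRel (v i) (a i) (m i)) ∧
      labProb p R v a = pat p a m := by
  have hex : ∀ i, ∃ m : Fin n, PosRel (v i) (a i) m := by
    intro i
    have h1 := ha.1 i
    rcases mem_winS.1 (hvS i) with ⟨d, h2, h3, h4⟩ | ⟨j, h2, h4⟩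
    · refine ⟨⟨((a i : ℤ) - d).toNat, by omega⟩, ?_⟩
      rw [h4]
      simp only [PosRel]
      omega
    · refine ⟨⟨j, by omega⟩, ?_⟩
      rw [h4]
      rfl
  choose m hm using hex
  refine ⟨m, ?_, hm, ?_⟩
  · intro i j hij
    by_contra hne
    have h1 := ha.1 i
    have h2 := ha.1 j
    have h3 := ha.2 i j hne
    have h4 := hm i
    have h5 := hm j
    rw [hij] at h4
    rcases mem_winS.1 (hvS i) with ⟨d, h6, h7, h8⟩ | ⟨s, h6, h8⟩ <;>
    rcases mem_winS.1 (hvS j) with ⟨d', h6', h7', h8'⟩ | ⟨s', h6', h8'⟩ <;>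
    rw [h8] at h4 <;> rw [h8'] at h5 <;> simp only [PosRel] at h4 h5
    · apply h3; unfold Close; omega
    · omega
    · omega
    · rw [h4] at h5
      subst h5
      exact hne (hv i j _ h8 h8')
  · unfold labProb pat
    apply Finset.sum_congr rfl
    intro π _
    have hiff : (∀ i, lab R (a i) (π.symm (a i)) = some (v i)) ↔ ∀ i, π.symm (a i) = m i := by
      have hl : ∀ i, lab R (a i) (m i) = some (v i) := fun i =>
        lab_of_posRel (hm i) (hvS i) (ha.1 i).1
      constructor
      · intro h i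
        exact Fin.ext (lab_inj (h i) (hl i))
      · intro h i
        rw [h i]; exact hl i
    simp only [hiff]

lemma tendsto_fl {x : ℝ} (hx : x ∈ Set.Ioo (0 : ℝ) 1) :
    Tendsto (fun n : ℕ => ((fl n x : ℕ) : ℝ) / ((n : ℝ) + 1)) atTop (𝓝 x) := by
  have h1 : ∀ n : ℕ, ((fl n x : ℕ) : ℝ) ≤ ((n : ℝ) + 1) * x := by
    intro n
    rw [fl_coe]
    have h2 : ((min ⌊((n : ℝ) + 1) * x⌋₊ n : ℕ) : ℝ) ≤ (⌊((n : ℝ) + 1) * x⌋₊ : ℕ) := by
      exact_mod_cast min_le_left _ _
    exact h2.trans (Nat.floor_le (mul_nonneg (by positivity) hx.1.le))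
  have h3 : ∀ n : ℕ, ((n : ℝ) + 1) * x - 1 ≤ ((fl n x : ℕ) : ℝ) := by
    intro n
    rw [fl_coe]
    rcases min_choice ⌊((n : ℝ) + 1) * x⌋₊ n with h | h <;> rw [h]
    · have := Nat.lt_floor_add_one (((n : ℝ) + 1) * x)
      linarith
    · have : ((n : ℝ) + 1) * x ≤ ((n : ℝ) + 1) * 1 := by gcongr; exact hx.2.le
      linarith
  have h0 : Tendsto (fun n : ℕ => 1 / ((n : ℝ) + 1)) atTop (𝓝 0) :=
    tendsto_one_div_add_atTop_nhds_zero_nat
  refine tendsto_of_tendsto_of_tendsto_of_le_of_le (g := fun n : ℕ => x - 1 / ((n : ℝ) + 1))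
    (h := fun _ => x) ?_ tendsto_const_nhds ?_ ?_
  · simpa using tendsto_const_nhds.sub h0
  · intro n
    have hn : (0 : ℝ) < (n : ℝ) + 1 := by positivity
    change x - 1 / ((n : ℝ) + 1) ≤ ((fl n x : ℕ) : ℝ) / ((n : ℝ) + 1)
    rw [le_div_iff₀ hn, sub_mul, one_div, inv_mul_cancel₀ hn.ne']
    have := h3 n
    linarith
  · intro n
    have hn : (0 : ℝ) < (n : ℝ) + 1 := by positivity
    change ((fl n x : ℕ) : ℝ) / ((n : ℝ) + 1) ≤ x
    rw [div_le_iff₀ hn]
    have := h1 n
    linarith

lemma eventually_gap {x y : ℝ} (hx : x ∈ Set.Ioo (0 : ℝ) 1) (hy : y ∈ Set.Ioo (0 : ℝ) 1)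
    (hxy : x < y) (K : ℕ) : ∀ᶠ n : ℕ in atTop, (fl n x : ℕ) + K < fl n y := by
  have h1 := (tendsto_fl hy).sub (tendsto_fl hx)
  have h2 : ∀ᶠ n : ℕ in atTop, (y - x) / 2 <
      ((fl n y : ℕ) : ℝ) / ((n : ℝ) + 1) - ((fl n x : ℕ) : ℝ) / ((n : ℝ) + 1) :=
    h1.eventually (lt_mem_nhds (by linarith))
  have h3 : ∀ᶠ n : ℕ in atTop, (K : ℝ) < ((n : ℝ) + 1) * ((y - x) / 2) := by
    have : Tendsto (fun n : ℕ => ((n : ℝ) + 1) * ((y - x) / 2)) atTop atTop :=
      (tendsto_atTop_add_const_right _ 1 tendsto_natCast_atTop_atTop).atTop_mul_const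
        (by linarith)
    exact this.eventually (eventually_gt_atTop _)
  filter_upwards [h2, h3] with n h2 h3
  have hn : (0 : ℝ) < (n : ℝ) + 1 := by positivity
  rw [← sub_div, lt_div_iff₀ hn] at h2
  have h4 : ((fl n x : ℕ) : ℝ) + K < ((fl n y : ℕ) : ℝ) := by linarith
  exact_mod_cast h4

lemma eventually_far {l : ℕ} {x : Fin l → ℝ} (hinj : Function.Injective x)
    (hx : ∀ i, x i ∈ Set.Ioo (0 : ℝ) 1) (R : ℕ) :
    ∀ᶠ n : ℕ in atTop, Far R fun i => fl n (x i) := by
  have h1 : ∀ i, ∀ᶠ n : ℕ in atTop, 2 * R ≤ (fl n (x i) : ℕ) := by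
    intro i
    have hy : x i / 2 ∈ Set.Ioo (0 : ℝ) 1 := ⟨by linarith [(hx i).1], by linarith [(hx i).1, (hx i).2]⟩
    filter_upwards [eventually_gap hy (hx i) (by linarith [(hx i).1]) (2 * R)] with n hn
    omega
  have h2 : ∀ i, ∀ᶠ n : ℕ in atTop, (fl n (x i) : ℕ) + R < n + 1 := by
    intro i
    have hy : (x i + 1) / 2 ∈ Set.Ioo (0 : ℝ) 1 :=
      ⟨by linarith [(hx i).1], by linarith [(hx i).2]⟩
    filter_upwards [eventually_gap (hx i) hy (by linarith [(hx i).2]) R] with n hn
    have := (fl n ((x i + 1) / 2)).2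
    omega
  have h3 : ∀ i j, i ≠ j → ∀ᶠ n : ℕ in atTop, ¬ Close (2 * R) (fl n (x i)) (fl n (x j)) := by
    intro i j hij
    rcases lt_or_gt_of_ne (fun h => hij (hinj h) : x i ≠ x j) with h | h
    · filter_upwards [eventually_gap (hx i) (hx j) h (2 * R)] with n hn
      unfold Close; omega
    · filter_upwards [eventually_gap (hx j) (hx i) h (2 * R)] with n hn
      unfold Close; omega
  have h1' := eventually_all.2 h1
  have h2' := eventually_all.2 h2
  have h3' : ∀ᶠ n : ℕ in atTop, ∀ i j, i ≠ j → ¬ Close (2 * R) (fl n (x i)) (fl n (x j)) := by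
    rw [eventually_all]; intro i
    rw [eventually_all]; intro j
    by_cases hij : i = j
    · exact Eventually.of_forall fun n h => absurd hij h
    · filter_upwards [h3 i j hij] with n hn _ using hn
  filter_upwards [h1', h2', h3'] with n h1 h2 h3
  exact ⟨fun i => ⟨h1 i, h2 i⟩, h3⟩

lemma Far.injective {n l R : ℕ} {a : Fin l → Fin n} (h : Far R a) : Function.Injective a := by
  intro i j hij
  by_contra hne
  apply h.2 i j hne
  rw [hij]
  unfold Close
  omega

/-- the limit of the probabilities of labels -/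
lemma tendsto_labProb (H : Model p ρ) {l R : ℕ} {v : Fin l → Lab} (hv : StackDistinct v)
    (hvS : ∀ i, v i ∈ winS R) {x : Fin l → ℝ} (hinj : Function.Injective x)
    (hx : ∀ i, x i ∈ Set.Ioo (0 : ℝ) 1) :
    Tendsto (fun n : ℕ => ((n : ℝ) + 1) ^ l * labProb (p (n + 1)) R v fun i => fl n (x i)) atTop
      (𝓝 (∏ i, ρ (v i) (x i))) := by
  obtain ⟨n0, hn0⟩ := eventually_atTop.1 (eventually_far hinj hx R)
  rw [← tendsto_add_atTop_iff_nat n0]
  have hex : ∀ k : ℕ, ∃ m : Fin l → Fin (k + n0 + 1), Function.Injective m ∧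
      (∀ i, PosRel (v i) (fl (k + n0) (x i)) (m i)) ∧
      labProb (p (k + n0 + 1)) R v (fun i => fl (k + n0) (x i)) =
        pat (p (k + n0 + 1)) (fun i => fl (k + n0) (x i)) m := fun k =>
    exists_positions _ hv hvS (hn0 (k + n0) (by omega))
  choose m hm1 hm2 hm3 using hex
  have hT : Tendsto (fun k : ℕ => k + n0 + 1) atTop atTop :=
    tendsto_atTop_mono (fun k => show k ≤ k + n0 + 1 by omega) tendsto_id
  have h := H.lim l v x hv hinj hx (fun k => k + n0 + 1) hT (fun k i => fl (k + n0) (x i)) m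
    (fun k => (hn0 (k + n0) (by omega)).injective) hm1 (fun i => by
      have := (tendsto_fl (hx i)).comp (tendsto_add_atTop_nat n0)
      refine this.congr fun k => ?_
      simp only [Function.comp_apply]
      push_cast
      rfl) hm2
  refine h.congr fun k => ?_
  rw [hm3]
  push_cast
  rfl

/-- the limit of the moments -/
noncomputable def limMoment (ρ : Lab → ℝ → ℝ) (v : List Lab) : ℝ :=
  open Classical in if StackDistinct v.get then
    ∫ x, (if StrictMono x then ∏ i, ρ (v.get i) (x i) else 0) ∂(Ul v.length) else 0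

lemma labProb_zero {n l R : ℕ} (p : Equiv.Perm (Fin n) → ℝ) {v : Fin l → Lab}
    (hv : ¬ StackDistinct v) {a : Fin l → Fin n} (ha : Function.Injective a) :
    labProb p R v a = 0 := by
  unfold StackDistinct at hv
  push Not at hv
  obtain ⟨i, j, s, h1, h2, h3⟩ := hv
  apply Finset.sum_eq_zero
  intro π _
  rw [if_neg]
  intro h
  have h4 := h i
  have h5 := h j
  rw [h1] at h4
  rw [h2] at h5
  have h6 : ∀ a m : ℕ, lab R a m = some (.stack s) → m = s := by
    intro a m h
    unfold lab at h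
    split_ifs at h with h7 h8
    · simpa using h
    · simp at h
  have h7 := h6 _ _ h4
  have h8 := h6 _ _ h5
  exact h3 (ha (π.symm.injective (Fin.ext (h7.trans h8.symm))))

lemma ae_Ul_injective (l : ℕ) : ∀ᵐ x ∂(Ul l), Function.Injective x ∧ ∀ i, x i ∈ Set.Ioo (0 : ℝ) 1 := by
  have h1 : ∀ᵐ y ∂U, y ∈ Set.Ioo (0 : ℝ) 1 := by
    have : (volume.restrict (Set.Ioo (0 : ℝ) 1)) = U := by
      rw [U]; exact Measure.restrict_congr_set Ioo_ae_eq_Icc
    rw [← this]
    exact ae_restrict_mem measurableSet_Ioo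
  have h2 : ∀ i, ∀ᵐ x ∂(Ul l), x i ∈ Set.Ioo (0 : ℝ) 1 := by
    intro i
    exact (measurePreserving_eval (fun _ : Fin l => U) i).quasiMeasurePreserving.ae h1
  have h3 : ∀ i j, i ≠ j → ∀ᵐ x ∂(Ul l), x i ≠ x j := by
    intro i j hij
    have h4 : ((Measure.pi fun _ : Fin l => U).map fun x => (x i, x j)) = U.prod U := by
      have := Measure.infinitePi_map_eval_prod (P := fun _ : Fin l => U) hij
      rwa [Measure.infinitePi_eq_pi] at this
    have hatom : NullSingletonClass U := by unfold U; infer_instance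
    have h5 : ∀ᵐ z ∂(U.prod U), z.1 ≠ z.2 := by
      rw [ae_iff]
      have hs : MeasurableSet {z : ℝ × ℝ | ¬ z.1 ≠ z.2} := by
        simp only [ne_eq, not_not]
        exact measurableSet_eq_fun measurable_fst measurable_snd
      rw [Measure.measure_prod_null hs]
      refine Eventually.of_forall fun x => ?_
      change U (Prod.mk x ⁻¹' {z : ℝ × ℝ | ¬ z.1 ≠ z.2}) = 0
      have : Prod.mk x ⁻¹' {z : ℝ × ℝ | ¬ z.1 ≠ z.2} = {x} := by
        ext y
        simp [eq_comm]
      rw [this]
      exact measure_singleton x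
    rw [← h4] at h5
    exact ae_of_ae_map (p := fun z : ℝ × ℝ => z.1 ≠ z.2)
      (f := fun x : Fin l → ℝ => (x i, x j)) (by fun_prop) h5
  have h3' : ∀ᵐ x ∂(Ul l), ∀ i j, i ≠ j → x i ≠ x j := by
    rw [ae_all_iff]; intro i
    rw [ae_all_iff]; intro j
    by_cases hij : i = j
    · exact Eventually.of_forall fun n h => absurd hij h
    · filter_upwards [h3 i j hij] with n hn _ using hn
  filter_upwards [ae_all_iff.2 h2, h3'] with x hx hx'
  refine ⟨fun i j hij => ?_, hx⟩
  by_contra hne
  exact hx' i j hne hij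

theorem tendsto_moment (H : Model p ρ) (R : ℕ) (v : List Lab) (hvS : ∀ x ∈ v, x ∈ winS R) :
    Tendsto (fun n => ∑ π, p n π * (cnt v (word R π) : ℝ)) atTop (𝓝 (limMoment ρ v)) := by
  classical
  rw [← tendsto_add_atTop_iff_nat 1]
  set l := v.length with hl
  have hget : ∀ i, v.get i ∈ winS R := fun i => hvS _ (List.get_mem _ _)
  by_cases hv : StackDistinct v.get
  · rw [limMoment, if_pos hv]
    simp only [moment_eq]
    simp only [sum_eq_integral]
    obtain ⟨C, hC, hb⟩ := H.bound
    apply tendsto_integral_filter_of_dominated_convergence (fun _ => (2 * C) ^ l)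
    · refine Eventually.of_forall fun n => ?_
      apply AEStronglyMeasurable.const_mul
      have h1 : Measurable fun (x : Fin l → ℝ) (i : Fin l) => fl n (x i) :=
        measurable_pi_lambda _ fun i => (measurable_fl n).comp (measurable_pi_apply i)
      have h2 : Measurable fun a : Fin l → Fin (n + 1) =>
          if StrictMono a then labProb (p (n + 1)) R v.get a else 0 := measurable_of_finite _
      exact (h2.comp h1).aestronglyMeasurable
    · have hb' : ∀ᶠ n : ℕ in atTop, _ := (tendsto_add_atTop_nat 1).eventually hb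
      filter_upwards [hb', eventually_ge_atTop (2 * l)] with n hn hn2
      refine Eventually.of_forall fun x => ?_
      have hB : 0 ≤ C ^ l * (((n + 1 - l).factorial : ℝ) / ((n + 1).factorial : ℝ)) := by
        positivity
      have h1 : (if StrictMono fun i => fl n (x i) then
          labProb (p (n + 1)) R v.get fun i => fl n (x i) else 0) ≤
          C ^ l * (((n + 1 - l).factorial : ℝ) / ((n + 1).factorial : ℝ)) := by
        split_ifs with ha
        · exact labProb_le H _ _ ha.injective hB fun m hm => hn l _ m ha.injective hm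
        · exact hB
      have h0 : 0 ≤ (if StrictMono fun i => fl n (x i) then
          labProb (p (n + 1)) R v.get fun i => fl n (x i) else 0) := by
        split_ifs with ha
        · exact labProb_nonneg H _ _
        · exact le_rfl
      rw [Real.norm_of_nonneg (by positivity)]
      have h2 := pow_factorial_le (n := n + 1) (l := l) (by omega)
      calc ((n : ℝ) + 1) ^ l * _ ≤ ((n : ℝ) + 1) ^ l *
            (C ^ l * (((n + 1 - l).factorial : ℝ) / ((n + 1).factorial : ℝ))) :=
            mul_le_mul_of_nonneg_left h1 (by positivity)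
        _ = C ^ l * (((n + 1 : ℕ) : ℝ) ^ l *
            (((n + 1 - l).factorial : ℝ) / ((n + 1).factorial : ℝ))) := by push_cast; ring
        _ ≤ C ^ l * 2 ^ l := by gcongr
        _ = (2 * C) ^ l := by rw [mul_pow]; ring
    · exact integrable_const _
    · filter_upwards [ae_Ul_injective l] with x hx
      by_cases hmono : StrictMono x
      · rw [if_pos hmono]
        have h1 : ∀ᶠ n : ℕ in atTop, StrictMono fun i => fl n (x i) := by
          have h2 : ∀ᶠ n : ℕ in atTop, ∀ i j, i < j → fl n (x i) < fl n (x j) := by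
            rw [eventually_all]; intro i
            rw [eventually_all]; intro j
            by_cases hij : i < j
            · filter_upwards [eventually_gap (hx.2 i) (hx.2 j) (hmono hij) 0] with n hn _
              rw [Fin.lt_def]; omega
            · exact Eventually.of_forall fun n h => absurd h hij
          filter_upwards [h2] with n hn i j hij using hn i j hij
        have h3 := tendsto_labProb H hv hget hx.1 hx.2
        refine h3.congr' ?_
        filter_upwards [h1] with n hn
        rw [if_pos hn]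
      · rw [if_neg hmono]
        have h1 : ∀ᶠ n : ℕ in atTop, ¬ StrictMono fun i => fl n (x i) := by
          have h4 : ∃ i j, i < j ∧ x j < x i := by
            by_contra h
            push Not at h
            apply hmono
            intro i j hij
            exact lt_of_le_of_ne (h i j hij) fun he => hij.ne (hx.1 he)
          obtain ⟨i, j, hij, hji⟩ := h4
          filter_upwards [eventually_gap (hx.2 j) (hx.2 i) hji 0] with n hn hm
          have := hm hij
          simp only [Fin.lt_def] at this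
          omega
        refine tendsto_const_nhds.congr' ?_
        filter_upwards [h1] with n hn
        rw [if_neg hn, mul_zero]
  · rw [limMoment, if_neg hv]
    refine tendsto_const_nhds.congr fun n => ?_
    rw [moment_eq]
    symm
    apply Finset.sum_eq_zero
    intro a _
    split_ifs with ha
    · exact labProb_zero _ hv ha.injective
    · rfl

end

end Pool.Agent.Lib.MP_264509_pr
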