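import Mathlib

open MeasureTheory ProbabilityTheory Filter Set Topology
open scoped ENNReal NNReal

namespace Pool.Agent.Lib.MP_264509_pr

/-! ## Rooted balls -/

/-- the vertices of `G` at graph distance at most `r` from `o` -/
def ball {V : Type*} (G : SimpleGraph V) (o : V) (r : ℕ) : Set V :=
  {v | ∃ w : G.Walk o v, w.length ≤ r}

/-- the ball of radius `r` around `o` in `G`, as an induced subgraph rooted at `o`, is isomorphic
to the graph `H` rooted at `h` -/
def BallIso {V W : Type*} (G : SimpleGraph V) (o : V) (r : ℕ) (H : SimpleGraph W) (h : W) : Prop :=
  ∃ (e : G.induce (ball G o r) ≃g H) (ho : o ∈ ball G o r), e ⟨o, ho⟩ = h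

/-! ## The fixed point forest -/

/-- the permutation obtained from `π` (one-line form `π 0, π 1, …`) by moving the letter at
position `i` to the front: position `0` gets `π i`, position `j + 1` gets `π j` for `j < i`, the
positions after `i` keep their letters -/
def bump {n : ℕ} (π : Equiv.Perm (Fin n)) (i : Fin n) : Equiv.Perm (Fin n) :=
  (Fin.cycleRange i).symm.trans π

/-- the fixed point forest: `π` is joined to the permutations obtained by bumping one of its
fixed points -/
def forest (n : ℕ) : SimpleGraph (Equiv.Perm (Fin n)) :=
  SimpleGraph.fromRel fun π π' => ∃ i, π i = i ∧ π' = bump π i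

/-- the number of cycles of a permutation (fixed points are counted) -/
noncomputable def numCycles {α : Type*} (π : Equiv.Perm α) : ℕ :=
  Nat.card (Quotient (Equiv.Perm.SameCycle.setoid π))

/-- the number of inversions -/
def inv {n : ℕ} (π : Equiv.Perm (Fin n)) : ℕ :=
  ((Finset.univ : Finset (Fin n × Fin n)).filter fun p => p.1 < p.2 ∧ π p.2 < π p.1).card

/-- the probability of the event `A` when `π` is drawn with probability proportional to `w π` -/
noncomputable def prob {n : ℕ} (w : Equiv.Perm (Fin n) → ℝ) (A : Set (Equiv.Perm (Fin n))) : ℝ :=
  (∑ π, A.indicator w π) / ∑ π, w π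

/-- the weight of the Ewens distribution -/
noncomputable def ewensWeight (θ : ℝ) (n : ℕ) (π : Equiv.Perm (Fin n)) : ℝ := θ ^ numCycles π

/-- the weight of the Mallows distribution -/
noncomputable def mallowsWeight (q : ℝ) (n : ℕ) (π : Equiv.Perm (Fin n)) : ℝ := q ^ inv π

/-! ## The limit graph -/

/-- a configuration: for every integer `k` a set of points (the letters whose value exceeds their
position by `k`), and an infinite sequence of letters at the front -/
structure Config where
  /-- the points of displacement `k` -/
  pts : ℤ → Set ℝ
  /-- the letters at the front -/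
  letters : ℕ → ℝ

/-- bumping the point `x`: it is moved to the front, and the points to the left of `x` have their
displacement lowered by one -/
def Config.bump (c : Config) (x : ℝ) : Config where
  pts k := {y | (y < x ∧ y ∈ c.pts (k + 1)) ∨ (x ≤ y ∧ y ∈ c.pts k ∧ ¬ (k = 0 ∧ y = x))}
  letters j := Nat.casesOn j x c.letters

/-- the graph of all configurations: `c` is joined to the configurations obtained by bumping one
of its points of displacement `0` -/
def configGraph : SimpleGraph Config :=
  SimpleGraph.fromRel fun c c' => ∃ x ∈ c.pts 0, c' = c.bump x

/-- the sample space of the limit: the numbers of points of the processes of index `k : ℤ`, the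
locations of the points (`Sum.inl (k, i)` is the `i`-th point of the `k`-th process), and the
letters (`Sum.inr j`) -/
abbrev Sample := (ℤ → ℕ) × ((ℤ × ℕ) ⊕ ℕ → ℝ)

/-- the root of the limit graph: the points of displacement `k` are the points of the `k`-th
process -/
def rootConfig (ω : Sample) : Config where
  pts k := {x | ∃ i < ω.1 k, ω.2 (Sum.inl (k, i)) = x}
  letters j := ω.2 (Sum.inr j)

/-- the law under which the `k`-th process is a Poisson point process of intensity `ν k` (a Poisson
number of independent points of law `ν k / |ν k|`), the letters have law `γ`, and everything is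
independent -/
noncomputable def limitLaw (ν : ℤ → Measure ℝ) (γ : Measure ℝ) : Measure Sample :=
  (Measure.infinitePi fun k : ℤ => poissonMeasure (ν k univ).toNNReal).prod
    (Measure.infinitePi (Sum.elim (fun p : ℤ × ℕ => (ν p.1 univ)⁻¹ • ν p.1) fun _ : ℕ => γ))

/-- the measure on `[0,1]` with density `f` -/
noncomputable def dens (f : ℝ → ℝ) : Measure ℝ :=
  (volume.restrict (Icc 0 1)).withDensity fun x => ENNReal.ofReal (f x)

/-- the limit law for the Ewens distribution: the process of index `0` has intensity `θ dx` and
the others have intensity `dx`; the letters are uniform on `[0,1]` -/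
noncomputable def ewensLimit (θ : ℝ) : Measure Sample :=
  limitLaw (fun k => dens fun _ => if k = 0 then θ else 1) (dens fun _ => 1)

/-- the density of the limit of the Mallows permutations on the diagonal -/
noncomputable def mallowsDiag (β x : ℝ) : ℝ :=
  if β = 0 then 1
  else β * (1 - Real.exp (-β)) / (2 - Real.exp (-(β * x)) - Real.exp (-(β * (1 - x)))) ^ 2

/-- the density of the law of the letters at the front -/
noncomputable def mallowsFront (β x : ℝ) : ℝ :=
  if β = 0 then 1 else β * Real.exp (-(β * x)) / (1 - Real.exp (-β))

/-- the limit law for the Mallows distribution: all the processes have intensity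
`mallowsDiag β x dx`, and the letters have law `mallowsFront β x dx` -/
noncomputable def mallowsLimit (β : ℝ) : Measure Sample :=
  limitLaw (fun _ => dens (mallowsDiag β)) (dens (mallowsFront β))

/-! ## Local weak convergence -/

/-- the random graph `configGraph` rooted at `rootConfig ω`, for `ω` of law `P`, is the local weak
limit of the fixed point forests rooted at a permutation drawn with probability proportional to
`w n`: `P` is a probability measure; almost surely all balls around the root are finite; for every
radius `r` and every finite graph `H` rooted at `h`, the event that the ball of radius `r` is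
isomorphic to `H` (as rooted graphs) is measurable up to a null set, and its probability is the
limit, as `n → ∞`, of the probabilities of the same event for the forests -/
def IsLocalWeakLimit (w : ∀ n, Equiv.Perm (Fin n) → ℝ) (P : Measure Sample) : Prop :=
  IsProbabilityMeasure P ∧
  (∀ᵐ ω ∂P, ∀ r, (ball configGraph (rootConfig ω) r).Finite) ∧
  ∀ (r m : ℕ) (H : SimpleGraph (Fin m)) (h : Fin m),
    NullMeasurableSet {ω | BallIso configGraph (rootConfig ω) r H h} P ∧
    Tendsto (fun n => prob (w n) {π | BallIso (forest n) π r H h}) atTop
      (𝓝 (P.real {ω | BallIso configGraph (rootConfig ω) r H h}))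

end Pool.Agent.Lib.MP_264509_pr
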