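import Pool.Agent.Lib.MP_264509_pr.LimitSide

open Finset MeasureTheory ProbabilityTheory Filter
open scoped ENNReal NNReal Topology

namespace Pool.Agent.Lib.MP_264509_pr

lemma lintegral_prod_Ul {l : ℕ} (f : Fin l → ℝ → ℝ≥0∞) (hf : ∀ t, Measurable (f t)) :
    ∫⁻ x, ∏ t, f t (x t) ∂(Ul l) = ∏ t, ∫⁻ y, f t y ∂U := by
  have hind := iIndepFun_infinitePi (P := fun _ : Fin l => U) (X := f) hf
  have h1 := lintegral_prod_eq_prod_lintegral_of_indepFun Finset.univ _ hind fun t =>
    (hf t).comp (measurable_pi_apply t)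
  rw [Measure.infinitePi_eq_pi] at h1
  change ∫⁻ x, ∏ t, f t (x t) ∂(Measure.pi fun _ => U) = _
  rw [h1]
  apply Finset.prod_congr rfl
  intro t _
  have h2 := (measurePreserving_eval (fun _ : Fin l => U) t).map_eq
  conv_rhs => rw [← h2]
  rw [lintegral_map (hf t) (measurable_pi_apply t)]

lemma pi_withDensity {l : ℕ} (f : Fin l → ℝ → ℝ≥0∞) (hf : ∀ t, Measurable (f t))
    (hfin : ∀ t, IsFiniteMeasure (U.withDensity (f t))) :
    Measure.pi (fun t => U.withDensity (f t)) = (Ul l).withDensity fun x => ∏ t, f t (x t) := by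
  apply Measure.pi_eq
  intro s hs
  have hbox : MeasurableSet (Set.univ.pi s) := MeasurableSet.univ_pi hs
  rw [withDensity_apply _ hbox, ← lintegral_indicator hbox]
  have h1 : ∀ x : Fin l → ℝ, (Set.univ.pi s).indicator (fun x => ∏ t, f t (x t)) x =
      ∏ t, (s t).indicator (f t) (x t) := by
    intro x
    by_cases hx : x ∈ Set.univ.pi s
    · rw [Set.indicator_of_mem hx]
      apply Finset.prod_congr rfl
      intro t _
      rw [Set.indicator_of_mem (hx t (Set.mem_univ t))]
    · rw [Set.indicator_of_notMem hx]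
      symm
      simp only [Set.mem_pi, Set.mem_univ, forall_true_left, not_forall] at hx
      obtain ⟨t, ht⟩ := hx
      exact Finset.prod_eq_zero (Finset.mem_univ t) (Set.indicator_of_notMem ht _)
  simp only [h1]
  rw [lintegral_prod_Ul _ fun t => (hf t).indicator (hs t)]
  apply Finset.prod_congr rfl
  intro t _
  rw [lintegral_indicator (hs t), withDensity_apply _ (hs t)]

lemma pi_smul_measure {l : ℕ} (μ : Fin l → Measure ℝ) [∀ t, IsFiniteMeasure (μ t)]
    (c : Fin l → ℝ≥0∞) (hc : ∀ t, c t ≠ ∞) (s : Set (Fin l → ℝ)) :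
    (∏ t, c t) * Measure.pi μ s = Measure.pi (fun t => c t • μ t) s := by
  have : ∀ t, IsFiniteMeasure (c t • μ t) := fun t => Measure.smul_finite _ (hc t)
  have h : Measure.pi (fun t => c t • μ t) = (∏ t, c t) • Measure.pi μ := by
    apply Measure.pi_eq
    intro s hs
    rw [Measure.smul_apply, Measure.pi_pi, smul_eq_mul, ← Finset.prod_mul_distrib]
    rfl
  rw [h, Measure.smul_apply, smul_eq_mul]

lemma dens_eq (f : ℝ → ℝ) : dens f = U.withDensity fun x => ENNReal.ofReal (f x) := rfl

lemma dens_finite {f : ℝ → ℝ} (hf : Integrable f U) : IsFiniteMeasure (dens f) := by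
  rw [dens_eq]
  exact isFiniteMeasure_withDensity_ofReal hf.2

/-- densities of the marks in the limit -/
structure Dens (ρ : Lab → ℝ → ℝ) (ν : ℤ → Measure ℝ) (γ : Measure ℝ) : Prop where
  meas : ∀ l, Measurable (ρ l)
  nonneg : ∀ l x, 0 ≤ ρ l x
  int : ∀ l, Integrable (ρ l) U
  disp : ∀ k, ν k = dens (ρ (.disp k))
  stack : ∀ j, γ = dens (ρ (.stack j))
  pos : ∀ k, ν k Set.univ ≠ 0
  prob : IsProbabilityMeasure γ

section

variable {ρ : Lab → ℝ → ℝ} {ν : ℤ → Measure ℝ} {γ : Measure ℝ}

lemma nullSingleton_dens (f : ℝ → ℝ) : NullSingletonClass (dens f) := by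
  constructor
  intro x
  have h : dens f ≪ U := by rw [dens_eq]; exact withDensity_absolutelyContinuous _ _
  apply h
  have : NullSingletonClass U := by unfold U; infer_instance
  exact measure_singleton x

lemma Dens.goodInt (h : Dens ρ ν γ) : GoodInt ν γ where
  fin k := by rw [h.disp k]; exact dens_finite (h.int _)
  pos := h.pos
  atom k := by rw [h.disp k]; exact nullSingleton_dens _
  prob := h.prob
  atomg := by rw [h.stack 0]; exact nullSingleton_dens _

lemma Dens.smul_nrm (h : Dens ρ ν γ) (x : Lab) :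
    massLab (fun k => (ν k Set.univ).toNNReal) x • nrm ν γ x = dens (ρ x) := by
  cases x with
  | disp k =>
    have := h.goodInt.fin k
    simp only [massLab, nrm]
    rw [ENNReal.coe_toNNReal (measure_ne_top _ _), smul_smul,
      ENNReal.mul_inv_cancel (h.pos k) (measure_ne_top _ _), one_smul, h.disp k]
  | stack j =>
    simp only [massLab, nrm, one_smul]
    exact h.stack j

lemma Dens.integrand (h : Dens ρ ν γ) {l : ℕ} (v : Fin l → Lab) :
    Integrable (fun x : Fin l → ℝ => ∏ t, ρ (v t) (x t)) (Ul l) :=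
  Integrable.fintype_prod fun t => h.int (v t)

lemma Dens.lintegral_eq (h : Dens ρ ν γ) {R : ℕ} (v : List Lab) (hv : ∀ x ∈ v, x ∈ winS R) :
    ∫⁻ ω, ((Iset v.get ω).encard : ℝ≥0∞) ∂(limitLaw ν γ) = ENNReal.ofReal (limMoment ρ v) := by
  classical
  have hvg : ∀ t, v.get t ∈ winS R := fun t => hv _ (List.get_mem _ _)
  rw [(lintegral_Iset h.goodInt v.get hvg).2, limMoment]
  split_ifs with hd
  · have := h.goodInt.nrm_prob
    rw [pi_smul_measure (fun t => nrm ν γ (v.get t)) _ (fun t => by
      cases v.get t <;> simp [massLab])]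
    simp only [h.smul_nrm, dens_eq]
    rw [pi_withDensity _ (fun t => (h.meas _).ennreal_ofReal) (fun t => by
      have := dens_finite (h.int (v.get t))
      rwa [dens_eq] at this)]
    rw [withDensity_apply _ (measurableSet_strictMono _)]
    have h1 : (fun x : Fin v.length → ℝ => if StrictMono x then ∏ i, ρ (v.get i) (x i) else 0) =
        {x : Fin v.length → ℝ | StrictMono x}.indicator fun x => ∏ i, ρ (v.get i) (x i) := by
      funext x
      by_cases hx : StrictMono x
      · rw [Set.indicator_of_mem (by exact hx), if_pos hx]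
      · rw [Set.indicator_of_notMem (by exact hx), if_neg hx]
    rw [h1, integral_indicator (measurableSet_strictMono _),
      ofReal_integral_eq_lintegral_ofReal (h.integrand v.get).integrableOn]
    · apply lintegral_congr
      intro x
      rw [ENNReal.ofReal_prod_of_nonneg fun t _ => h.nonneg _ _]
    · exact Eventually.of_forall fun x => Finset.prod_nonneg fun t _ => h.nonneg _ _
  · simp

lemma cnt_not_mem {S : Finset Lab} : ∀ (v W : List Lab), (∀ x ∈ W, x ∈ S) →
    (¬ ∀ x ∈ v, x ∈ S) → cnt v W = 0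
  | [], W, hW, hv => by simp at hv
  | x :: v, [], hW, hv => rfl
  | x :: v, y :: W, hW, hv => by
    rw [cnt_cons_cons, cnt_not_mem (x :: v) W (fun z hz => hW z (List.mem_cons_of_mem _ hz)) hv]
    split_ifs with hxy
    · rw [zero_add]
      apply cnt_not_mem v W fun z hz => hW z (List.mem_cons_of_mem _ hz)
      intro hv'
      apply hv
      intro z hz
      rcases List.mem_cons.1 hz with h | h
      · rw [h, hxy]; exact hW y List.mem_cons_self
      · exact hv' z h
    · rfl

/-- the moments of the limit word -/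
theorem Dens.moment (h : Dens ρ ν γ) (R : ℕ) (v : List Lab) :
    Integrable (fun ω => (cnt v (wordC R ω) : ℝ)) (limitLaw ν γ) ∧
    ((∀ x ∈ v, x ∈ winS R) → ∫ ω, (cnt v (wordC R ω) : ℝ) ∂(limitLaw ν γ) = limMoment ρ v) ∧
    ((¬ ∀ x ∈ v, x ∈ winS R) → ∫ ω, (cnt v (wordC R ω) : ℝ) ∂(limitLaw ν γ) = 0) := by
  classical
  by_cases hv : ∀ x ∈ v, x ∈ winS R
  · have hvg : ∀ t, v.get t ∈ winS R := fun t => hv _ (List.get_mem _ _)
    have hae : ∀ᵐ ω ∂(limitLaw ν γ), (cnt v (wordC R ω) : ℝ) =
        ((Iset v.get ω).encard : ℝ≥0∞).toReal := by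
      filter_upwards [ae_limit_injective h.goodInt] with ω hω
      rw [← cnt_wordC (N := ω.1) (X := ω.2) hω v hv]
      simp
    have hm := (lintegral_Iset h.goodInt v.get hvg).1
    have hl := h.lintegral_eq v hv
    have hint : Integrable (fun ω => ((Iset v.get ω).encard : ℝ≥0∞).toReal) (limitLaw ν γ) :=
      integrable_toReal_of_lintegral_ne_top hm (by rw [hl]; exact ENNReal.ofReal_ne_top)
    have h0 : 0 ≤ limMoment ρ v := by
      unfold limMoment
      split_ifs
      · apply integral_nonneg
        intro x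
        simp only [Pi.zero_apply]
        split_ifs
        · exact Finset.prod_nonneg fun t _ => h.nonneg _ _
        · exact le_rfl
      · exact le_rfl
    refine ⟨hint.congr (hae.mono fun ω hω => hω.symm), fun _ => ?_, fun h' => absurd hv h'⟩
    rw [integral_congr_ae hae, integral_toReal hm, hl, ENNReal.toReal_ofReal h0]
    exact ae_lt_top' hm (by rw [hl]; exact ENNReal.ofReal_ne_top)
  · have h1 : ∀ ω, cnt v (wordC R ω) = 0 := fun ω => cnt_not_mem v _ (fun x hx => wordC_mem x hx) hv
    refine ⟨?_, fun h' => absurd h' hv, fun _ => ?_⟩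
    · simp only [h1]; simp
    · simp [h1]

end

end Pool.Agent.Lib.MP_264509_pr
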