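import Pool.Agent.Lib.MP_264509_pr.Cycles

open Finset Equiv

namespace Pool.Agent.Lib.MP_264509_pr

/-- the Ewens weight of the permutations that send `a i` to `m i` -/
noncomputable def EW {α : Type*} [Fintype α] [DecidableEq α] (θ : ℝ) {l : ℕ} (a m : Fin l → α) :
    ℝ := ∑ σ : Perm α, if ∀ i, σ (a i) = m i then θ ^ numCycles σ else 0

lemma EW_congr {α β : Type*} [Fintype α] [DecidableEq α] [Fintype β] [DecidableEq β] (θ : ℝ)
    {l : ℕ} (e : α ≃ β) (a m : Fin l → α) :
    EW θ (fun i => e (a i)) (fun i => e (m i)) = EW θ a m := by
  unfold EW
  rw [← Equiv.sum_comp (Equiv.permCongr e)]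
  apply Finset.sum_congr rfl
  intro σ _
  rw [numCycles_congr]
  have : (∀ i, (Equiv.permCongr e σ) (e (a i)) = e (m i)) ↔ ∀ i, σ (a i) = m i := by
    simp [Equiv.permCongr_apply]
  simp only [this]

lemma EW_option {β : Type*} [Fintype β] [DecidableEq β] (θ : ℝ) {l : ℕ}
    (a m : Fin (l + 1) → Option β) (h0 : a 0 = none) (ha : Function.Injective a)
    (hm : Function.Injective m) : ∃ a' m' : Fin l → β, (∀ i, a i.succ = some (a' i)) ∧
      Function.Injective a' ∧ Function.Injective m' ∧
      (∀ i, m i.succ = some (m' i) ∨ m i.succ = none) ∧
      EW θ a m = (if m 0 = none then θ else 1) * EW θ a' m' := by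
  have ha' : ∀ i : Fin l, ∃ y, a i.succ = some y := by
    intro i
    have : a i.succ ≠ none := by
      rw [← h0]
      exact fun h => Fin.succ_ne_zero i (ha h)
    exact Option.ne_none_iff_exists'.1 this
  choose a' ha' using ha'
  have hainj : Function.Injective a' := by
    intro i j hij
    apply Fin.succ_injective
    apply ha
    rw [ha', ha', hij]
  have hsum : EW θ a m = ∑ σ : Perm β, if ∀ i : Fin l,
      (swap none (m 0) * optionCongr σ) (some (a' i)) = m i.succ then
        θ ^ numCycles (swap none (m 0) * optionCongr σ) else 0 := by
    unfold EW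
    rw [← Equiv.sum_comp (Perm.decomposeOption (α := β)).symm, Fintype.sum_prod_type]
    rw [Finset.sum_eq_single (m 0)]
    · apply Finset.sum_congr rfl
      intro σ _
      have h1 : (Perm.decomposeOption.symm (m 0, σ) : Perm (Option β)) =
          swap none (m 0) * optionCongr σ := rfl
      rw [h1]
      have h2 : (∀ i, (swap none (m 0) * optionCongr σ) (a i) = m i) ↔
          ∀ i : Fin l, (swap none (m 0) * optionCongr σ) (some (a' i)) = m i.succ := by
        constructor
        · intro h i
          rw [← ha' i]; exact h _
        · intro h i
          induction i using Fin.cases with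
          | zero => rw [h0]; simp
          | succ i => rw [ha' i]; exact h i
      simp only [h2]
    · intro i _ hi
      apply Finset.sum_eq_zero
      intro σ _
      rw [if_neg]
      intro h
      have h1 := h 0
      have h2 : (Perm.decomposeOption.symm (i, σ) : Perm (Option β)) =
          swap none i * optionCongr σ := rfl
      rw [h2, h0] at h1
      simp only [Perm.mul_apply, Equiv.optionCongr_apply, Option.map_none, swap_apply_left] at h1
      exact hi h1
    · intro h; exact absurd (Finset.mem_univ _) h
  cases hm0 : m 0 with
  | none =>
    have hm' : ∀ i : Fin l, ∃ y, m i.succ = some y := by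
      intro i
      have : m i.succ ≠ none := by
        rw [← hm0]
        exact fun h => Fin.succ_ne_zero i (hm h)
      exact Option.ne_none_iff_exists'.1 this
    choose m' hm' using hm'
    refine ⟨a', m', ha', hainj, ?_, fun i => Or.inl (hm' i), ?_⟩
    · intro i j hij
      apply Fin.succ_injective
      apply hm
      rw [hm', hm', hij]
    · rw [if_pos rfl, hsum, EW, Finset.mul_sum]
      apply Finset.sum_congr rfl
      intro σ _
      rw [hm0, swap_self]
      have h1 : (Equiv.refl (Option β) * optionCongr σ : Perm (Option β)) = optionCongr σ := rfl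
      rw [h1, numCycles_optionCongr]
      have h2 : (∀ i : Fin l, (optionCongr σ) (some (a' i)) = m i.succ) ↔
          ∀ i, σ (a' i) = m' i := by
        simp [hm']
      simp only [h2]
      split_ifs
      · rw [pow_succ]; ring
      · simp
  | some j =>
    have hne : ∀ i : Fin l, m i.succ ≠ some j := by
      intro i
      rw [← hm0]
      exact fun h => Fin.succ_ne_zero i (hm h)
    refine ⟨a', fun i => (m i.succ).getD j, ha', hainj, ?_, ?_, ?_⟩
    · intro s t hst
      apply Fin.succ_injective
      apply hm
      have h1 := hne s
      have h2 := hne t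
      cases hs : m s.succ <;> cases ht : m t.succ <;> simp_all
    · intro i
      cases h : m i.succ with
      | none => right; rfl
      | some y => left; simp [h]
    · rw [if_neg (by simp), one_mul, hsum, EW]
      apply Finset.sum_congr rfl
      intro σ _
      rw [hm0, numCycles_swap]
      have h2 : (∀ i : Fin l, (swap none (some j) * optionCongr σ) (some (a' i)) = m i.succ) ↔
          ∀ i, σ (a' i) = (m i.succ).getD j := by
        apply forall_congr'
        intro i
        have h1 := hne i
        rw [Perm.mul_apply, Equiv.optionCongr_apply, Option.map_some]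
        by_cases h3 : σ (a' i) = j
        · rw [h3, swap_apply_right]
          cases h : m i.succ with
          | none => simp
          | some y =>
            rw [h] at h1
            simp only [Option.getD_some]
            constructor
            · intro h'; simp at h'
            · intro h'; exact absurd (by rw [h']) h1
        · rw [swap_apply_of_ne_of_ne (by simp) (by simpa using h3)]
          cases h : m i.succ with
          | none => simp [h3]
          | some y => simp
      simp only [h2]

/-- the partition function of the Ewens distribution -/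
noncomputable def Zn (θ : ℝ) (n : ℕ) : ℝ := ∏ s ∈ range n, (θ + s)

lemma EW_bound {θ : ℝ} (hθ : 0 < θ) : ∀ (l : ℕ) {α : Type} [Fintype α] [DecidableEq α]
    (a m : Fin l → α), Function.Injective a → Function.Injective m →
      EW θ a m ≤ (max θ 1) ^ l * EW θ (α := Fin (Fintype.card α - l)) (l := 0)
        (fun i => i.elim0) (fun i => i.elim0)
  | 0, α, _, _, a, m, ha, hm => by
    rw [pow_zero, one_mul]
    have e : α ≃ Fin (Fintype.card α - 0) := (Fintype.equivFin α)
    rw [← EW_congr θ e]
    apply le_of_eq
    congr 1 <;> (funext i; exact i.elim0)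
  | l + 1, α, _, _, a, m, ha, hm => by
    set e := (Equiv.optionSubtypeNe (a 0)).symm with he
    rw [← EW_congr θ e]
    have h0 : e (a 0) = none := by rw [he]; simp
    obtain ⟨a', m', h1, h2, h3, h4, h5⟩ := EW_option θ (fun i => e (a i)) (fun i => e (m i)) h0
      (e.injective.comp ha) (e.injective.comp hm)
    rw [h5]
    have ih := EW_bound hθ l a' m' h2 h3
    have hcard : Fintype.card {y // y ≠ a 0} = Fintype.card α - 1 := by
      simp
    rw [hcard] at ih
    have h6 : Fintype.card α - (l + 1) = Fintype.card α - 1 - l := by omega
    rw [h6, pow_succ']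
    have h7 : (if e (m 0) = none then θ else 1) ≤ max θ 1 := by
      split_ifs
      · exact le_max_left _ _
      · exact le_max_right _ _
    have h8 : 0 ≤ EW θ a' m' := Finset.sum_nonneg fun σ _ => by split_ifs <;> positivity
    calc (if e (m 0) = none then θ else 1) * EW θ a' m' ≤ max θ 1 * EW θ a' m' := by gcongr
      _ ≤ max θ 1 * _ := by
        apply mul_le_mul_of_nonneg_left ih
        exact hθ.le.trans (le_max_left _ _)
      _ = _ := by ring

lemma EW_exact {θ : ℝ} (hθ : 0 < θ) : ∀ (l : ℕ) {α : Type} [Fintype α] [DecidableEq α]
    (a m : Fin l → α), Function.Injective a → Function.Injective m →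
      (∀ i j, i ≠ j → a i ≠ m j) →
      EW θ a m = θ ^ (Finset.univ.filter fun i => a i = m i).card *
        EW θ (α := Fin (Fintype.card α - l)) (l := 0) (fun i => i.elim0) (fun i => i.elim0)
  | 0, α, _, _, a, m, ha, hm, hne => by
    have e : α ≃ Fin (Fintype.card α - 0) := (Fintype.equivFin α)
    rw [← EW_congr θ e]
    simp only [Finset.univ_eq_empty, Finset.filter_empty, Finset.card_empty, pow_zero, one_mul]
    congr 1 <;> (funext i; exact i.elim0)
  | l + 1, α, _, _, a, m, ha, hm, hne => by
    set e := (Equiv.optionSubtypeNe (a 0)).symm with he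
    rw [← EW_congr θ e]
    have h0 : e (a 0) = none := by rw [he]; simp
    obtain ⟨a', m', h1, h2, h3, h4, h5⟩ := EW_option θ (fun i => e (a i)) (fun i => e (m i)) h0
      (e.injective.comp ha) (e.injective.comp hm)
    have h4' : ∀ i : Fin l, e (m i.succ) = some (m' i) := by
      intro i
      rcases h4 i with h | h
      · exact h
      · exfalso
        change e (m i.succ) = none at h
        rw [← h0] at h
        exact hne 0 i.succ (Fin.succ_ne_zero i).symm (e.injective h).symm
    rw [h5]
    have hne' : ∀ i j, i ≠ j → a' i ≠ m' j := by
      intro i j hij h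
      apply hne i.succ j.succ (fun h => hij (Fin.succ_injective _ h))
      apply e.injective
      rw [h4' j, h1 i, h]
    have ih := EW_exact hθ l a' m' h2 h3 hne'
    have hcard : Fintype.card {y // y ≠ a 0} = Fintype.card α - 1 := by
      simp
    rw [hcard] at ih
    have h6 : Fintype.card α - (l + 1) = Fintype.card α - 1 - l := by omega
    rw [h6, ih, ← mul_assoc]
    congr 1
    have h7 : (Finset.univ.filter fun i : Fin (l + 1) => a i = m i).card =
        (if e (m 0) = none then 1 else 0) + (Finset.univ.filter fun i : Fin l => a' i = m' i).card := by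
      rw [Finset.card_filter, Finset.card_filter, Fin.sum_univ_succ]
      congr 1
      · have : a 0 = m 0 ↔ e (m 0) = none := by
          rw [← h0]
          constructor
          · intro h; exact congrArg e h.symm
          · intro h; exact (e.injective h).symm
        simp only [this]
      · apply Finset.sum_congr rfl
        intro i _
        have : a i.succ = m i.succ ↔ a' i = m' i := by
          rw [← e.injective.eq_iff, h4' i, h1 i, Option.some.injEq]
        simp only [this]
    rw [h7, pow_add]
    split_ifs <;> simp

lemma EW_zero {θ : ℝ} (n : ℕ) :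
    EW θ (α := Fin n) (l := 0) (fun i => i.elim0) (fun i => i.elim0) = Zn θ n := by
  have hE : ∀ (α : Type) [Fintype α] [DecidableEq α],
      EW θ (α := α) (l := 0) (fun i => i.elim0) (fun i => i.elim0) =
        ∑ σ : Perm α, θ ^ numCycles σ := by
    intro α _ _
    unfold EW
    apply Finset.sum_congr rfl
    intro σ _
    rw [if_pos (fun i => i.elim0)]
  induction n with
  | zero =>
    rw [hE, Zn, Finset.prod_range_zero]
    rw [Fintype.sum_unique]
    have : numCycles (default : Perm (Fin 0)) = 0 := by
      unfold numCycles
      have : IsEmpty (Quotient (Perm.SameCycle.setoid (default : Perm (Fin 0)))) := by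
        constructor
        intro q
        induction q using Quotient.inductionOn with
        | _ x => exact x.elim0
      exact Nat.card_of_isEmpty
    rw [this, pow_zero]
  | succ n ih =>
    have e : Fin (n + 1) ≃ Option (Fin n) := finSuccEquiv n
    rw [hE] at ih
    have h1 : EW θ (α := Fin (n + 1)) (l := 0) (fun i => i.elim0) (fun i => i.elim0) =
        EW θ (α := Option (Fin n)) (l := 0) (fun i => i.elim0) (fun i => i.elim0) := by
      rw [← EW_congr θ e]
      congr 1 <;> (funext i; exact i.elim0)
    rw [h1, hE, ← Equiv.sum_comp (Perm.decomposeOption (α := Fin n)).symm, Fintype.sum_prod_type,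
      Fintype.sum_option]
    have h2 : ∀ σ : Perm (Fin n), (Perm.decomposeOption.symm (none, σ) : Perm (Option (Fin n))) =
        optionCongr σ := by
      intro σ
      change swap none none * optionCongr σ = _
      rw [swap_self]; rfl
    have h3 : ∀ (i : Fin n) (σ : Perm (Fin n)),
        (Perm.decomposeOption.symm (some i, σ) : Perm (Option (Fin n))) =
        swap none (some i) * optionCongr σ := fun _ _ => rfl
    simp only [h2, h3, numCycles_optionCongr, numCycles_swap]
    rw [Finset.sum_const, Finset.card_univ, Fintype.card_fin, ih, nsmul_eq_mul]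
    have h4 : ∑ σ : Perm (Fin n), θ ^ (numCycles σ + 1) = θ * Zn θ n := by
      rw [← ih, Finset.mul_sum]
      exact Finset.sum_congr rfl fun σ _ => by rw [pow_succ]; ring
    rw [h4, Zn, Zn, Finset.prod_range_succ]
    ring

end Pool.Agent.Lib.MP_264509_pr
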