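import Pool.Agent.Lib.MP_264509_pr.Dct

open Finset Filter
open scoped Topology

namespace Pool.Agent.Lib.MP_264509_pr

variable {p : ∀ n, Equiv.Perm (Fin n) → ℝ} {ρ : Lab → ℝ → ℝ}

lemma isSome_exists {o : Option Lab} (h : o.isSome) : ∃ x, o = some x :=
  Option.isSome_iff_exists.1 h

lemma mark_one (H : Model p ρ) {n R : ℕ} {B : ℝ} (hB : 0 ≤ B)
    (hb : ∀ a m : Fin 1 → Fin n, Function.Injective a → Function.Injective m → pat (p n) a m ≤ B)
    (v : Fin n) :
    (∑ π, if (lab R v (π.symm v)).isSome then p n π else 0) ≤ (winS R).card * B := by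
  classical
  calc (∑ π : Equiv.Perm (Fin n), if (lab R v (π.symm v)).isSome then p n π else 0)
      ≤ ∑ π, ∑ s ∈ winS R, (if ∀ i : Fin 1, lab R ((fun _ : Fin 1 => v) i)
          (π.symm ((fun _ : Fin 1 => v) i)) = some ((fun _ : Fin 1 => s) i) then p n π else 0) := by
        apply Finset.sum_le_sum
        intro π _
        split_ifs with h
        · obtain ⟨x, hx⟩ := isSome_exists h
          refine le_trans ?_ (Finset.single_le_sum (fun s _ => ?_) (lab_mem hx))
          · simp [hx]
          · split_ifs <;> simp [H.nonneg n π]
        · exact Finset.sum_nonneg fun s _ => by split_ifs <;> simp [H.nonneg n π]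
    _ = ∑ s ∈ winS R, labProb (p n) R (fun _ : Fin 1 => s) (fun _ => v) := by
        rw [Finset.sum_comm]; rfl
    _ ≤ ∑ s ∈ winS R, B := by
        apply Finset.sum_le_sum
        intro s _
        have hinj : Function.Injective fun _ : Fin 1 => v := fun i j _ => Subsingleton.elim _ _
        exact labProb_le H _ _ hinj hB fun m hm => hb _ m hinj hm
    _ = (winS R).card * B := by rw [Finset.sum_const, nsmul_eq_mul]

lemma mark_two (H : Model p ρ) {n R : ℕ} {B : ℝ} (hB : 0 ≤ B)
    (hb : ∀ a m : Fin 2 → Fin n, Function.Injective a → Function.Injective m → pat (p n) a m ≤ B)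
    (v v' : Fin n) (hvv : v ≠ v') :
    (∑ π, if (lab R v (π.symm v)).isSome ∧ (lab R v' (π.symm v')).isSome then p n π else 0) ≤
      (winS R).card * ((winS R).card * B) := by
  classical
  calc (∑ π : Equiv.Perm (Fin n), if (lab R v (π.symm v)).isSome ∧
        (lab R v' (π.symm v')).isSome then p n π else 0)
      ≤ ∑ π, ∑ s ∈ winS R, ∑ s' ∈ winS R, (if ∀ i : Fin 2, lab R ((![v, v'] : Fin 2 → Fin n) i)
          (π.symm ((![v, v'] : Fin 2 → Fin n) i)) = some ((![s, s'] : Fin 2 → Lab) i)
            then p n π else 0) := by
        apply Finset.sum_le_sum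
        intro π _
        split_ifs with h
        · obtain ⟨x, hx⟩ := isSome_exists h.1
          obtain ⟨x', hx'⟩ := isSome_exists h.2
          refine le_trans ?_ (Finset.single_le_sum (fun s _ => ?_) (lab_mem hx))
          · refine le_trans ?_ (Finset.single_le_sum (fun s _ => ?_) (lab_mem hx'))
            · simp [hx, hx', Fin.forall_fin_two]
            · split_ifs <;> simp [H.nonneg n π]
          · exact Finset.sum_nonneg fun s _ => by split_ifs <;> simp [H.nonneg n π]
        · exact Finset.sum_nonneg fun s _ => Finset.sum_nonneg fun s _ => by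
            split_ifs <;> simp [H.nonneg n π]
    _ = ∑ s ∈ winS R, ∑ s' ∈ winS R, labProb (p n) R ![s, s'] ![v, v'] := by
        rw [Finset.sum_comm]
        apply Finset.sum_congr rfl
        intro s _
        rw [Finset.sum_comm]
        rfl
    _ ≤ ∑ s ∈ winS R, ∑ s' ∈ winS R, B := by
        apply Finset.sum_le_sum
        intro s _
        apply Finset.sum_le_sum
        intro s' _
        have hinj : Function.Injective (![v, v'] : Fin 2 → Fin n) := by
          intro i j hij
          fin_cases i <;> fin_cases j <;> simp_all
        exact labProb_le H _ _ hinj hB fun m hm => hb _ m hinj hm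
    _ = (winS R).card * ((winS R).card * B) := by
        simp only [Finset.sum_const, nsmul_eq_mul]

lemma card_close (n K : ℕ) (v : Fin n) :
    (Finset.univ.filter fun v' : Fin n => Close K v v').card ≤ 2 * K + 1 := by
  classical
  calc (Finset.univ.filter fun v' : Fin n => Close K v v').card
      = ((Finset.univ.filter fun v' : Fin n => Close K v v').image fun v' : Fin n => (v' : ℕ)).card := by
        rw [Finset.card_image_of_injective _ Fin.val_injective]
    _ ≤ (Finset.Icc ((v : ℕ) - K) (v + K)).card := by
        apply Finset.card_le_card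
        intro m hm
        simp only [Finset.mem_image, Finset.mem_filter, Finset.mem_univ, true_and] at hm
        obtain ⟨v', hv', rfl⟩ := hm
        unfold Close at hv'
        rw [Finset.mem_Icc]
        omega
    _ ≤ 2 * K + 1 := by
        rw [Nat.card_Icc]; omega

lemma card_small (n K : ℕ) : (Finset.univ.filter fun v : Fin n => (v : ℕ) < K).card ≤ K := by
  classical
  calc (Finset.univ.filter fun v : Fin n => (v : ℕ) < K).card
      = ((Finset.univ.filter fun v : Fin n => (v : ℕ) < K).image fun v' : Fin n => (v' : ℕ)).card := by
        rw [Finset.card_image_of_injective _ Fin.val_injective]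
    _ ≤ (Finset.range K).card := by
        apply Finset.card_le_card
        intro m hm
        simp only [Finset.mem_image, Finset.mem_filter, Finset.mem_univ, true_and] at hm
        obtain ⟨v', hv', rfl⟩ := hm
        exact Finset.mem_range.2 hv'
    _ = K := Finset.card_range K

theorem tendsto_nonGeneric (H : Model p ρ) (R : ℕ) :
    Tendsto (fun n => ∑ π, Set.indicator {π | ¬ Generic R π} (p n) π) atTop (𝓝 0) := by
  classical
  obtain ⟨C, hC, hb⟩ := H.bound
  set s : ℝ := ((winS R).card : ℝ) with hs
  set K : ℕ := 10 * R with hK
  have hs0 : 0 ≤ s := Nat.cast_nonneg _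
  have hkey : ∀ᶠ n : ℕ in atTop, (∑ π, Set.indicator {π | ¬ Generic R π} (p n) π) ≤
      ((K : ℝ) * (s * (C * 2)) + (2 * K + 1 : ℕ) * (s * (s * (C ^ 2 * 4)))) * (1 / (n : ℝ)) := by
    filter_upwards [hb, eventually_ge_atTop 4] with n hn hn4
    have hn0 : (0 : ℝ) < n := by
      have : 0 < n := by omega
      exact_mod_cast this
    set B1 := C ^ 1 * (((n - 1).factorial : ℝ) / (n.factorial : ℝ)) with hB1
    set B2 := C ^ 2 * (((n - 2).factorial : ℝ) / (n.factorial : ℝ)) with hB2
    have hB1n : 0 ≤ B1 := by positivity
    have hB2n : 0 ≤ B2 := by positivity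
    have hB1' : B1 ≤ C * 2 * (1 / (n : ℝ)) := by
      have := pow_factorial_le (n := n) (l := 1) (by omega)
      rw [hB1, mul_one_div, le_div_iff₀ hn0]
      calc C ^ 1 * (((n - 1).factorial : ℝ) / (n.factorial : ℝ)) * n
          = C * ((n : ℝ) ^ 1 * (((n - 1).factorial : ℝ) / (n.factorial : ℝ))) := by ring
        _ ≤ C * 2 ^ 1 := by gcongr
        _ = C * 2 := by ring
    have hB2' : n * B2 ≤ C ^ 2 * 4 * (1 / (n : ℝ)) := by
      have := pow_factorial_le (n := n) (l := 2) (by omega)
      rw [hB2, mul_one_div, le_div_iff₀ hn0]
      calc n * (C ^ 2 * (((n - 2).factorial : ℝ) / (n.factorial : ℝ))) * n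
          = C ^ 2 * ((n : ℝ) ^ 2 * (((n - 2).factorial : ℝ) / (n.factorial : ℝ))) := by ring
        _ ≤ C ^ 2 * 2 ^ 2 := by gcongr
        _ = C ^ 2 * 4 := by ring
    calc (∑ π, Set.indicator {π | ¬ Generic R π} (p n) π)
        ≤ ∑ π : Equiv.Perm (Fin n), ((∑ v ∈ Finset.univ.filter fun v : Fin n => (v : ℕ) < K,
            if (lab R v (π.symm v)).isSome then p n π else 0) +
            ∑ v : Fin n, ∑ v' ∈ Finset.univ.filter fun v' : Fin n => Close K v v',
              if v ≠ v' then (if (lab R v (π.symm v)).isSome ∧ (lab R v' (π.symm v')).isSome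
                then p n π else 0) else 0) := by
          apply Finset.sum_le_sum
          intro π _
          have hp := H.nonneg n π
          have n1 : ∀ v ∈ Finset.univ.filter fun v : Fin n => (v : ℕ) < K,
              0 ≤ if (lab R v (π.symm v)).isSome then p n π else 0 := by
            intro v _; split_ifs <;> simp [hp]
          have n2 : ∀ v v' : Fin n, 0 ≤ if v ≠ v' then (if (lab R v (π.symm v)).isSome ∧
              (lab R v' (π.symm v')).isSome then p n π else 0) else 0 := by
            intro v v'; split_ifs <;> simp [hp]
          have n3 : ∀ v : Fin n, 0 ≤ ∑ v' ∈ Finset.univ.filter fun v' : Fin n => Close K v v',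
              if v ≠ v' then (if (lab R v (π.symm v)).isSome ∧ (lab R v' (π.symm v')).isSome
                then p n π else 0) else 0 := fun v => Finset.sum_nonneg fun v' _ => n2 v v'
          by_cases hg : Generic R π
          · rw [Set.indicator_of_notMem (by simpa using hg)]
            exact add_nonneg (Finset.sum_nonneg n1) (Finset.sum_nonneg fun v _ => n3 v)
          · rw [Set.indicator_of_mem (by simpa using hg)]
            unfold Generic at hg
            rw [not_and_or] at hg
            rcases hg with hg | hg
            · push Not at hg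
              obtain ⟨v, hv1, hv2⟩ := hg
              refine le_add_of_le_of_nonneg ?_ (Finset.sum_nonneg fun v _ => n3 v)
              refine le_trans ?_ (Finset.single_le_sum n1 (a := v) (by
                simp only [Finset.mem_filter, Finset.mem_univ, true_and]; omega))
              rw [if_pos hv1]
            · push Not at hg
              obtain ⟨v, v', hv1, hv2, hv3, hv4⟩ := hg
              refine le_add_of_nonneg_of_le (Finset.sum_nonneg n1) ?_
              refine le_trans ?_ (Finset.single_le_sum (fun v _ => n3 v) (Finset.mem_univ v))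
              refine le_trans ?_ (Finset.single_le_sum (fun v' _ => n2 v v') (a := v') (by
                simp only [Finset.mem_filter, Finset.mem_univ, true_and]; exact hv4))
              rw [if_pos hv3, if_pos ⟨hv1, hv2⟩]
      _ = (∑ v ∈ Finset.univ.filter fun v : Fin n => (v : ℕ) < K, ∑ π : Equiv.Perm (Fin n),
            if (lab R v (π.symm v)).isSome then p n π else 0) +
            ∑ v : Fin n, ∑ v' ∈ Finset.univ.filter fun v' : Fin n => Close K v v',
              ∑ π : Equiv.Perm (Fin n),
              if v ≠ v' then (if (lab R v (π.symm v)).isSome ∧ (lab R v' (π.symm v')).isSome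
                then p n π else 0) else 0 := by
          rw [Finset.sum_add_distrib, Finset.sum_comm]
          congr 1
          rw [Finset.sum_comm]
          apply Finset.sum_congr rfl
          intro v _
          rw [Finset.sum_comm]
      _ ≤ (∑ v ∈ Finset.univ.filter fun v : Fin n => (v : ℕ) < K, s * B1) +
            ∑ v : Fin n, ∑ v' ∈ Finset.univ.filter fun v' : Fin n => Close K v v',
              s * (s * B2) := by
          apply add_le_add
          · exact Finset.sum_le_sum fun v _ => mark_one H hB1n (hn 1) v
          · apply Finset.sum_le_sum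
            intro v _
            apply Finset.sum_le_sum
            intro v' _
            by_cases hvv : v ≠ v'
            · simp only [if_pos hvv]
              exact mark_two H hB2n (hn 2) v v' hvv
            · simp only [if_neg hvv, Finset.sum_const_zero]
              positivity
      _ ≤ (K : ℝ) * (s * B1) + n * ((2 * K + 1 : ℕ) * (s * (s * B2))) := by
          apply add_le_add
          · rw [Finset.sum_const, nsmul_eq_mul]
            apply mul_le_mul_of_nonneg_right _ (by positivity)
            exact_mod_cast card_small n K
          · calc (∑ v : Fin n, ∑ v' ∈ Finset.univ.filter fun v' : Fin n => Close K v v',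
                  s * (s * B2)) ≤ ∑ v : Fin n, ((2 * K + 1 : ℕ) : ℝ) * (s * (s * B2)) := by
                  apply Finset.sum_le_sum
                  intro v _
                  rw [Finset.sum_const, nsmul_eq_mul]
                  apply mul_le_mul_of_nonneg_right _ (by positivity)
                  exact_mod_cast card_close n K v
              _ = n * ((2 * K + 1 : ℕ) * (s * (s * B2))) := by
                  rw [Finset.sum_const, Finset.card_univ, Fintype.card_fin, nsmul_eq_mul]
      _ = (K : ℝ) * (s * B1) + (2 * K + 1 : ℕ) * (s * (s * (n * B2))) := by ring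
      _ ≤ (K : ℝ) * (s * (C * 2 * (1 / (n : ℝ)))) +
            (2 * K + 1 : ℕ) * (s * (s * (C ^ 2 * 4 * (1 / (n : ℝ))))) := by gcongr
      _ = _ := by ring
  refine tendsto_of_tendsto_of_tendsto_of_le_of_le' tendsto_const_nhds (h := fun n : ℕ =>
    ((K : ℝ) * (s * (C * 2)) + (2 * K + 1 : ℕ) * (s * (s * (C ^ 2 * 4)))) * (1 / (n : ℝ))) ?_ ?_ hkey
  · have := (tendsto_one_div_atTop_nhds_zero_nat (𝕜 := ℝ)).const_mul
      ((K : ℝ) * (s * (C * 2)) + (2 * K + 1 : ℕ) * (s * (s * (C ^ 2 * 4))))
    simpa using this
  · exact Eventually.of_forall fun n => Finset.sum_nonneg fun π _ =>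
      Set.indicator_nonneg (fun π _ => H.nonneg n π) π

end Pool.Agent.Lib.MP_264509_pr
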