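import Pool.Agent.Lib.MP_264509_pr.Dens
import Pool.Agent.Lib.MP_264509_pr.Gen

open Finset MeasureTheory ProbabilityTheory Filter
open scoped ENNReal NNReal Topology

namespace Pool.Agent.Lib.MP_264509_pr

instance : Countable Lab := by
  let f : Lab → ℤ ⊕ ℕ := fun x => match x with
    | .disp k => Sum.inl k
    | .stack j => Sum.inr j
  have : Function.Injective f := by
    intro a b h
    cases a <;> cases b <;> simp_all [f]
  exact this.countable

section finite

variable {X : Type*} {C : X → X → Prop}

/-- the vertices reached by at most `k` steps -/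
def reach (C : X → X → Prop) (x0 : X) : ℕ → Set X
  | 0 => {x0}
  | k + 1 => reach C x0 k ∪ ((⋃ x ∈ reach C x0 k, {x' | C x x'}) ∪
      ⋃ x ∈ reach C x0 k, {x' | C x' x})

lemma near_finite (hU : ∀ a b x, C a x → C b x → a = b) (hc : ∀ x, {x' | C x x'}.Finite)
    (x0 : X) (k : ℕ) : {x | Near C x0 k x}.Finite := by
  have h1 : ∀ k, (reach C x0 k).Finite := by
    intro k
    induction k with
    | zero => exact Set.finite_singleton _
    | succ k ih =>
      refine ih.union ((ih.biUnion fun x _ => hc x).union (ih.biUnion fun x _ => ?_))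
      apply Set.Subsingleton.finite
      intro a ha b hb
      exact hU _ _ _ ha hb
  apply (h1 k).subset
  intro x hx
  refine near_induct (P := fun k x => x ∈ reach C x0 k) (Set.mem_singleton _) ?_ ?_ ?_ hx
  · intro k x hx; exact Or.inl hx
  · intro k x x' hx hc; exact Or.inr (Or.inl (Set.mem_biUnion hx hc))
  · intro k x x' hx hc; exact Or.inr (Or.inr (Set.mem_biUnion hx hc))

lemma CW_finite (N : ℕ) (s : Fin N → Lab) : {t | CW N s t}.Finite := by
  apply (Set.finite_range fun i => upd i s).subset
  rintro t ⟨i, -, rfl⟩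
  exact ⟨i, rfl⟩

end finite

section

variable {ρ : Lab → ℝ → ℝ} {ν : ℤ → Measure ℝ} {γ : Measure ℝ}

theorem ae_ball_finite (h : GoodInt ν γ) :
    ∀ᵐ ω ∂(limitLaw ν γ), ∀ r, (ball configGraph (rootConfig ω) r).Finite := by
  filter_upwards [ae_limit_injective h] with ω hω r
  have hwf : WF (rootConfig ω) := wf_root (N := ω.1) hω
  obtain ⟨emb, h1, h2, h3⟩ := wordC_emb (R := 2 * r + 2) hwf
  obtain ⟨p, hp, H⟩ := conf_cover hwf (K := 2 * r) le_rfl _ emb h1 h2 h3
  have h4 : (ball configGraph (rootConfig ω) r) = {x | Near CC (rootConfig ω) r x} := by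
    ext x
    exact mem_ball_iff CC_unique
  rw [h4]
  have h5 := near_finite (C := CW (wordC (2 * r + 2) ω).length) CW_unique (CW_finite _)
    (p (rootConfig ω)) r
  refine Set.Finite.of_finite_image (h5.subset ?_) (f := p) ?_
  · rintro _ ⟨x, hx, rfl⟩
    exact H.near_map le_rfl hx
  · intro x hx x' hx' hpp
    exact H.inj le_rfl hx hx' hpp

end

variable {p : ∀ n, Equiv.Perm (Fin n) → ℝ} {ρ : Lab → ℝ → ℝ} {ν : ℤ → Measure ℝ} {γ : Measure ℝ}

lemma limMoment_le (H : Model p ρ) {R : ℕ} {C : ℝ}
    (hC : ∀ᶠ n in atTop, ∀ v : List Lab, 0 ≤ ∑ π, p n π * (cnt v (word R π) : ℝ) ∧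
      ∑ π, p n π * (cnt v (word R π) : ℝ) ≤ C ^ v.length / (v.length.factorial : ℝ))
    (v : List Lab) (hv : ∀ x ∈ v, x ∈ winS R) :
    limMoment ρ v ≤ C ^ v.length / (v.length.factorial : ℝ) :=
  le_of_tendsto (tendsto_moment H R v hv) (hC.mono fun _ hn => (hn v).2)

lemma null_words (H : Model p ρ) (D : Dens ρ ν γ) (R : ℕ) : IsProbabilityMeasure (limitLaw ν γ) ∧
    ∃ C : ℝ, 0 < C ∧ (∀ᶠ n in atTop, ∀ v : List Lab,
      0 ≤ ∑ π, p n π * (cnt v (word R π) : ℝ) ∧
      ∑ π, p n π * (cnt v (word R π) : ℝ) ≤ C ^ v.length / (v.length.factorial : ℝ)) ∧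
    (∀ w, NullMeasurableSet {ω | wordC R ω = w} (limitLaw ν γ) ∧
      HasSum (fun s : ℕ => (-1 : ℝ) ^ s * sumW (winS R) (w.length + s)
        (fun v => (cnt w v : ℝ) * ∫ ω, (cnt v (wordC R ω) : ℝ) ∂(limitLaw ν γ)))
        ((limitLaw ν γ).real {ω | wordC R ω = w})) ∧
    ∀ t : Set (List Lab), NullMeasurableSet {ω | wordC R ω ∈ t} (limitLaw ν γ) := by
  classical
  have hG := D.goodInt
  have hprob : IsProbabilityMeasure (limitLaw ν γ) := by
    have := hG.marg_prob
    change IsProbabilityMeasure ((Measure.infinitePi _).prod (Measure.infinitePi (marg ν γ)))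
    infer_instance
  obtain ⟨C, hC, hb⟩ := moment_bound H R
  have hCv : ∀ v, ∫ ω, (cnt v (wordC R ω) : ℝ) ∂(limitLaw ν γ) ≤
      C ^ v.length / (v.length.factorial : ℝ) := by
    intro v
    by_cases hv : ∀ x ∈ v, x ∈ winS R
    · rw [(D.moment R v).2.1 hv]
      exact limMoment_le H hb v hv
    · rw [(D.moment R v).2.2 hv]
      positivity
  have hmeas := hasSum_meas (limitLaw ν γ) (winS R) (wordC R)
    (Eventually.of_forall fun ω x hx => wordC_mem x hx) (fun v => (D.moment R v).1) C hCv
  refine ⟨hprob, C, hC, hb, hmeas, ?_⟩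
  intro t
  have : {ω | wordC R ω ∈ t} = ⋃ w ∈ t, {ω | wordC R ω = w} := by
    ext ω; simp
  rw [this]
  exact NullMeasurableSet.biUnion t.to_countable fun w _ => (hmeas w).1

theorem tendsto_words (H : Model p ρ) (D : Dens ρ ν γ) (R : ℕ) (s : Set (List Lab)) :
    Tendsto (fun n => ∑ π, Set.indicator {π | word R π ∈ s} (p n) π) atTop
      (𝓝 ((limitLaw ν γ).real {ω | wordC R ω ∈ s})) := by
  classical
  obtain ⟨hprob, C, hC, hb, hmeas, hnull⟩ := null_words H D R
  have hadd' : ∀ s t : Set (List Lab), Disjoint s t →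
      (limitLaw ν γ).real {ω | wordC R ω ∈ s ∪ t} =
      (limitLaw ν γ).real {ω | wordC R ω ∈ s} + (limitLaw ν γ).real {ω | wordC R ω ∈ t} := by
    intro s t hst
    have h1 : {ω | wordC R ω ∈ s ∪ t} = {ω | wordC R ω ∈ s} ∪ {ω | wordC R ω ∈ t} := rfl
    have h2 : Disjoint {ω | wordC R ω ∈ s} {ω | wordC R ω ∈ t} := by
      rw [Set.disjoint_left] at hst ⊢
      exact fun ω h h' => hst h h'
    rw [h1, measureReal_union₀ (hnull t) h2.aedisjoint]
  apply tendsto_sets (fun n s => ∑ π, Set.indicator {π | word R π ∈ s} (p n) π)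
    (fun s => (limitLaw ν γ).real {ω | wordC R ω ∈ s})
  · intro n s t hst
    rw [← Finset.sum_add_distrib]
    apply Finset.sum_congr rfl
    intro π _
    have h1 : {π : Equiv.Perm (Fin n) | word R π ∈ s ∪ t} =
        {π | word R π ∈ s} ∪ {π | word R π ∈ t} := rfl
    have h2 : Disjoint {π : Equiv.Perm (Fin n) | word R π ∈ s} {π | word R π ∈ t} := by
      rw [Set.disjoint_left] at hst ⊢
      exact fun ω h h' => hst h h'
    rw [h1, Set.indicator_union_of_disjoint h2]
  · intro n s
    exact Finset.sum_nonneg fun π _ => Set.indicator_nonneg (fun π _ => H.nonneg n π) π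
  · intro n
    simp only [Set.mem_univ, Set.ofPred_true, Set.indicator_univ]
    exact H.sum_one n
  · exact hadd'
  · intro s; exact measureReal_nonneg
  · simp
  · intro ε hε
    have h1 : ∑' w : List Lab, limitLaw ν γ {ω | wordC R ω = w} = 1 := by
      rw [← measure_iUnion₀]
      · have : (⋃ w : List Lab, {ω | wordC R ω = w}) = Set.univ := by
          ext ω; simp
        rw [this, measure_univ]
      · intro w w' hww
        apply Disjoint.aedisjoint
        rw [Set.disjoint_left]
        intro ω h h'
        exact hww (h.symm.trans h')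
      · exact fun w => (hmeas w).1
    have h2 : HasSum (fun w : List Lab => (limitLaw ν γ).real {ω | wordC R ω = w}) 1 := by
      have h3 : ∀ w : List Lab, limitLaw ν γ {ω | wordC R ω = w} ≠ ∞ := fun w =>
        measure_ne_top _ _
      have h4 : Summable fun w : List Lab => (limitLaw ν γ).real {ω | wordC R ω = w} :=
        ENNReal.summable_toReal (by rw [h1]; exact ENNReal.one_ne_top)
      have h5 : ∑' w : List Lab, (limitLaw ν γ).real {ω | wordC R ω = w} = 1 := by
        rw [show (fun w : List Lab => (limitLaw ν γ).real {ω | wordC R ω = w}) =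
          fun w => (limitLaw ν γ {ω | wordC R ω = w}).toReal from rfl,
          ← ENNReal.tsum_toReal_eq h3, h1, ENNReal.toReal_one]
      rw [← h5]
      exact h4.hasSum
    have h6 : ∀ᶠ F : Finset (List Lab) in atTop,
        1 - ε < ∑ w ∈ F, (limitLaw ν γ).real {ω | wordC R ω = w} :=
      h2.eventually (lt_mem_nhds (by linarith))
    obtain ⟨F, hF⟩ := h6.exists
    refine ⟨F, lt_of_lt_of_eq hF ?_⟩
    clear hF
    induction F using Finset.induction_on with
    | empty => simp
    | insert b F hb ih =>
      have hd : Disjoint ({b} : Set (List Lab)) (F : Set (List Lab)) := by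
        rw [Set.disjoint_singleton_left]; simpa using hb
      rw [Finset.sum_insert hb, ih, Finset.coe_insert, Set.insert_eq, hadd' _ _ hd]
      rfl
  · intro w
    have h1 := tendsto_word (winS R) C (fun n v => ∑ π, p n π * (cnt v (word R π) : ℝ))
      (fun v => ∫ ω, (cnt v (wordC R ω) : ℝ) ∂(limitLaw ν γ)) (fun v hv => by
        rw [(D.moment R v).2.1 hv]
        exact tendsto_moment H R v hv) hb w
      (fun n => ∑ π, p n π * if word R π = w then 1 else 0)
      ((limitLaw ν γ).real {ω | wordC R ω = w})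
      (fun n => hasSum_fin (winS R) (p n) (word R) (fun π x hx => word_mem π x hx) w)
      (hmeas w).2
    refine h1.congr fun n => ?_
    apply Finset.sum_congr rfl
    intro π _
    by_cases h : word R π = w
    · rw [if_pos h, mul_one, Set.indicator_of_mem (by exact h)]
    · rw [if_neg h, mul_zero, Set.indicator_of_notMem (by exact h)]

theorem local_limit (H : Model p ρ) (D : Dens ρ ν γ) (r : ℕ) {W : Type*} (G : SimpleGraph W)
    (g : W) : Tendsto (fun n => ∑ π, Set.indicator {π | BallIso (forest n) π r G g} (p n) π) atTop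
      (𝓝 ((limitLaw ν γ).real {ω | BallIso configGraph (rootConfig ω) r G g})) := by
  classical
  set K := 2 * (r + 1) with hK
  set R := K + 2 with hR
  set B : Set (List Lab) := {w | BallIso (SimpleGraph.fromRel (CW w.length)) w.get r G g} with hB
  have h1 := tendsto_words H D R B
  have h2 : (limitLaw ν γ).real {ω | BallIso configGraph (rootConfig ω) r G g} =
      (limitLaw ν γ).real {ω | wordC R ω ∈ B} := by
    apply measureReal_congr
    filter_upwards [ae_limit_injective D.goodInt] with ω hω
    have hwf : WF (rootConfig ω) := wf_root (N := ω.1) hω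
    obtain ⟨emb, e1, e2, e3⟩ := wordC_emb (R := R) hwf
    exact propext (conf_ballIso hwf (K := K) le_rfl _ emb e1 e2 e3 le_rfl G g)
  rw [h2]
  have h3 : Tendsto (fun n => (∑ π, Set.indicator {π | BallIso (forest n) π r G g} (p n) π) -
      ∑ π, Set.indicator {π | word R π ∈ B} (p n) π) atTop (𝓝 0) := by
    apply squeeze_zero_norm _ (tendsto_nonGeneric H R)
    intro n
    rw [← Finset.sum_sub_distrib]
    refine (norm_sum_le _ _).trans (Finset.sum_le_sum fun π _ => ?_)
    have hp := H.nonneg n π
    by_cases hg : Generic R π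
    · have h4 := perm_ballIso (K := K) (R := R) le_rfl hg (r := r) le_rfl G g
      by_cases h5 : BallIso (forest n) π r G g
      · rw [Set.indicator_of_mem (by exact h5), Set.indicator_of_mem (by exact h4.1 h5), sub_self,
          norm_zero]
        exact Set.indicator_nonneg (fun π _ => H.nonneg n π) π
      · rw [Set.indicator_of_notMem (by exact h5),
          Set.indicator_of_notMem (by exact fun h => h5 (h4.2 h)), sub_self, norm_zero]
        exact Set.indicator_nonneg (fun π _ => H.nonneg n π) π
    · rw [Set.indicator_of_mem (s := {π : Equiv.Perm (Fin n) | ¬ Generic R π}) (by exact hg)]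
      by_cases h5 : BallIso (forest n) π r G g
      · rw [Set.indicator_of_mem (by exact h5)]
        by_cases h6 : word R π ∈ B
        · rw [Set.indicator_of_mem (by exact h6), sub_self, norm_zero]; exact hp
        · rw [Set.indicator_of_notMem (by exact h6), sub_zero, Real.norm_of_nonneg hp]
      · rw [Set.indicator_of_notMem (by exact h5)]
        by_cases h6 : word R π ∈ B
        · rw [Set.indicator_of_mem (by exact h6), zero_sub, norm_neg, Real.norm_of_nonneg hp]
        · rw [Set.indicator_of_notMem (by exact h6), sub_self, norm_zero]; exact hp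
  have h4 := h3.add h1
  rw [zero_add] at h4
  refine h4.congr fun n => ?_
  ring

theorem limit_event (H : Model p ρ) (D : Dens ρ ν γ) (r : ℕ) {W : Type*} (G : SimpleGraph W)
    (g : W) :
    NullMeasurableSet {ω | BallIso configGraph (rootConfig ω) r G g} (limitLaw ν γ) := by
  set K := 2 * (r + 1) with hK
  set R := K + 2 with hR
  set B : Set (List Lab) := {w | BallIso (SimpleGraph.fromRel (CW w.length)) w.get r G g} with hB
  obtain ⟨-, -, -, -, -, hnull⟩ := null_words H D R
  refine (hnull B).congr ?_
  filter_upwards [ae_limit_injective D.goodInt] with ω hω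
  have hwf : WF (rootConfig ω) := wf_root (N := ω.1) hω
  obtain ⟨emb, e1, e2, e3⟩ := wordC_emb (R := R) hwf
  exact propext (conf_ballIso hwf (K := K) le_rfl _ emb e1 e2 e3 le_rfl G g).symm

end Pool.Agent.Lib.MP_264509_pr
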