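import Pool.Agent.Lib.MP_264509_pr.EwensComb
import Pool.Agent.Lib.MP_264509_pr.Main

open Finset Equiv Filter MeasureTheory
open scoped Topology ENNReal

namespace Pool.Agent.Lib.MP_264509_pr

lemma sum_symm {n : ℕ} (F : Perm (Fin n) → ℝ) : ∑ π : Perm (Fin n), F π.symm = ∑ π, F π :=
  Equiv.sum_comp (Equiv.inv (Perm (Fin n))) F

/-- far apart positions are eventually far apart by more than any constant -/
lemma eventually_apart {n : ℕ → ℕ} (hn : Tendsto n atTop atTop) {a b : ℕ → ℕ} {x y : ℝ}
    (ha : Tendsto (fun k => (a k : ℝ) / (n k : ℝ)) atTop (𝓝 x))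
    (hb : Tendsto (fun k => (b k : ℝ) / (n k : ℝ)) atTop (𝓝 y)) (hxy : x < y) (D : ℕ) :
    ∀ᶠ k in atTop, a k + D < b k := by
  have h1 := hb.sub ha
  have h2 : ∀ᶠ k in atTop, (y - x) / 2 < (b k : ℝ) / (n k : ℝ) - (a k : ℝ) / (n k : ℝ) :=
    h1.eventually (lt_mem_nhds (by linarith))
  have hn' : Tendsto (fun k => (n k : ℝ)) atTop atTop := tendsto_natCast_atTop_atTop.comp hn
  have h3 : ∀ᶠ k in atTop, (D : ℝ) < (n k : ℝ) * ((y - x) / 2) :=
    (hn'.atTop_mul_const (by linarith : (0 : ℝ) < (y - x) / 2)).eventually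
      (eventually_gt_atTop _)
  filter_upwards [h2, h3, hn'.eventually (eventually_gt_atTop 0)] with k h2 h3 h4
  rw [← sub_div, lt_div_iff₀ h4] at h2
  have h5 : (a k : ℝ) + D < (b k : ℝ) := by linarith
  exact_mod_cast h5

lemma tendsto_zero_div {n : ℕ → ℕ} (hn : Tendsto n atTop atTop) (s : ℕ) :
    Tendsto (fun k => (s : ℝ) / (n k : ℝ)) atTop (𝓝 0) :=
  tendsto_const_nhds.div_atTop (tendsto_natCast_atTop_atTop.comp hn)

lemma Zn_pos {θ : ℝ} (hθ : 0 < θ) (n : ℕ) : 0 < Zn θ n :=
  Finset.prod_pos fun s _ => by positivity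

lemma Zn_succ (θ : ℝ) (n : ℕ) : Zn θ (n + 1) = Zn θ n * (θ + n) := by
  rw [Zn, Finset.prod_range_succ]; rfl

lemma Zn_ratio {θ : ℝ} (hθ : 0 < θ) (n : ℕ) : ∀ l ≤ n, (min θ 1) ^ l * (n.factorial : ℝ) *
    Zn θ (n - l) ≤ ((n - l).factorial : ℝ) * Zn θ n
  | 0, _ => by simp
  | l + 1, hl => by
    have ih := Zn_ratio hθ n l (by omega)
    obtain ⟨k, hk⟩ : ∃ k, n = k + (l + 1) := ⟨n - (l + 1), by omega⟩
    have e1 : n - l = k + 1 := by omega
    have e2 : n - (l + 1) = k := by omega
    rw [e1, Zn_succ, Nat.factorial_succ] at ih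
    rw [e2]
    have hc0 : 0 < min θ 1 := lt_min hθ one_pos
    have hc : min θ 1 * ((k : ℝ) + 1) ≤ θ + k := by
      have h1 : min θ 1 ≤ θ := min_le_left _ _
      have h2 : min θ 1 ≤ 1 := min_le_right _ _
      have h3 : (0 : ℝ) ≤ k := Nat.cast_nonneg _
      nlinarith
    have hZ := Zn_pos hθ k
    have hk0 : (0 : ℝ) < (k : ℝ) + 1 := by positivity
    push_cast at ih
    have h4 : ((k : ℝ) + 1) * ((min θ 1) ^ (l + 1) * (n.factorial : ℝ) * Zn θ k) ≤
        ((k : ℝ) + 1) * ((k.factorial : ℝ) * Zn θ n) := by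
      calc ((k : ℝ) + 1) * ((min θ 1) ^ (l + 1) * (n.factorial : ℝ) * Zn θ k)
          = (min θ 1) ^ l * (n.factorial : ℝ) * (Zn θ k * (min θ 1 * ((k : ℝ) + 1))) := by ring
        _ ≤ (min θ 1) ^ l * (n.factorial : ℝ) * (Zn θ k * (θ + k)) := by gcongr
        _ ≤ ((k : ℝ) + 1) * (k.factorial : ℝ) * Zn θ n := ih
        _ = _ := by ring
    exact le_of_mul_le_mul_left h4 hk0

lemma Zn_lim {θ : ℝ} (hθ : 0 < θ) {n : ℕ → ℕ} (hn : Tendsto n atTop atTop) (l : ℕ) :
    Tendsto (fun k => (n k : ℝ) ^ l * (Zn θ (n k - l) / Zn θ (n k))) atTop (𝓝 1) := by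
  have hn' : Tendsto (fun k => (n k : ℝ)) atTop atTop := tendsto_natCast_atTop_atTop.comp hn
  induction l with
  | zero =>
    refine tendsto_const_nhds.congr fun k => ?_
    rw [pow_zero, one_mul, Nat.sub_zero, div_self (Zn_pos hθ _).ne']
  | succ l ih =>
    have h1 : Tendsto (fun k => (n k : ℝ) / ((n k : ℝ) + (θ - (l + 1)))) atTop (𝓝 1) := by
      have h2 : Tendsto (fun k => ((n k : ℝ) + (θ - (l + 1))) / (n k : ℝ)) atTop (𝓝 1) := by
        have h3 : Tendsto (fun k => 1 + (θ - (l + 1)) / (n k : ℝ)) atTop (𝓝 (1 + 0)) :=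
          tendsto_const_nhds.add (tendsto_const_nhds.div_atTop hn')
        rw [add_zero] at h3
        refine h3.congr' ?_
        filter_upwards [hn'.eventually (eventually_gt_atTop 0)] with k hk
        rw [add_div, div_self hk.ne']
      have := h2.inv₀ one_ne_zero
      rw [inv_one] at this
      refine this.congr fun k => ?_
      rw [inv_div]
    have h4 := ih.mul h1
    rw [mul_one] at h4
    refine h4.congr' ?_
    filter_upwards [hn.eventually (eventually_ge_atTop (l + 1))] with k hk
    obtain ⟨j, hj⟩ : ∃ j, n k = j + (l + 1) := ⟨n k - (l + 1), by omega⟩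
    have e1 : n k - l = j + 1 := by omega
    have e2 : n k - (l + 1) = j := by omega
    have e3 : (n k : ℝ) + (θ - (l + 1)) = θ + j := by rw [hj]; push_cast; ring
    rw [e1, e2, e3, Zn_succ]
    have hZ := (Zn_pos hθ (n k)).ne'
    have hj0 : θ + (j : ℝ) ≠ 0 := by positivity
    field_simp
    ring

/-- the densities of the marks in the Ewens case -/
noncomputable def rhoE (θ : ℝ) : Lab → ℝ → ℝ := fun x _ => if x = .disp 0 then θ else 1

/-- the Ewens probabilities -/
noncomputable def pE (θ : ℝ) (n : ℕ) (π : Perm (Fin n)) : ℝ :=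
  ewensWeight θ n π / ∑ π', ewensWeight θ n π'

lemma sum_ewens (θ : ℝ) (n : ℕ) : ∑ π', ewensWeight θ n π' = Zn θ n := by
  rw [← EW_zero, EW]
  apply Finset.sum_congr rfl
  intro σ _
  rw [if_pos (fun i => i.elim0)]
  rfl

lemma pat_ewens (θ : ℝ) {n l : ℕ} (a m : Fin l → Fin n) :
    pat (pE θ n) a m = EW θ a m / Zn θ n := by
  unfold pat pE
  rw [sum_ewens, EW, Finset.sum_div]
  rw [← sum_symm]
  apply Finset.sum_congr rfl
  intro σ _
  rw [Equiv.symm_symm]
  split_ifs
  · rw [ewensWeight, numCycles_symm]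
  · simp

theorem ewens_model {θ : ℝ} (hθ : 0 < θ) : Model (pE θ) (rhoE θ) where
  nonneg n π := by
    unfold pE
    rw [sum_ewens]
    have := Zn_pos hθ n
    unfold ewensWeight
    positivity
  sum_one n := by
    unfold pE
    rw [← Finset.sum_div, sum_ewens, div_self (Zn_pos hθ n).ne']
  bound := by
    refine ⟨max θ 1 / min θ 1, by positivity, Eventually.of_forall fun n l a m ha hm => ?_⟩
    have hl : l ≤ n := by
      have := Fintype.card_le_of_injective a ha
      simpa using this
    have hc0 : 0 < min θ 1 := lt_min hθ one_pos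
    have hM0 : 0 < max θ 1 := lt_max_of_lt_left hθ
    rw [pat_ewens]
    have h1 := EW_bound hθ l a m ha hm
    rw [Fintype.card_fin, EW_zero] at h1
    have h2 := Zn_ratio hθ n l hl
    have hZ := Zn_pos hθ n
    have hf : (0 : ℝ) < (n.factorial : ℝ) := by positivity
    have h3 : Zn θ (n - l) / Zn θ n ≤ (((n - l).factorial : ℝ) / (n.factorial : ℝ)) /
        (min θ 1) ^ l := by
      rw [div_div, div_le_div_iff₀ hZ (by positivity)]
      calc Zn θ (n - l) * ((n.factorial : ℝ) * min θ 1 ^ l) =
          (min θ 1) ^ l * (n.factorial : ℝ) * Zn θ (n - l) := by ring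
        _ ≤ _ := h2
    calc EW θ a m / Zn θ n ≤ (max θ 1) ^ l * Zn θ (n - l) / Zn θ n := by gcongr
      _ = (max θ 1) ^ l * (Zn θ (n - l) / Zn θ n) := by ring
      _ ≤ (max θ 1) ^ l * ((((n - l).factorial : ℝ) / (n.factorial : ℝ)) / (min θ 1) ^ l) := by
          gcongr
      _ = _ := by rw [div_pow]; ring
  lim := by
    intro l v x hv hinj hx n hn a m ha hm hlim hrel
    have hprod : ∏ i, rhoE θ (v i) (x i) =
        θ ^ (Finset.univ.filter fun i => v i = .disp 0).card := by
      unfold rhoE
      rw [Finset.prod_ite, Finset.prod_const, Finset.prod_const_one, mul_one]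
    rw [hprod]
    have hstack : ∀ i (s : ℕ), ∀ᶠ k in atTop, s < (a k i : ℕ) := by
      intro i s
      have := eventually_apart hn (a := fun _ => s) (tendsto_zero_div hn s) (hlim i) (hx i).1 0
      filter_upwards [this] with k hk using by simpa using hk
    have hapart : ∀ i j, i ≠ j → ∀ D : ℕ, ∀ᶠ k in atTop, (a k i : ℕ) + D < a k j ∨
        (a k j : ℕ) + D < a k i := by
      intro i j hij D
      rcases lt_or_gt_of_ne (fun h => hij (hinj h) : x i ≠ x j) with h | h
      · filter_upwards [eventually_apart hn (hlim i) (hlim j) h D] with k hk using Or.inl hk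
      · filter_upwards [eventually_apart hn (hlim j) (hlim i) h D] with k hk using Or.inr hk
    have hne : ∀ i j, i ≠ j → ∀ᶠ k in atTop, a k i ≠ m k j := by
      intro i j hij
      cases hvj : v j with
      | stack s =>
        filter_upwards [hstack i s] with k hk h
        have h1 := hrel k j
        rw [hvj] at h1
        simp only [PosRel] at h1
        rw [h] at hk
        omega
      | disp d =>
        filter_upwards [hapart i j hij d.natAbs] with k hk h
        have h1 := hrel k j
        rw [hvj] at h1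
        simp only [PosRel] at h1
        rw [← h] at h1
        omega
    have heq : ∀ i, ∀ᶠ k in atTop, (a k i = m k i ↔ v i = .disp 0) := by
      intro i
      cases hvi : v i with
      | stack s =>
        filter_upwards [hstack i s] with k hk
        have h1 := hrel k i
        rw [hvi] at h1
        simp only [PosRel] at h1
        constructor
        · intro h; rw [h] at hk; omega
        · intro h; simp at h
      | disp d =>
        refine Eventually.of_forall fun k => ?_
        have h1 := hrel k i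
        rw [hvi] at h1
        simp only [PosRel] at h1
        simp only [Lab.disp.injEq]
        constructor
        · intro h; rw [h] at h1; omega
        · intro h; apply Fin.ext; omega
    have hne' : ∀ᶠ k in atTop, ∀ i j, i ≠ j → a k i ≠ m k j := by
      rw [eventually_all]; intro i
      rw [eventually_all]; intro j
      by_cases hij : i = j
      · exact Eventually.of_forall fun k h => absurd hij h
      · filter_upwards [hne i j hij] with k hk _ using hk
    have heq' := eventually_all.2 heq
    have h1 := (Zn_lim hθ hn l).const_mul (θ ^ (Finset.univ.filter fun i => v i = .disp 0).card)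
    rw [mul_one] at h1
    refine h1.congr' ?_
    filter_upwards [hne', heq'] with k h2 h3
    rw [pat_ewens, EW_exact hθ l (a k) (m k) (ha k) (hm k) h2, Fintype.card_fin, EW_zero]
    simp only [h3]
    ring

theorem ewens_dens {θ : ℝ} (hθ : 0 < θ) :
    Dens (rhoE θ) (fun k => dens fun _ => if k = 0 then θ else 1) (dens fun _ => 1) where
  meas l := measurable_const
  nonneg l x := by unfold rhoE; split_ifs <;> positivity
  int l := integrable_const _
  disp k := by
    congr 1
    funext x
    simp [rhoE]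
  stack j := by
    congr 1
  pos k := by
    rw [dens_eq, withDensity_apply _ MeasurableSet.univ, Measure.restrict_univ, lintegral_const,
      measure_univ, mul_one]
    split_ifs <;> simp [hθ]
  prob := by
    constructor
    rw [dens_eq, withDensity_apply _ MeasurableSet.univ, Measure.restrict_univ, lintegral_const,
      measure_univ, mul_one]
    simp

end Pool.Agent.Lib.MP_264509_pr
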