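import Pool.Agent.Lib.MP_264509_pr.Defs

namespace Pool.Agent.Lib.MP_264509_pr

section anc

variable {X : Type*} (C : X → X → Prop)

/-- `z` is reached from `x` by `k` parent steps -/
def Anc : ℕ → X → X → Prop
  | 0, x, z => x = z
  | k + 1, x, z => ∃ y, C y x ∧ Anc k y z

/-- `x` is reached from `x0` by at most `k` steps: first up and then down -/
def Near (x0 : X) (k : ℕ) (x : X) : Prop :=
  ∃ a b z, a + b ≤ k ∧ Anc C a x0 z ∧ Anc C b x z

variable {C}

lemma anc_snoc : ∀ {a : ℕ} {x z w : X}, Anc C a x z → C w z → Anc C (a + 1) x w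
  | 0, x, z, w, h, hw => ⟨w, by cases h; exact hw, rfl⟩
  | a + 1, x, z, w, ⟨y, hy, h⟩, hw => ⟨y, hy, anc_snoc h hw⟩

lemma anc_trans : ∀ {a b : ℕ} {x z w : X}, Anc C a x z → Anc C b z w → Anc C (b + a) x w
  | 0, b, x, z, w, h, hw => by cases h; exact hw
  | a + 1, b, x, z, w, ⟨y, hy, h⟩, hw => ⟨y, hy, anc_trans h hw⟩

lemma near_self (x0 : X) : Near C x0 0 x0 := ⟨0, 0, x0, le_rfl, rfl, rfl⟩

lemma near_mono {x0 x : X} {k l : ℕ} (hkl : k ≤ l) (h : Near C x0 k x) : Near C x0 l x := by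
  obtain ⟨a, b, z, hab, ha, hb⟩ := h
  exact ⟨a, b, z, hab.trans hkl, ha, hb⟩

lemma near_child {x0 x x' : X} {k : ℕ} (h : Near C x0 k x) (hc : C x x') :
    Near C x0 (k + 1) x' := by
  obtain ⟨a, b, z, hab, ha, hb⟩ := h
  exact ⟨a, b + 1, z, by omega, ha, x, hc, hb⟩

lemma near_parent (hU : ∀ a b x, C a x → C b x → a = b) {x0 x x' : X} {k : ℕ}
    (h : Near C x0 k x) (hc : C x' x) : Near C x0 (k + 1) x' := by
  obtain ⟨a, b, z, hab, ha, hb⟩ := h
  cases b with
  | zero =>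
    cases hb
    exact ⟨a + 1, 0, x', by omega, anc_snoc ha hc, rfl⟩
  | succ b =>
    obtain ⟨y, hy, hb⟩ := hb
    obtain rfl := hU _ _ _ hc hy
    exact ⟨a, b, z, by omega, ha, hb⟩

lemma near_anc (hU : ∀ a b x, C a x → C b x → a = b) {x0 : X} :
    ∀ {b k : ℕ} {x z : X}, Near C x0 k x → Anc C b x z → Near C x0 (k + b) z
  | 0, k, x, z, h, hb => by cases hb; exact h
  | b + 1, k, x, z, h, ⟨y, hy, hb⟩ => by
    have := near_anc hU (near_parent hU h hy) hb
    convert! this using 1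
    omega

lemma near_desc {x0 : X} : ∀ {b k : ℕ} {x z : X}, Near C x0 k z → Anc C b x z →
    Near C x0 (k + b) x
  | 0, k, x, z, h, hb => by cases hb; exact h
  | b + 1, k, x, z, h, ⟨y, hy, hb⟩ => near_child (near_desc h hb) hy

lemma walk_of_anc : ∀ {a : ℕ} {x z : X}, Anc C a x z →
    ∃ w : (SimpleGraph.fromRel C).Walk x z, w.length ≤ a
  | 0, x, z, h => by cases h; exact ⟨.nil, le_rfl⟩
  | a + 1, x, z, ⟨y, hy, h⟩ => by
    obtain ⟨w, hw⟩ := walk_of_anc h
    by_cases hxy : x = y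
    · subst hxy
      exact ⟨w, by omega⟩
    · exact ⟨.cons (SimpleGraph.fromRel_adj _ _ _ |>.2 ⟨hxy, Or.inr hy⟩) w, by
        simpa using hw⟩

lemma near_walk (hU : ∀ a b x, C a x → C b x → a = b) {x0 : X} :
    ∀ {k : ℕ} {u v : X} (w : (SimpleGraph.fromRel C).Walk u v), Near C x0 k u →
      Near C x0 (k + w.length) v
  | k, u, _, .nil, h => h
  | k, u, v, .cons (v := y) hadj w, h => by
    obtain ⟨hne, hc | hc⟩ := (SimpleGraph.fromRel_adj _ _ _).1 hadj
    · have := near_walk hU w (near_child h hc)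
      convert! this using 1
      simp only [SimpleGraph.Walk.length_cons]
      omega
    · have := near_walk hU w (near_parent hU h hc)
      convert! this using 1
      simp only [SimpleGraph.Walk.length_cons]
      omega

lemma mem_ball_iff (hU : ∀ a b x, C a x → C b x → a = b) {x0 x : X} {r : ℕ} :
    x ∈ ball (SimpleGraph.fromRel C) x0 r ↔ Near C x0 r x := by
  constructor
  · rintro ⟨w, hw⟩
    have := near_walk hU w (near_self x0)
    exact near_mono (by omega) this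
  · rintro ⟨a, b, z, hab, ha, hb⟩
    obtain ⟨w, hw⟩ := walk_of_anc ha
    obtain ⟨w', hw'⟩ := walk_of_anc hb
    exact ⟨w.append w'.reverse, by
      rw [SimpleGraph.Walk.length_append, SimpleGraph.Walk.length_reverse]; omega⟩

lemma anc_cancel (hU : ∀ a b x, C a x → C b x → a = b) :
    ∀ {a d : ℕ} {x z z' : X}, Anc C a x z → Anc C (d + a) x z' → Anc C d z z'
  | 0, d, x, z, z', h, h' => by cases h; exact h'
  | a + 1, d, x, z, z', ⟨y, hy, h⟩, ⟨y', hy', h'⟩ => by
    obtain rfl := hU _ _ _ hy hy'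
    exact anc_cancel hU h h'

end anc

/-- a map that is a local cover of rooted graphs near the root -/
structure LocalCover {X Y : Type*} (CX : X → X → Prop) (CY : Y → Y → Prop) (p : X → Y)
    (x0 : X) (K : ℕ) : Prop where
  uX : ∀ a b x, CX a x → CX b x → a = b
  uY : ∀ a b y, CY a y → CY b y → a = b
  pot : ∃ h : Y → ℕ, ∀ y y', CY y y' → h y' = h y + 1
  map : ∀ x x', Near CX x0 K x → CX x x' → CY (p x) (p x')
  lift_child : ∀ x y, Near CX x0 K x → CY (p x) y → ∃ x', CX x x' ∧ p x' = y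
  lift_parent : ∀ x y, Near CX x0 K x → CY y (p x) → ∃ x', CX x' x ∧ p x' = y
  inj_child : ∀ x x₁ x₂, Near CX x0 K x → CX x x₁ → CX x x₂ → p x₁ = p x₂ → x₁ = x₂

namespace LocalCover

variable {X Y : Type*} {CX : X → X → Prop} {CY : Y → Y → Prop} {p : X → Y} {x0 : X} {K : ℕ}

lemma map_anc (H : LocalCover CX CY p x0 K) :
    ∀ {b k : ℕ} {x z : X}, Near CX x0 k x → k + b ≤ K → Anc CX b x z → Anc CY b (p x) (p z)
  | 0, k, x, z, h, hk, hb => by cases hb; rfl
  | b + 1, k, x, z, h, hk, ⟨y, hy, hb⟩ => by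
    have hy' := near_parent H.uX h hy
    exact ⟨p y, H.map _ _ (near_mono (by omega) hy') hy, map_anc H hy' (by omega) hb⟩

lemma inj_anc (H : LocalCover CX CY p x0 K) :
    ∀ {b k : ℕ} {x x' z : X}, Near CX x0 k x → Near CX x0 k x' → k + b ≤ K →
      Anc CX b x z → Anc CX b x' z → p x = p x' → x = x'
  | 0, k, x, x', z, h, h', hk, hb, hb', hp => by cases hb; cases hb'; rfl
  | b + 1, k, x, x', z, h, h', hk, ⟨y, hy, hb⟩, ⟨y', hy', hb'⟩, hp => by
    have h1 := near_parent H.uX h hy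
    have h1' := near_parent H.uX h' hy'
    have e1 := H.map _ _ (near_mono (by omega) h1) hy
    have e2 := H.map _ _ (near_mono (by omega) h1') hy'
    rw [hp] at e1
    have e3 := H.uY _ _ _ e1 e2
    have := inj_anc H h1 h1' (by omega) hb hb' e3
    subst this
    exact H.inj_child _ _ _ (near_mono (by omega) h1) hy hy' hp

lemma pot_anc {h : Y → ℕ} (hh : ∀ y y', CY y y' → h y' = h y + 1) :
    ∀ {b : ℕ} {y z : Y}, Anc CY b y z → h y = h z + b
  | 0, y, z, hb => by cases hb; rfl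
  | b + 1, y, z, ⟨w, hw, hb⟩ => by
    rw [hh _ _ hw, pot_anc hh hb, add_assoc]

lemma inj (H : LocalCover CX CY p x0 K) {r : ℕ} (hr : 2 * r ≤ K) {x x' : X}
    (hx : Near CX x0 r x) (hx' : Near CX x0 r x') (hp : p x = p x') : x = x' := by
  obtain ⟨h, hh⟩ := H.pot
  have hx2 := hx
  have hx2' := hx'
  obtain ⟨a, b, z, hab, ha, hb⟩ := hx
  obtain ⟨a', b', z', hab', ha', hb'⟩ := hx'
  have e1 := pot_anc hh (H.map_anc (near_self x0) (by omega) ha)
  have e2 := pot_anc hh (H.map_anc (near_self x0) (by omega) ha')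
  have e3 := pot_anc hh (H.map_anc hx2 (by omega) hb)
  have e4 := pot_anc hh (H.map_anc hx2' (by omega) hb')
  rw [hp] at e3
  rcases le_total a a' with hle | hle
  · have h5 : Anc CX (a' - a) z z' := by
      apply anc_cancel H.uX ha
      rwa [Nat.sub_add_cancel hle]
    have h6 := anc_trans hb h5
    have h7 : a' - a + b = b' := by omega
    rw [h7] at h6
    exact H.inj_anc hx2 hx2' (by omega) h6 hb' hp
  · have h5 : Anc CX (a - a') z' z := by
      apply anc_cancel H.uX ha'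
      rwa [Nat.sub_add_cancel hle]
    have h6 := anc_trans hb' h5
    have h7 : a - a' + b' = b := by omega
    rw [h7] at h6
    exact H.inj_anc hx2 hx2' (by omega) hb h6 hp

lemma lift_up (H : LocalCover CX CY p x0 K) :
    ∀ {a k : ℕ} {x : X} {w : Y}, Near CX x0 k x → k + a ≤ K → Anc CY a (p x) w →
      ∃ z, Anc CX a x z ∧ p z = w
  | 0, k, x, w, h, hk, hb => ⟨x, rfl, hb⟩
  | a + 1, k, x, w, h, hk, ⟨y, hy, hb⟩ => by
    obtain ⟨x', hx', rfl⟩ := H.lift_parent _ _ (near_mono (by omega) h) hy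
    obtain ⟨z, hz, hw⟩ := lift_up H (near_parent H.uX h hx') (by omega) hb
    exact ⟨z, ⟨x', hx', hz⟩, hw⟩

lemma lift_down (H : LocalCover CX CY p x0 K) :
    ∀ {b k : ℕ} {z : X} {y : Y}, Near CX x0 k z → k + b ≤ K → Anc CY b y (p z) →
      ∃ x, Anc CX b x z ∧ p x = y
  | 0, k, z, y, h, hk, hb => ⟨z, rfl, hb.symm⟩
  | b + 1, k, z, y, h, hk, ⟨y', hy', hb⟩ => by
    obtain ⟨x', hx', rfl⟩ := lift_down H h (by omega) hb
    obtain ⟨x, hx, hpx⟩ := H.lift_child _ _ (near_mono (by omega) (near_desc h hx')) hy'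
    exact ⟨x, ⟨x', hx, hx'⟩, hpx⟩

lemma near_map (H : LocalCover CX CY p x0 K) {r : ℕ} (hr : 2 * r ≤ K) {x : X}
    (hx : Near CX x0 r x) : Near CY (p x0) r (p x) := by
  have hx2 := hx
  obtain ⟨a, b, z, hab, ha, hb⟩ := hx
  exact ⟨a, b, p z, hab, H.map_anc (near_self x0) (by omega) ha, H.map_anc hx2 (by omega) hb⟩

lemma surj (H : LocalCover CX CY p x0 K) {r : ℕ} (hr : 2 * r ≤ K) {y : Y}
    (hy : Near CY (p x0) r y) : ∃ x, Near CX x0 r x ∧ p x = y := by
  obtain ⟨a, b, w, hab, ha, hb⟩ := hy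
  obtain ⟨z, hz, rfl⟩ := H.lift_up (near_self x0) (by omega) ha
  have hz' := near_anc H.uX (near_self x0) hz
  obtain ⟨x, hx, hpx⟩ := H.lift_down hz' (by omega) hb
  exact ⟨x, ⟨a, b, z, hab, hz, hx⟩, hpx⟩

lemma adj_iff (H : LocalCover CX CY p x0 K) {r : ℕ} (hr : 2 * (r + 1) ≤ K) {x x' : X}
    (hx : Near CX x0 r x) (hx' : Near CX x0 r x') :
    (SimpleGraph.fromRel CY).Adj (p x) (p x') ↔ (SimpleGraph.fromRel CX).Adj x x' := by
  obtain ⟨h, hh⟩ := H.pot
  have key : ∀ x x', Near CX x0 r x → Near CX x0 r x' → (CY (p x) (p x') ↔ CX x x') := by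
    intro x x' hx hx'
    constructor
    · intro hc
      obtain ⟨x'', hc', hp⟩ := H.lift_child _ _ (near_mono (by omega) hx) hc
      have := H.inj hr (near_child hx hc') (near_mono (by omega) hx') hp
      rwa [← this]
    · intro hc
      exact H.map _ _ (near_mono (by omega) hx) hc
  rw [SimpleGraph.fromRel_adj, SimpleGraph.fromRel_adj, key x x' hx hx', key x' x hx' hx]
  constructor
  · rintro ⟨hne, hc⟩
    exact ⟨fun he => hne (by rw [he]), hc⟩
  · rintro ⟨hne, hc⟩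
    refine ⟨fun he => hne (H.inj (by omega) hx hx' he), hc⟩

theorem ballIso_iff (H : LocalCover CX CY p x0 K) {r : ℕ} (hr : 2 * (r + 1) ≤ K) {W : Type*}
    (G : SimpleGraph W) (g : W) :
    BallIso (SimpleGraph.fromRel CX) x0 r G g ↔ BallIso (SimpleGraph.fromRel CY) (p x0) r G g := by
  have hmX : ∀ x, x ∈ ball (SimpleGraph.fromRel CX) x0 r ↔ Near CX x0 r x := fun x =>
    mem_ball_iff H.uX
  have hmY : ∀ x, x ∈ ball (SimpleGraph.fromRel CY) (p x0) r ↔ Near CY (p x0) r x := fun x =>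
    mem_ball_iff H.uY
  let f : ball (SimpleGraph.fromRel CX) x0 r → ball (SimpleGraph.fromRel CY) (p x0) r :=
    fun x => ⟨p x.1, (hmY _).2 (H.near_map (by omega) ((hmX _).1 x.2))⟩
  have hf : Function.Bijective f := by
    constructor
    · intro x x' hxx
      have : p x.1 = p x'.1 := congrArg Subtype.val hxx
      exact Subtype.ext (H.inj (by omega) ((hmX _).1 x.2) ((hmX _).1 x'.2) this)
    · intro y
      obtain ⟨x, hx, hpx⟩ := H.surj (by omega) ((hmY _).1 y.2)
      exact ⟨⟨x, (hmX _).2 hx⟩, Subtype.ext hpx⟩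
  let e : (SimpleGraph.fromRel CX).induce (ball (SimpleGraph.fromRel CX) x0 r) ≃g
      (SimpleGraph.fromRel CY).induce (ball (SimpleGraph.fromRel CY) (p x0) r) :=
    { toEquiv := Equiv.ofBijective f hf
      map_rel_iff' := by
        intro x x'
        exact H.adj_iff hr ((hmX _).1 x.2) ((hmX _).1 x'.2) }
  constructor
  · rintro ⟨e', ho, he⟩
    refine ⟨e.symm.trans e', (hmY _).2 (near_mono (Nat.zero_le _) (near_self _)), ?_⟩
    have h1 : e ⟨x0, ho⟩ = ⟨p x0, (hmY _).2 (near_mono (Nat.zero_le _) (near_self _))⟩ := rfl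
    rw [← h1]
    change e' (e.symm (e ⟨x0, ho⟩)) = g
    rw [RelIso.symm_apply_apply, he]
  · rintro ⟨e', ho, he⟩
    refine ⟨e.trans e', (hmX _).2 (near_mono (Nat.zero_le _) (near_self _)), ?_⟩
    exact he

end LocalCover

end Pool.Agent.Lib.MP_264509_pr
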