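import Pool.Agent.Lib.MP_264509_pr.PoisMom
import Pool.Agent.Lib.MP_264509_pr.ConfApp

open Finset MeasureTheory ProbabilityTheory Filter
open scoped ENNReal NNReal Topology

namespace Pool.Agent.Lib.MP_264509_pr

/-- the index of the `i`-th point with the label `l` -/
def idx : Lab → ℕ → (ℤ × ℕ) ⊕ ℕ
  | .disp k, i => Sum.inl (k, i)
  | .stack j, _ => Sum.inr j

lemma hasLab_root {N : ℤ → ℕ} {X : (ℤ × ℕ) ⊕ ℕ → ℝ} {x : ℝ} {l : Lab} :
    HasLab (rootConfig (N, X)) x l ↔ ∃ i < numLab N l, X (idx l i) = x := by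
  cases l with
  | disp k => rfl
  | stack j =>
    change X (Sum.inr j) = x ↔ ∃ i < 1, X (Sum.inr j) = x
    constructor
    · intro h; exact ⟨0, by norm_num, h⟩
    · rintro ⟨i, -, h⟩; exact h

lemma idx_inj {N : ℤ → ℕ} {l l' : Lab} {i i' : ℕ} (hi : i < numLab N l) (hi' : i' < numLab N l')
    (h : idx l i = idx l' i') : l = l' ∧ i = i' := by
  cases l with
  | disp k =>
    cases l' with
    | disp k' => simp only [idx, Sum.inl.injEq, Prod.mk.injEq] at h; exact ⟨by rw [h.1], h.2⟩
    | stack j' => simp [idx] at h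
  | stack j =>
    cases l' with
    | disp k' => simp [idx] at h
    | stack j' =>
      simp only [idx, Sum.inr.injEq] at h
      simp only [numLab] at hi hi'
      exact ⟨by rw [h], by omega⟩

lemma wf_root {N : ℤ → ℕ} {X : (ℤ × ℕ) ⊕ ℕ → ℝ} (hX : Function.Injective X) :
    WF (rootConfig (N, X)) := by
  intro x l l' h h'
  rw [hasLab_root] at h h'
  obtain ⟨i, hi, hix⟩ := h
  obtain ⟨i', hi', hix'⟩ := h'
  exact (idx_inj hi hi' (hX (hix.trans hix'.symm))).1

/-- the marks of a sample -/
noncomputable def marksF (R : ℕ) (ω : Sample) : Finset ℝ :=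
  (winS R).biUnion fun l => (range (numLab ω.1 l)).image fun i => ω.2 (idx l i)

lemma mem_marksF {R : ℕ} {ω : Sample} {x : ℝ} :
    x ∈ marksF R ω ↔ ∃ l ∈ winS R, HasLab (rootConfig ω) x l := by
  obtain ⟨N, X⟩ := ω
  simp only [marksF, Finset.mem_biUnion, Finset.mem_image, Finset.mem_range, hasLab_root]

/-- the label of a mark -/
noncomputable def labOf (R : ℕ) (ω : Sample) (x : ℝ) : Option Lab :=
  open Classical in
  if h : ∃ l, l ∈ winS R ∧ HasLab (rootConfig ω) x l then some h.choose else none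

lemma labOf_some {R : ℕ} {ω : Sample} {x : ℝ} {l : Lab} (h : labOf R ω x = some l) :
    l ∈ winS R ∧ HasLab (rootConfig ω) x l := by
  classical
  unfold labOf at h
  split_ifs at h with h1
  have := h1.choose_spec
  rw [Option.some.inj h] at this
  exact this

lemma labOf_eq {R : ℕ} {ω : Sample} (hω : WF (rootConfig ω)) {x : ℝ} {l : Lab} (h1 : l ∈ winS R)
    (h2 : HasLab (rootConfig ω) x l) : labOf R ω x = some l := by
  classical
  have h : ∃ l, l ∈ winS R ∧ HasLab (rootConfig ω) x l := ⟨l, h1, h2⟩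
  unfold labOf
  rw [dif_pos h, hω _ _ _ h.choose_spec.2 h2]

/-- the word of marks of a sample -/
noncomputable def wordC (R : ℕ) (ω : Sample) : List Lab :=
  ((marksF R ω).sort).filterMap (labOf R ω)

lemma wordC_mem {R : ℕ} {ω : Sample} : ∀ x ∈ wordC R ω, x ∈ winS R := by
  intro x hx
  simp only [wordC, List.mem_filterMap] at hx
  obtain ⟨a, -, h⟩ := hx
  exact (labOf_some h).1

lemma wordC_emb {R : ℕ} {ω : Sample} (hω : WF (rootConfig ω)) :
    ∃ emb : Fin (wordC R ω).length → ℝ, StrictMono emb ∧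
      (∀ i, HasLab (rootConfig ω) (emb i) ((wordC R ω).get i)) ∧
      ∀ z l, HasLab (rootConfig ω) z l → InWin R l → ∃ i, emb i = z := by
  obtain ⟨emb, h1, h2, -, h4⟩ := filterMap_emb (labOf R ω) (marksF R ω).sort
    (Finset.sortedLT_sort _).pairwise
  refine ⟨emb, h1, fun i => (labOf_some (h2 i)).2, fun z l hz hl => ?_⟩
  have hl' : l ∈ winS R := by
    rw [mem_winS]
    cases l with
    | disp d => exact Or.inl ⟨d, hl.2, hl.1, rfl⟩
    | stack j => exact Or.inr ⟨j, hl, rfl⟩
  apply h4 z
  · rw [Finset.mem_sort, mem_marksF]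
    exact ⟨l, hl', hz⟩
  · rw [labOf_eq hω hl' hz]; rfl

/-- the index tuples that spell `v` in increasing order -/
def Iset {l : ℕ} (v : Fin l → Lab) (ω : Sample) : Set (Fin l → ℕ) :=
  {i | (∀ t, i t < numLab ω.1 (v t)) ∧ StrictMono fun t => ω.2 (idx (v t) (i t))}

lemma cnt_wordC {R : ℕ} {N : ℤ → ℕ} {X : (ℤ × ℕ) ⊕ ℕ → ℝ} (hX : Function.Injective X)
    (v : List Lab) (hv : ∀ x ∈ v, x ∈ winS R) :
    ((cnt v (wordC R (N, X)) : ℕ) : ℕ∞) = (Iset v.get (N, X)).encard := by
  have hwf : WF (rootConfig (N, X)) := wf_root hX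
  have hvg : ∀ t, v.get t ∈ winS R := fun t => hv _ (List.get_mem _ _)
  rw [wordC, cnt_filterMap _ _ _ (Finset.sortedLT_sort _).pairwise]
  have himg : Tup (labOf R (N, X)) (marksF R (N, X)).sort v =
      (fun (i : Fin v.length → ℕ) (t : Fin v.length) => X (idx (v.get t) (i t))) ''
        Iset v.get (N, X) := by
    ext a
    simp only [Tup, Set.mem_ofPred_eq, Set.mem_image, Iset]
    constructor
    · rintro ⟨h1, h2, h3⟩
      have h4 : ∀ t, ∃ i < numLab N (v.get t), X (idx (v.get t) i) = a t := fun t =>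
        hasLab_root.1 (labOf_some (h3 t)).2
      choose i hi1 hi2 using h4
      refine ⟨i, ⟨hi1, ?_⟩, funext hi2⟩
      simp only [hi2]
      exact h1
    · rintro ⟨i, ⟨h1, h2⟩, rfl⟩
      refine ⟨h2, fun t => ?_, fun t => ?_⟩
      · rw [Finset.mem_sort, mem_marksF]
        exact ⟨v.get t, hvg t, hasLab_root.2 ⟨i t, h1 t, rfl⟩⟩
      · exact labOf_eq hwf (hvg t) (hasLab_root.2 ⟨i t, h1 t, rfl⟩)
  rw [himg]
  apply Set.InjOn.encard_image
  intro i hi i' hi' hii
  funext t
  exact (idx_inj (hi.1 t) (hi'.1 t) (hX (congrFun hii t))).2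

/-- the marginal laws of the points -/
noncomputable def marg (ν : ℤ → Measure ℝ) (γ : Measure ℝ) : (ℤ × ℕ) ⊕ ℕ → Measure ℝ :=
  Sum.elim (fun p => (ν p.1 Set.univ)⁻¹ • ν p.1) fun _ => γ

/-- the conditions on the intensities -/
structure GoodInt (ν : ℤ → Measure ℝ) (γ : Measure ℝ) : Prop where
  fin : ∀ k, IsFiniteMeasure (ν k)
  pos : ∀ k, ν k Set.univ ≠ 0
  atom : ∀ k, NullSingletonClass (ν k)
  prob : IsProbabilityMeasure γ
  atomg : NullSingletonClass γ

section

variable {ν : ℤ → Measure ℝ} {γ : Measure ℝ}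

lemma GoodInt.marg_prob (h : GoodInt ν γ) : ∀ i, IsProbabilityMeasure (marg ν γ i) := by
  rintro (⟨k, i⟩ | j)
  · have := h.fin k
    constructor
    change ((ν k Set.univ)⁻¹ • ν k) Set.univ = 1
    rw [Measure.smul_apply, smul_eq_mul, ENNReal.inv_mul_cancel (h.pos k) (measure_ne_top _ _)]
  · exact h.prob

lemma GoodInt.marg_atom (h : GoodInt ν γ) : ∀ i, NullSingletonClass (marg ν γ i) := by
  rintro (⟨k, i⟩ | j)
  · have := h.atom k
    constructor
    intro x
    change ((ν k Set.univ)⁻¹ • ν k) {x} = 0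
    rw [Measure.smul_apply, measure_singleton, smul_zero]
  · exact h.atomg

lemma ae_injective {ι : Type*} [Countable ι] (P : ι → Measure ℝ)
    [∀ i, IsProbabilityMeasure (P i)] (ha : ∀ i, NullSingletonClass (P i)) :
    ∀ᵐ X ∂(Measure.infinitePi P), Function.Injective X := by
  have h3 : ∀ i j, i ≠ j → ∀ᵐ x ∂(Measure.infinitePi P), x i ≠ x j := by
    intro i j hij
    have h4 := Measure.infinitePi_map_eval_prod (P := P) hij
    have hatom := ha j
    have h5 : ∀ᵐ z ∂((P i).prod (P j)), z.1 ≠ z.2 := by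
      rw [ae_iff]
      have hs : MeasurableSet {z : ℝ × ℝ | ¬ z.1 ≠ z.2} := by
        simp only [ne_eq, not_not]
        exact measurableSet_eq_fun measurable_fst measurable_snd
      rw [Measure.measure_prod_null hs]
      refine Eventually.of_forall fun x => ?_
      change (P j) (Prod.mk x ⁻¹' {z : ℝ × ℝ | ¬ z.1 ≠ z.2}) = 0
      have : Prod.mk x ⁻¹' {z : ℝ × ℝ | ¬ z.1 ≠ z.2} = {x} := by
        ext y
        simp [eq_comm]
      rw [this]
      exact measure_singleton x
    rw [← h4] at h5
    exact ae_of_ae_map (p := fun z : ℝ × ℝ => z.1 ≠ z.2)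
      (f := fun x : ι → ℝ => (x i, x j)) (by fun_prop) h5
  have h3' : ∀ᵐ x ∂(Measure.infinitePi P), ∀ i j, i ≠ j → x i ≠ x j := by
    rw [ae_all_iff]; intro i
    rw [ae_all_iff]; intro j
    by_cases hij : i = j
    · exact Eventually.of_forall fun n h => absurd hij h
    · filter_upwards [h3 i j hij] with n hn _ using hn
  filter_upwards [h3'] with x hx i j hij
  by_contra hne
  exact hx i j hne hij

lemma ae_limit_injective (h : GoodInt ν γ) :
    ∀ᵐ ω ∂(limitLaw ν γ), Function.Injective ω.2 := by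
  have := h.marg_prob
  have h1 := ae_injective (marg ν γ) h.marg_atom
  exact Measure.quasiMeasurePreserving_snd.ae h1

/-- the law of a point with the label `l` -/
noncomputable def nrm (ν : ℤ → Measure ℝ) (γ : Measure ℝ) : Lab → Measure ℝ
  | .disp k => (ν k Set.univ)⁻¹ • ν k
  | .stack _ => γ

lemma marg_idx (l : Lab) (i : ℕ) : marg ν γ (idx l i) = nrm ν γ l := by cases l <;> rfl

lemma GoodInt.nrm_prob (h : GoodInt ν γ) (l : Lab) : IsProbabilityMeasure (nrm ν γ l) := by
  rw [← marg_idx l 0]; exact h.marg_prob _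

lemma measurableSet_strictMono (l : ℕ) : MeasurableSet {x : Fin l → ℝ | StrictMono x} := by
  have : {x : Fin l → ℝ | StrictMono x} = ⋂ i, ⋂ j, {x | i < j → x i < x j} := by
    ext x
    simp only [Set.mem_ofPred_eq, Set.mem_iInter]
    exact ⟨fun h i j hij => h hij, fun h i j hij => h i j hij⟩
  rw [this]
  refine MeasurableSet.iInter fun i => MeasurableSet.iInter fun j => ?_
  by_cases hij : i < j
  · simp only [hij, forall_const]
    exact measurableSet_lt (measurable_pi_apply i) (measurable_pi_apply j)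
  · simp only [hij, false_imp_iff]
    exact MeasurableSet.univ

lemma prob_increasing (h : GoodInt ν γ) {l : ℕ} (v : Fin l → Lab) (i : Fin l → ℕ)
    {N : ℤ → ℕ} (hN : ∀ t, i t < numLab N (v t)) :
    Measure.infinitePi (marg ν γ) {X | StrictMono fun t => X (idx (v t) (i t))} =
      (open Classical in if Function.Injective (fun t => (v t, i t)) then
        Measure.pi (fun t => nrm ν γ (v t)) {x | StrictMono x} else 0) := by
  classical
  have := h.marg_prob
  have := h.nrm_prob
  split_ifs with hi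
  · have hinj : Function.Injective fun t => idx (v t) (i t) := by
      intro s t hst
      have := idx_inj (hN s) (hN t) hst
      apply hi
      simp only [this.1, this.2]
    have h1 := Measure.map_infinitePi_infinitePi_of_inj (P := marg ν γ) hinj
    have h2 : Measure.infinitePi (fun t => marg ν γ (idx (v t) (i t))) =
        Measure.pi fun t => nrm ν γ (v t) := by
      simp only [marg_idx]
      rw [Measure.infinitePi_eq_pi]
    rw [h2] at h1
    rw [← h1, Measure.map_apply (by fun_prop) (measurableSet_strictMono l)]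
    rfl
  · have : {X : (ℤ × ℕ) ⊕ ℕ → ℝ | StrictMono fun t => X (idx (v t) (i t))} = ∅ := by
      ext X
      simp only [Set.mem_ofPred_eq, Set.mem_empty_iff_false, iff_false]
      intro hX
      apply hi
      intro s t hst
      simp only [Prod.mk.injEq] at hst
      apply hX.injective
      simp only [hst.1, hst.2]
    rw [this, measure_empty]

lemma measurableSet_num {l : ℕ} (v : Fin l → Lab) (i : Fin l → ℕ) :
    MeasurableSet {N : ℤ → ℕ | ∀ t, i t < numLab N (v t)} := by
  have : {N : ℤ → ℕ | ∀ t, i t < numLab N (v t)} = ⋂ t, {N | i t < numLab N (v t)} := by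
    ext N; simp
  rw [this]
  refine MeasurableSet.iInter fun t => ?_
  cases v t with
  | disp k => exact measurableSet_lt measurable_const (measurable_pi_apply k)
  | stack j => exact MeasurableSet.const (i t < 1)

lemma measurableSet_inc {l : ℕ} (v : Fin l → Lab) (i : Fin l → ℕ) :
    MeasurableSet {X : (ℤ × ℕ) ⊕ ℕ → ℝ | StrictMono fun t => X (idx (v t) (i t))} := by
  have h : Measurable fun (X : (ℤ × ℕ) ⊕ ℕ → ℝ) t => X (idx (v t) (i t)) := by fun_prop
  exact h (measurableSet_strictMono l)

/-- the number of increasing index tuples is measurable, with explicit expectation -/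
theorem lintegral_Iset (h : GoodInt ν γ) {R l : ℕ} (v : Fin l → Lab) (hv : ∀ t, v t ∈ winS R) :
    AEMeasurable (fun ω => ((Iset v ω).encard : ℝ≥0∞)) (limitLaw ν γ) ∧
    ∫⁻ ω, ((Iset v ω).encard : ℝ≥0∞) ∂(limitLaw ν γ) =
      (open Classical in if StackDistinct v then
        (∏ t, massLab (fun k => (ν k Set.univ).toNNReal) (v t)) *
          Measure.pi (fun t => nrm ν γ (v t)) {x | StrictMono x} else 0) := by
  classical
  have := h.marg_prob
  set PN := Measure.infinitePi fun k : ℤ => poissonMeasure (ν k Set.univ).toNNReal with hPN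
  set PX := Measure.infinitePi (marg ν γ) with hPX
  have hP : limitLaw ν γ = PN.prod PX := rfl
  set s := Measure.pi (fun t => nrm ν γ (v t)) {x | StrictMono x} with hs
  have h1 : ∀ ω : Sample, ((Iset v ω).encard : ℝ≥0∞) =
      ∑' i : Fin l → ℕ, (({N : ℤ → ℕ | ∀ t, i t < numLab N (v t)} ×ˢ
        {X : (ℤ × ℕ) ⊕ ℕ → ℝ | StrictMono fun t => X (idx (v t) (i t))}).indicator
          (fun _ => (1 : ℝ≥0∞)) ω) := by
    intro ω
    rw [← ENNReal.tsum_set_one, _root_.tsum_subtype (Iset v ω) fun _ => (1 : ℝ≥0∞)]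
    apply tsum_congr
    intro i
    by_cases hi : i ∈ Iset v ω
    · rw [Set.indicator_of_mem hi, Set.indicator_of_mem]
      exact hi
    · rw [Set.indicator_of_notMem hi, Set.indicator_of_notMem]
      exact hi
  have hms : ∀ i : Fin l → ℕ, MeasurableSet ({N : ℤ → ℕ | ∀ t, i t < numLab N (v t)} ×ˢ
        {X : (ℤ × ℕ) ⊕ ℕ → ℝ | StrictMono fun t => X (idx (v t) (i t))}) := fun i =>
    (measurableSet_num v i).prod (measurableSet_inc v i)
  have hmeas : ∀ i : Fin l → ℕ, Measurable fun ω : Sample =>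
      (({N : ℤ → ℕ | ∀ t, i t < numLab N (v t)} ×ˢ
        {X : (ℤ × ℕ) ⊕ ℕ → ℝ | StrictMono fun t => X (idx (v t) (i t))}).indicator
          (fun _ => (1 : ℝ≥0∞)) ω) := fun i => measurable_const.indicator (hms i)
  constructor
  · simp only [h1]
    exact (Measurable.tsum hmeas).aemeasurable
  simp only [h1]
  rw [lintegral_tsum fun i => (hmeas i).aemeasurable]
  have h2 : ∀ i : Fin l → ℕ, ∫⁻ ω, (({N : ℤ → ℕ | ∀ t, i t < numLab N (v t)} ×ˢ
        {X : (ℤ × ℕ) ⊕ ℕ → ℝ | StrictMono fun t => X (idx (v t) (i t))}).indicator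
          (fun _ => (1 : ℝ≥0∞)) ω) ∂(limitLaw ν γ) =
      (∫⁻ N, ((Jset (numLab N) v : Finset (Fin l → ℕ)) : Set (Fin l → ℕ)).indicator
        (fun _ => (1 : ℝ≥0∞)) i ∂PN) * s := by
    intro i
    rw [lintegral_indicator (hms i), hP, setLIntegral_one, Measure.prod_prod]
    by_cases hex : ∃ N : ℤ → ℕ, ∀ t, i t < numLab N (v t)
    · obtain ⟨N0, hN0⟩ := hex
      rw [hPX, prob_increasing h v i hN0]
      split_ifs with hinj
      · congr 1
        rw [← setLIntegral_one, ← lintegral_indicator (measurableSet_num v i)]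
        apply lintegral_congr
        intro N
        by_cases hN : ∀ t, i t < numLab N (v t)
        · rw [Set.indicator_of_mem (by exact hN), Set.indicator_of_mem]
          exact mem_Jset.2 ⟨hN, hinj⟩
        · rw [Set.indicator_of_notMem (by exact hN), Set.indicator_of_notMem]
          intro hc
          exact hN (mem_Jset.1 hc).1
      · rw [mul_zero]
        symm
        have : ∀ N : ℤ → ℕ, ((Jset (numLab N) v : Finset (Fin l → ℕ)) : Set (Fin l → ℕ)).indicator
            (fun _ => (1 : ℝ≥0∞)) i = 0 := by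
          intro N
          rw [Set.indicator_of_notMem]
          intro hc
          exact hinj (mem_Jset.1 hc).2
        simp only [this, lintegral_zero, zero_mul]
    · have h3 : {N : ℤ → ℕ | ∀ t, i t < numLab N (v t)} = ∅ := by
        ext N
        simp only [Set.mem_ofPred_eq, Set.mem_empty_iff_false, iff_false]
        exact fun hN => hex ⟨N, hN⟩
      rw [h3, measure_empty, zero_mul]
      symm
      have : ∀ N : ℤ → ℕ, ((Jset (numLab N) v : Finset (Fin l → ℕ)) : Set (Fin l → ℕ)).indicator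
          (fun _ => (1 : ℝ≥0∞)) i = 0 := by
        intro N
        rw [Set.indicator_of_notMem]
        intro hc
        exact hex ⟨N, (mem_Jset.1 hc).1⟩
      simp only [this, lintegral_zero, zero_mul]
  simp only [h2]
  rw [ENNReal.tsum_mul_right, ← lintegral_tsum]
  · have h4 : ∀ N : ℤ → ℕ, ∑' i : Fin l → ℕ,
        ((Jset (numLab N) v : Finset (Fin l → ℕ)) : Set (Fin l → ℕ)).indicator
          (fun _ => (1 : ℝ≥0∞)) i = ((Jset (numLab N) v).card : ℝ≥0∞) := by
      intro N
      rw [← _root_.tsum_subtype _ fun _ => (1 : ℝ≥0∞), ENNReal.tsum_set_one, Set.encard_coe_eq_coe_finsetCard]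
      rfl
    simp only [h4]
    rw [hPN, expect_Jset _ R v hv]
    split_ifs
    · rfl
    · rw [zero_mul]
  · intro i
    apply Measurable.aemeasurable
    have h5 : (fun N : ℤ → ℕ => ((Jset (numLab N) v : Finset (Fin l → ℕ)) :
        Set (Fin l → ℕ)).indicator (fun _ => (1 : ℝ≥0∞)) i) =
        {N : ℤ → ℕ | (∀ t, i t < numLab N (v t)) ∧ Function.Injective fun t => (v t, i t)}.indicator
          fun _ => (1 : ℝ≥0∞) := by
      funext N
      by_cases hc : i ∈ Jset (numLab N) v
      · rw [Set.indicator_of_mem (by exact hc), Set.indicator_of_mem]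
        exact mem_Jset.1 hc
      · rw [Set.indicator_of_notMem (by exact hc), Set.indicator_of_notMem]
        intro h6
        exact hc (mem_Jset.2 h6)
    rw [h5]
    apply measurable_const.indicator
    exact (measurableSet_num v i).inter (MeasurableSet.const _)

end

end Pool.Agent.Lib.MP_264509_pr
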