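import Pool.Agent.Lib.MP_264509_pr.MalComb

open Finset Equiv Filter
open scoped Topology

namespace Pool.Agent.Lib.MP_264509_pr

/-- a sequence of sizes and parameters in the critical window -/
structure Reg (β : ℝ) (n : ℕ → ℕ) (q : ℕ → ℝ) : Prop where
  n_top : Tendsto n atTop atTop
  q_pos : ∀ k, 0 < q k
  q_lim : Tendsto (fun k => (n k : ℝ) * (1 - q k)) atTop (𝓝 β)

/-- the limit of `qn q i / n` -/
noncomputable def eB (β x : ℝ) : ℝ := if β = 0 then x else (1 - Real.exp (-(β * x))) / β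

section

variable {β : ℝ} {n : ℕ → ℕ} {q : ℕ → ℝ}

lemma Reg.cast_top (H : Reg β n q) : Tendsto (fun k => (n k : ℝ)) atTop atTop :=
  tendsto_natCast_atTop_atTop.comp H.n_top

lemma Reg.q_one (H : Reg β n q) : Tendsto q atTop (𝓝 1) := by
  have h1 : Tendsto (fun k => (n k : ℝ) * (1 - q k) / (n k : ℝ)) atTop (𝓝 0) :=
    H.q_lim.div_atTop H.cast_top
  have h2 : Tendsto (fun k => 1 - (n k : ℝ) * (1 - q k) / (n k : ℝ)) atTop (𝓝 (1 - 0)) :=
    tendsto_const_nhds.sub h1
  rw [sub_zero] at h2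
  refine h2.congr' ?_
  filter_upwards [H.cast_top.eventually (eventually_gt_atTop 0)] with k hk
  field_simp
  ring

lemma Reg.log_lim (H : Reg β n q) :
    Tendsto (fun k => (n k : ℝ) * Real.log (q k)) atTop (𝓝 (-β)) := by
  have hup : Tendsto (fun k => (n k : ℝ) * (q k - 1)) atTop (𝓝 (-β)) := by
    refine H.q_lim.neg.congr fun k => ?_
    ring
  have hlo : Tendsto (fun k => (n k : ℝ) * (q k - 1) / q k) atTop (𝓝 (-β)) := by
    have := hup.div H.q_one one_ne_zero
    rwa [div_one] at this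
  refine tendsto_of_tendsto_of_tendsto_of_le_of_le hlo hup ?_ ?_
  · intro k
    have h1 := Real.one_sub_inv_le_log_of_pos (H.q_pos k)
    have h2 : (n k : ℝ) * (q k - 1) / q k = (n k : ℝ) * (1 - (q k)⁻¹) := by
      have := (H.q_pos k).ne'
      field_simp
    change (n k : ℝ) * (q k - 1) / q k ≤ _
    rw [h2]
    exact mul_le_mul_of_nonneg_left h1 (Nat.cast_nonneg _)
  · intro k
    exact mul_le_mul_of_nonneg_left (Real.log_le_sub_one_of_pos (H.q_pos k)) (Nat.cast_nonneg _)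

lemma Reg.pow_lim (H : Reg β n q) {e : ℕ → ℕ} {z : ℝ}
    (he : Tendsto (fun k => (e k : ℝ) / (n k : ℝ)) atTop (𝓝 z)) :
    Tendsto (fun k => q k ^ e k) atTop (𝓝 (Real.exp (-(β * z)))) := by
  have h1 := (Real.continuous_exp.tendsto _).comp (he.mul H.log_lim)
  have h2 : Real.exp (z * -β) = Real.exp (-(β * z)) := by ring_nf
  rw [h2] at h1
  refine h1.congr' ?_
  filter_upwards [H.cast_top.eventually (eventually_gt_atTop 0)] with k hk
  simp only [Function.comp_apply]
  have h3 : (e k : ℝ) / (n k : ℝ) * ((n k : ℝ) * Real.log (q k)) = Real.log (q k) * (e k : ℝ) := by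
    field_simp
  rw [h3, Real.exp_mul, Real.exp_log (H.q_pos k), Real.rpow_natCast]

lemma Reg.bound (H : Reg β n q) (c : ℕ) : ∃ M : ℝ, 1 ≤ M ∧ ∀ᶠ k in atTop, ∀ e : ℕ,
    e ≤ c * n k → q k ^ e ≤ M ∧ 1 ≤ M * q k ^ e := by
  refine ⟨Real.exp (c * (|β| + 1)), Real.one_le_exp (by positivity), ?_⟩
  have h1 : ∀ᶠ k in atTop, |(n k : ℝ) * Real.log (q k)| < |β| + 1 := by
    have h2 := H.log_lim.abs
    rw [abs_neg] at h2
    exact h2.eventually (gt_mem_nhds (by linarith))
  filter_upwards [h1] with k hk e he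
  have h3 : q k ^ e = Real.exp (e * Real.log (q k)) := by
    rw [mul_comm, Real.exp_mul, Real.exp_log (H.q_pos k), Real.rpow_natCast]
  have h4 : |(e : ℝ) * Real.log (q k)| ≤ c * (|β| + 1) := by
    rw [abs_mul, Nat.abs_cast]
    have h5 : (e : ℝ) ≤ c * n k := by exact_mod_cast he
    calc (e : ℝ) * |Real.log (q k)| ≤ (c * n k) * |Real.log (q k)| := by gcongr
      _ = c * |(n k : ℝ) * Real.log (q k)| := by rw [abs_mul, Nat.abs_cast]; ring
      _ ≤ c * (|β| + 1) := by gcongr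
  rw [h3]
  have h6 := abs_le.1 h4
  constructor
  · exact Real.exp_le_exp.2 h6.2
  · rw [← Real.exp_add]
    apply Real.one_le_exp
    linarith [h6.1]

lemma Reg.shift (H : Reg β n q) (s : ℕ) : Reg β (fun k => n k + s) q where
  n_top := tendsto_atTop_mono (fun k => Nat.le_add_right (n k) s) H.n_top
  q_pos := H.q_pos
  q_lim := by
    have h1 : Tendsto (fun k => (n k : ℝ) * (1 - q k) + s * (1 - q k)) atTop
        (𝓝 (β + s * (1 - 1))) := H.q_lim.add ((tendsto_const_nhds.sub H.q_one).const_mul _)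
    rw [sub_self, mul_zero, add_zero] at h1
    refine h1.congr fun k => ?_
    push_cast; ring

lemma tendsto_ratio_shift (hn : Tendsto n atTop atTop) (s : ℕ) :
    Tendsto (fun k => (n k : ℝ) / ((n k + s : ℕ) : ℝ)) atTop (𝓝 1) := by
  have hn' : Tendsto (fun k => (n k : ℝ)) atTop atTop := tendsto_natCast_atTop_atTop.comp hn
  have h2 : Tendsto (fun k => ((n k + s : ℕ) : ℝ) / (n k : ℝ)) atTop (𝓝 1) := by
    have h3 : Tendsto (fun k => 1 + (s : ℝ) / (n k : ℝ)) atTop (𝓝 (1 + 0)) :=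
      tendsto_const_nhds.add (tendsto_const_nhds.div_atTop hn')
    rw [add_zero] at h3
    refine h3.congr' ?_
    filter_upwards [hn'.eventually (eventually_gt_atTop 0)] with k hk
    push_cast
    rw [add_div, div_self hk.ne']
  have := h2.inv₀ one_ne_zero
  rw [inv_one] at this
  refine this.congr fun k => ?_
  rw [inv_div]

lemma tendsto_div_shift (hn : Tendsto n atTop atTop) (s : ℕ) {i : ℕ → ℕ} {x : ℝ}
    (hi : Tendsto (fun k => (i k : ℝ) / (n k : ℝ)) atTop (𝓝 x)) :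
    Tendsto (fun k => (i k : ℝ) / ((n k + s : ℕ) : ℝ)) atTop (𝓝 x) := by
  have hn' : Tendsto (fun k => (n k : ℝ)) atTop atTop := tendsto_natCast_atTop_atTop.comp hn
  have h1 := hi.mul (tendsto_ratio_shift hn s)
  rw [mul_one] at h1
  refine h1.congr' ?_
  filter_upwards [hn'.eventually (eventually_gt_atTop 0)] with k hk
  field_simp

lemma tendsto_pred (hn : Tendsto n atTop atTop) {i : ℕ → ℕ} {x : ℝ}
    (hi : Tendsto (fun k => (i k : ℝ) / (n k : ℝ)) atTop (𝓝 x)) :
    Tendsto (fun k => ((i k - 1 : ℕ) : ℝ) / (n k : ℝ)) atTop (𝓝 x) := by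
  have hn' : Tendsto (fun k => (n k : ℝ)) atTop atTop := tendsto_natCast_atTop_atTop.comp hn
  have h0 : Tendsto (fun k => (1 : ℝ) / (n k : ℝ)) atTop (𝓝 0) := tendsto_const_nhds.div_atTop hn'
  have h1 := hi.sub h0
  rw [sub_zero] at h1
  refine tendsto_of_tendsto_of_tendsto_of_le_of_le h1 hi ?_ ?_
  · intro k
    change (i k : ℝ) / (n k : ℝ) - 1 / (n k : ℝ) ≤ ((i k - 1 : ℕ) : ℝ) / (n k : ℝ)
    rw [← sub_div]
    apply div_le_div_of_nonneg_right _ (Nat.cast_nonneg _)
    have : i k ≤ (i k - 1) + 1 := by omega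
    have : (i k : ℝ) ≤ ((i k - 1 : ℕ) : ℝ) + 1 := by exact_mod_cast this
    linarith
  · intro k
    change ((i k - 1 : ℕ) : ℝ) / (n k : ℝ) ≤ (i k : ℝ) / (n k : ℝ)
    apply div_le_div_of_nonneg_right _ (Nat.cast_nonneg _)
    exact_mod_cast Nat.sub_le _ _

lemma one_sub_mul_qn (q : ℝ) (s : ℕ) : (1 - q) * qn q s = 1 - q ^ s := by
  unfold qn
  rw [mul_neg_geom_sum]

lemma qn_bounds {q : ℝ} {s : ℕ} {m M : ℝ} (hm : ∀ t < s, m ≤ q ^ t)
    (hM : ∀ t < s, q ^ t ≤ M) : s * m ≤ qn q s ∧ qn q s ≤ s * M := by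
  unfold qn
  constructor
  · calc (s : ℝ) * m = ∑ t ∈ range s, m := by rw [Finset.sum_const, card_range, nsmul_eq_mul]
      _ ≤ _ := Finset.sum_le_sum fun t ht => hm t (Finset.mem_range.1 ht)
  · calc _ ≤ ∑ t ∈ range s, M := Finset.sum_le_sum fun t ht => hM t (Finset.mem_range.1 ht)
      _ = (s : ℝ) * M := by rw [Finset.sum_const, card_range, nsmul_eq_mul]

lemma Reg.qn_lim (H : Reg β n q) {i : ℕ → ℕ} {x : ℝ}
    (hi : Tendsto (fun k => (i k : ℝ) / (n k : ℝ)) atTop (𝓝 x)) :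
    Tendsto (fun k => qn (q k) (i k) / (n k : ℝ)) atTop (𝓝 (eB β x)) := by
  unfold eB
  split_ifs with hβ
  · subst hβ
    have h1 := H.pow_lim hi
    rw [zero_mul, neg_zero, Real.exp_zero] at h1
    have hlo : Tendsto (fun k => (i k : ℝ) / (n k : ℝ) * min 1 (q k ^ i k)) atTop (𝓝 (x * 1)) := by
      apply hi.mul
      have := (tendsto_const_nhds (x := (1 : ℝ))).min h1
      rwa [min_self] at this
    have hup : Tendsto (fun k => (i k : ℝ) / (n k : ℝ) * max 1 (q k ^ i k)) atTop (𝓝 (x * 1)) := by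
      apply hi.mul
      have := (tendsto_const_nhds (x := (1 : ℝ))).max h1
      rwa [max_self] at this
    rw [mul_one] at hlo hup
    have hkey : ∀ k, (i k : ℝ) * min 1 (q k ^ i k) ≤ qn (q k) (i k) ∧
        qn (q k) (i k) ≤ (i k : ℝ) * max 1 (q k ^ i k) := by
      intro k
      apply qn_bounds
      · intro t ht
        rcases le_total (q k) 1 with h | h
        · exact (min_le_right _ _).trans (pow_le_pow_of_le_one (H.q_pos k).le h ht.le)
        · exact (min_le_left _ _).trans (one_le_pow₀ h)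
      · intro t ht
        rcases le_total (q k) 1 with h | h
        · exact (pow_le_one₀ (H.q_pos k).le h).trans (le_max_left _ _)
        · exact (pow_le_pow_right₀ h ht.le).trans (le_max_right _ _)
    refine tendsto_of_tendsto_of_tendsto_of_le_of_le hlo hup ?_ ?_
    · intro k
      change (i k : ℝ) / (n k : ℝ) * min 1 (q k ^ i k) ≤ qn (q k) (i k) / (n k : ℝ)
      rw [div_mul_eq_mul_div]
      exact div_le_div_of_nonneg_right (hkey k).1 (Nat.cast_nonneg _)
    · intro k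
      change qn (q k) (i k) / (n k : ℝ) ≤ (i k : ℝ) / (n k : ℝ) * max 1 (q k ^ i k)
      rw [div_mul_eq_mul_div]
      exact div_le_div_of_nonneg_right (hkey k).2 (Nat.cast_nonneg _)
  · have h1 := ((tendsto_const_nhds (x := (1 : ℝ))).sub (H.pow_lim hi)).div H.q_lim hβ
    refine h1.congr' ?_
    have h2 : ∀ᶠ k in atTop, (n k : ℝ) * (1 - q k) ≠ 0 :=
      H.q_lim.eventually_ne hβ
    filter_upwards [h2] with k hk
    simp only [Pi.div_apply]
    rw [← one_sub_mul_qn]
    have h3 : (n k : ℝ) ≠ 0 := left_ne_zero_of_mul hk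
    have h4 : (1 - q k) ≠ 0 := right_ne_zero_of_mul hk
    field_simp

lemma eB_one_pos (β : ℝ) : 0 < eB β 1 := by
  unfold eB
  split_ifs with h
  · exact one_pos
  · rcases lt_or_gt_of_ne h with h | h
    · apply div_pos_of_neg_of_neg _ h
      have : 1 < Real.exp (-(β * 1)) := by rw [Real.one_lt_exp_iff]; linarith
      linarith
    · apply div_pos _ h
      have : Real.exp (-(β * 1)) < 1 := by rw [Real.exp_lt_one_iff]; linarith
      linarith

/-- the limit of `1 - q ^ RR` -/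
noncomputable def wB (β x y : ℝ) : ℝ := β * eB β x * eB β y / eB β 1

lemma Reg.A_lim (H : Reg β n q) {i j s : ℕ → ℕ} {x y : ℝ}
    (hi : Tendsto (fun k => (i k : ℝ) / (n k : ℝ)) atTop (𝓝 x))
    (hj : Tendsto (fun k => (j k : ℝ) / (n k : ℝ)) atTop (𝓝 y))
    (hs : Tendsto (fun k => (s k : ℝ) / (n k : ℝ)) atTop (𝓝 1)) :
    Tendsto (fun k => (1 - q k) * qn (q k) (i k) * qn (q k) (j k) / qn (q k) (s k)) atTop
      (𝓝 (wB β x y)) := by
  have h1 := ((H.q_lim.mul (H.qn_lim hi)).mul (H.qn_lim hj)).div (H.qn_lim hs) (eB_one_pos β).ne'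
  unfold wB
  refine h1.congr' ?_
  filter_upwards [H.cast_top.eventually (eventually_gt_atTop 0)] with k hk
  simp only [Pi.div_apply]
  rw [div_div_eq_mul_div]
  congr 1
  field_simp

end

end Pool.Agent.Lib.MP_264509_pr
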