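import Pool.Agent.Lib.MP_264509_pr.Defs

open Finset Equiv

namespace Pool.Agent.Lib.MP_264509_pr

/-- insert the value `m` at the position `a` -/
def insP {n : ℕ} (a m : Fin (n + 1)) (τ : Perm (Fin n)) : Perm (Fin (n + 1)) :=
  (finSuccEquiv' a).trans ((optionCongr τ).trans (finSuccEquiv' m).symm)

lemma insP_at {n : ℕ} (a m : Fin (n + 1)) (τ : Perm (Fin n)) : insP a m τ a = m := by
  simp [insP]

lemma insP_succAbove {n : ℕ} (a m : Fin (n + 1)) (τ : Perm (Fin n)) (i : Fin n) :
    insP a m τ (a.succAbove i) = m.succAbove (τ i) := by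
  simp [insP]

lemma sum_insP {n : ℕ} (a m : Fin (n + 1)) (F : Perm (Fin (n + 1)) → ℝ) :
    ∑ σ : Perm (Fin (n + 1)), (if σ a = m then F σ else 0) = ∑ τ, F (insP a m τ) := by
  have h1 := Equiv.sum_comp (Equiv.equivCongr (finSuccEquiv' a) (finSuccEquiv' m)).symm
    (fun σ : Perm (Fin (n + 1)) => if σ a = m then F σ else 0)
  rw [← h1]
  have h2 := Equiv.sum_comp (Perm.decomposeOption (α := Fin n)).symm
    (fun ρ : Perm (Option (Fin n)) =>
      (fun σ : Perm (Fin (n + 1)) => if σ a = m then F σ else 0)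
        ((Equiv.equivCongr (finSuccEquiv' a) (finSuccEquiv' m)).symm ρ))
  rw [← h2, Fintype.sum_prod_type, Fintype.sum_option]
  have h3 : ∀ (i : Option (Fin n)) (τ : Perm (Fin n)),
      ((Equiv.equivCongr (finSuccEquiv' a) (finSuccEquiv' m)).symm
        (Perm.decomposeOption.symm (i, τ))) a = (finSuccEquiv' m).symm i := by
    intro i τ
    change (finSuccEquiv' m).symm ((swap none i * optionCongr τ) (finSuccEquiv' a a)) = _
    rw [finSuccEquiv'_at]
    simp
  have h4 : ∑ i : Fin n, ∑ τ : Perm (Fin n), (fun σ : Perm (Fin (n + 1)) => if σ a = m then F σ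
      else 0) ((Equiv.equivCongr (finSuccEquiv' a) (finSuccEquiv' m)).symm
        (Perm.decomposeOption.symm (some i, τ))) = 0 := by
    apply Finset.sum_eq_zero
    intro i _
    apply Finset.sum_eq_zero
    intro τ _
    simp only [h3]
    rw [if_neg]
    simp
  rw [h4, add_zero]
  apply Finset.sum_congr rfl
  intro τ _
  simp only [h3, finSuccEquiv'_symm_none, if_true]
  congr 1
  change ((finSuccEquiv' a).trans ((swap none none * optionCongr τ : Perm _).trans
    (finSuccEquiv' m).symm)) = _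
  rw [swap_self]
  rfl

/-- the number of positions before `i` with values below `j` -/
def RR {n : ℕ} (σ : Perm (Fin n)) (i j : ℕ) : ℕ :=
  (Finset.univ.filter fun t : Fin n => (t : ℕ) < i ∧ (σ t : ℕ) < j).card

lemma RR_eq_sum {n : ℕ} (σ : Perm (Fin n)) (i j : ℕ) :
    RR σ i j = ∑ t : Fin n, if (t : ℕ) < i ∧ (σ t : ℕ) < j then 1 else 0 := by
  rw [RR, Finset.card_filter]

lemma inv_eq_sum {n : ℕ} (σ : Perm (Fin n)) :
    inv σ = ∑ s : Fin n, ∑ t : Fin n, if s < t ∧ σ t < σ s then 1 else 0 := by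
  rw [inv, Finset.card_filter, ← Finset.univ_product_univ, Finset.sum_product]

lemma sum_lt {n : ℕ} {i : ℕ} (hi : i ≤ n) : (∑ t : Fin n, if (t : ℕ) < i then 1 else 0) = i := by
  rw [← Finset.card_filter, Fin.card_filter_val_lt, min_eq_right hi]

lemma sum_val_lt {n : ℕ} (σ : Perm (Fin n)) {j : ℕ} (hj : j ≤ n) :
    (∑ t : Fin n, if (σ t : ℕ) < j then 1 else 0) = j := by
  rw [Equiv.sum_comp σ (fun t : Fin n => if (t : ℕ) < j then 1 else 0), sum_lt hj]

lemma inv_insP {n : ℕ} (a m : Fin (n + 1)) (τ : Perm (Fin n)) :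
    inv (insP a m τ) + 2 * RR τ a m = inv τ + a + m := by
  have h1 : inv (insP a m τ) = (∑ j : Fin n, if (a : ℕ) ≤ j ∧ (τ j : ℕ) < m then 1 else 0) +
      ((∑ i : Fin n, if (i : ℕ) < a ∧ (m : ℕ) ≤ τ i then 1 else 0) + inv τ) := by
    rw [inv_eq_sum, inv_eq_sum, Fin.sum_univ_succAbove _ a]
    congr 1
    · rw [Fin.sum_univ_succAbove _ a]
      rw [if_neg (by simp), zero_add]
      apply Finset.sum_congr rfl
      intro j _
      rw [insP_at, insP_succAbove]
      simp only [Fin.lt_succAbove_iff_le_castSucc, Fin.succAbove_lt_iff_castSucc_lt]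
      simp only [Fin.le_def, Fin.lt_def, Fin.val_castSucc]
    · rw [← Finset.sum_add_distrib]
      apply Finset.sum_congr rfl
      intro i _
      rw [Fin.sum_univ_succAbove _ a]
      congr 1
      · rw [insP_at, insP_succAbove]
        simp only [Fin.lt_succAbove_iff_le_castSucc, Fin.succAbove_lt_iff_castSucc_lt]
        simp only [Fin.le_def, Fin.lt_def, Fin.val_castSucc]
      · apply Finset.sum_congr rfl
        intro j _
        rw [insP_succAbove, insP_succAbove]
        simp only [Fin.succAbove_lt_succAbove_iff]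
  have ha : (a : ℕ) ≤ n := Nat.lt_succ_iff.1 a.2
  have hm : (m : ℕ) ≤ n := Nat.lt_succ_iff.1 m.2
  have h2 : (∑ j : Fin n, if (a : ℕ) ≤ j ∧ (τ j : ℕ) < m then 1 else 0) + RR τ a m = m := by
    rw [RR_eq_sum, ← Finset.sum_add_distrib]
    conv_rhs => rw [← sum_val_lt τ hm]
    apply Finset.sum_congr rfl
    intro j _
    by_cases h3 : (τ j : ℕ) < m <;> by_cases h4 : (a : ℕ) ≤ j
    · simp [h3, h4, not_lt.2 h4]
    · simp [h3, h4, not_le.1 h4]
    · simp [h3]
    · simp [h3]
  have h3 : (∑ i : Fin n, if (i : ℕ) < a ∧ (m : ℕ) ≤ τ i then 1 else 0) + RR τ a m = a := by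
    rw [RR_eq_sum, ← Finset.sum_add_distrib]
    conv_rhs => rw [← sum_lt ha]
    apply Finset.sum_congr rfl
    intro j _
    by_cases h3 : (j : ℕ) < a <;> by_cases h4 : (m : ℕ) ≤ τ j
    · simp [h3, h4, not_lt.2 h4]
    · simp [h3, h4, not_le.1 h4]
    · simp [h3]
    · simp [h3]
  omega

lemma RR_le_left {n : ℕ} (τ : Perm (Fin n)) (i j : ℕ) : RR τ i j ≤ i := by
  unfold RR
  calc _ ≤ (Finset.univ.filter fun t : Fin n => (t : ℕ) < i).card := by
        apply Finset.card_le_card
        intro t ht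
        simp only [Finset.mem_filter, Finset.mem_univ, true_and] at ht ⊢
        exact ht.1
    _ ≤ i := by rw [Fin.card_filter_val_lt]; exact min_le_right _ _

lemma RR_le_right {n : ℕ} (τ : Perm (Fin n)) (i j : ℕ) : RR τ i j ≤ j := by
  rw [RR_eq_sum]
  calc _ ≤ ∑ t : Fin n, if (τ t : ℕ) < j then 1 else 0 := by
        apply Finset.sum_le_sum
        intro t _
        split_ifs <;> simp_all
    _ ≤ j := by
        rw [Equiv.sum_comp τ (fun t : Fin n => if (t : ℕ) < j then 1 else 0),
          ← Finset.card_filter, Fin.card_filter_val_lt]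
        exact min_le_right _ _

lemma RR_le_card {n : ℕ} (τ : Perm (Fin n)) (i j : ℕ) : RR τ i j ≤ n := by
  unfold RR
  exact (Finset.card_le_univ _).trans (by simp)

lemma RR_min {n : ℕ} (τ : Perm (Fin n)) (i j : ℕ) : RR τ (min i n) (min j n) = RR τ i j := by
  unfold RR
  congr 1
  ext t
  simp only [Finset.mem_filter, Finset.mem_univ, true_and, lt_min_iff, t.2, (τ t).2, and_true]

lemma succAbove_val {n : ℕ} (a : Fin (n + 1)) (i : Fin n) :
    (a.succAbove i : ℕ) = if (i : ℕ) < a then (i : ℕ) else (i : ℕ) + 1 := by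
  by_cases h : (i : ℕ) < a
  · rw [if_pos h, Fin.succAbove_of_castSucc_lt _ _ (by simpa [Fin.lt_def] using h)]
    rfl
  · rw [if_neg h, Fin.succAbove_of_le_castSucc _ _ (by simpa [Fin.le_def] using not_lt.1 h)]
    rfl

lemma RR_insP {n : ℕ} (a m : Fin (n + 1)) (τ : Perm (Fin n)) (i j : ℕ) :
    RR (insP a m τ) i j = (if (a : ℕ) < i ∧ (m : ℕ) < j then 1 else 0) +
      ∑ t : Fin n, if ((a.succAbove t : ℕ) < i ∧ (m.succAbove (τ t) : ℕ) < j) then 1 else 0 := by
  rw [RR_eq_sum, Fin.sum_univ_succAbove _ a, insP_at]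
  congr 1
  apply Finset.sum_congr rfl
  intro t _
  rw [insP_succAbove]

lemma RR_insP_le {n : ℕ} (a m : Fin (n + 1)) (τ : Perm (Fin n)) (i j : ℕ) :
    RR (insP a m τ) i j ≤ RR τ i j + 1 := by
  rw [RR_insP, RR_eq_sum, add_comm]
  apply add_le_add
  · apply Finset.sum_le_sum
    intro t _
    have h1 := succAbove_val a t
    have h2 := succAbove_val m (τ t)
    split_ifs at * <;> omega
  · split_ifs <;> omega

lemma sum_succ_eq_le {n : ℕ} (σ : Perm (Fin n)) (i : ℕ) :
    (∑ t : Fin n, if (σ t : ℕ) + 1 = i then 1 else 0) ≤ 1 := by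
  rw [Equiv.sum_comp σ (fun t : Fin n => if (t : ℕ) + 1 = i then 1 else 0), ← Finset.card_filter,
    Finset.card_le_one]
  intro a ha b hb
  rw [Finset.mem_filter] at ha hb
  apply Fin.ext
  omega

lemma le_RR_insP {n : ℕ} (a m : Fin (n + 1)) (τ : Perm (Fin n)) (i j : ℕ) :
    RR τ i j ≤ RR (insP a m τ) i j + 2 := by
  have h1 : RR τ i j ≤ (∑ t : Fin n, if ((a.succAbove t : ℕ) < i ∧
      (m.succAbove (τ t) : ℕ) < j) then 1 else 0) +
      ((∑ t : Fin n, if ((Equiv.refl (Fin n)) t : ℕ) + 1 = i then 1 else 0) +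
      (∑ t : Fin n, if (τ t : ℕ) + 1 = j then 1 else 0)) := by
    rw [RR_eq_sum, ← Finset.sum_add_distrib, ← Finset.sum_add_distrib]
    apply Finset.sum_le_sum
    intro t _
    have h1 := succAbove_val a t
    have h2 := succAbove_val m (τ t)
    rw [Equiv.refl_apply]
    split_ifs at * <;> omega
  have h2 := sum_succ_eq_le (Equiv.refl (Fin n)) i
  have h3 := sum_succ_eq_le τ j
  rw [RR_insP]
  omega

lemma RR_insP_zero {n : ℕ} (m : Fin (n + 1)) (τ : Perm (Fin n)) (i j : ℕ) :
    RR (insP 0 m τ) (i + 1) j = if (m : ℕ) < j then RR τ i (j - 1) + 1 else RR τ i j := by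
  rw [RR_insP]
  have h1 : ∀ t : Fin n, ((0 : Fin (n + 1)).succAbove t : ℕ) = t + 1 := fun t => by simp
  by_cases h : (m : ℕ) < j
  · rw [if_pos h, if_pos ⟨by simp, h⟩, RR_eq_sum, add_comm]
    congr 1
    apply Finset.sum_congr rfl
    intro t _
    have h2 := succAbove_val m (τ t)
    have h3 := h1 t
    have : ((((0 : Fin (n + 1)).succAbove t : ℕ) < i + 1 ∧ (m.succAbove (τ t) : ℕ) < j) ↔
      ((t : ℕ) < i ∧ (τ t : ℕ) < j - 1)) := by
      split_ifs at h2 <;> omega
    simp only [this]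
  · rw [if_neg h, if_neg (fun h' => h h'.2), RR_eq_sum, zero_add]
    apply Finset.sum_congr rfl
    intro t _
    have h2 := succAbove_val m (τ t)
    have h3 := h1 t
    have : ((((0 : Fin (n + 1)).succAbove t : ℕ) < i + 1 ∧ (m.succAbove (τ t) : ℕ) < j) ↔
      ((t : ℕ) < i ∧ (τ t : ℕ) < j)) := by
      split_ifs at h2 <;> omega
    simp only [this]

lemma RR_zero_left {n : ℕ} (τ : Perm (Fin n)) (j : ℕ) : RR τ 0 j = 0 := by
  simp [RR]

/-- the number `1 + q + ⋯ + q ^ (s - 1)` -/
noncomputable def qn (q : ℝ) (s : ℕ) : ℝ := ∑ t ∈ range s, q ^ t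

/-- the partition function of the Mallows distribution -/
noncomputable def ZM (q : ℝ) (n : ℕ) : ℝ := ∑ σ : Perm (Fin n), q ^ inv σ

lemma qn_zero (q : ℝ) : qn q 0 = 0 := by simp [qn]

lemma qn_succ (q : ℝ) (s : ℕ) : qn q (s + 1) = 1 + q * qn q s := by
  rw [qn, Finset.sum_range_succ', qn, Finset.mul_sum, pow_zero, add_comm]
  congr 1
  exact Finset.sum_congr rfl fun t _ => by rw [pow_succ]; ring

lemma sum_perm_zero {n : ℕ} (F : Perm (Fin (n + 1)) → ℝ) :
    ∑ σ, F σ = ∑ m : Fin (n + 1), ∑ τ : Perm (Fin n), F (insP 0 m τ) := by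
  have h1 : ∀ σ : Perm (Fin (n + 1)), F σ = ∑ m : Fin (n + 1), if σ 0 = m then F σ else 0 := by
    intro σ
    rw [Finset.sum_ite_eq Finset.univ (σ 0)]
    simp
  rw [Finset.sum_congr rfl fun σ _ => h1 σ, Finset.sum_comm]
  exact Finset.sum_congr rfl fun m _ => sum_insP 0 m F

lemma inv_insP_zero {n : ℕ} (m : Fin (n + 1)) (τ : Perm (Fin n)) :
    inv (insP 0 m τ) = inv τ + m := by
  have := inv_insP 0 m τ
  have h0 : RR τ ((0 : Fin (n + 1)) : ℕ) m = 0 := RR_zero_left τ m
  rw [h0] at this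
  simpa using this

lemma sum_range_ite {q : ℝ} {n j : ℕ} (hj : j ≤ n + 1) (A B : ℝ) :
    ∑ m : Fin (n + 1), q ^ (m : ℕ) * (if (m : ℕ) < j then A else B) =
      qn q j * A + (qn q (n + 1) - qn q j) * B := by
  rw [Fin.sum_univ_eq_sum_range (fun m => q ^ m * (if m < j then A else B))]
  have h1 : qn q (n + 1) - qn q j = ∑ m ∈ Finset.Ico j (n + 1), q ^ m := by
    rw [qn, qn, Finset.sum_Ico_eq_sub _ hj]
  rw [h1, ← Finset.sum_range_add_sum_Ico _ hj]
  congr 1
  · rw [qn, Finset.sum_mul]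
    apply Finset.sum_congr rfl
    intro m hm
    rw [if_pos (Finset.mem_range.1 hm)]
  · rw [Finset.sum_mul]
    apply Finset.sum_congr rfl
    intro m hm
    rw [if_neg (not_lt.2 (Finset.mem_Ico.1 hm).1)]

/-- the weighted sum of a function of `RR` -/
noncomputable def SF (q : ℝ) (f : ℕ → ℝ) (n i j : ℕ) : ℝ :=
  ∑ σ : Perm (Fin n), q ^ inv σ * f (RR σ i j)

lemma SF_succ (q : ℝ) (f : ℕ → ℝ) {n i j : ℕ} (hj : j ≤ n + 1) :
    SF q f (n + 1) (i + 1) j = qn q j * SF q (fun r => f (r + 1)) n i (j - 1) +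
      (qn q (n + 1) - qn q j) * SF q f n i j := by
  rw [← sum_range_ite hj, SF, sum_perm_zero]
  apply Finset.sum_congr rfl
  intro m _
  by_cases h : (m : ℕ) < j
  · rw [if_pos h, SF, Finset.mul_sum]
    apply Finset.sum_congr rfl
    intro τ _
    rw [inv_insP_zero, RR_insP_zero, if_pos h, pow_add]
    ring
  · rw [if_neg h, SF, Finset.mul_sum]
    apply Finset.sum_congr rfl
    intro τ _
    rw [inv_insP_zero, RR_insP_zero, if_neg h, pow_add]
    ring

lemma SF_zero (q : ℝ) (f : ℕ → ℝ) (n j : ℕ) : SF q f n 0 j = f 0 * ZM q n := by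
  rw [SF, ZM, Finset.mul_sum]
  apply Finset.sum_congr rfl
  intro σ _
  rw [RR_zero_left]; ring

lemma ZM_succ (q : ℝ) (n : ℕ) : ZM q (n + 1) = qn q (n + 1) * ZM q n := by
  rw [ZM, sum_perm_zero, qn, ← Fin.sum_univ_eq_sum_range (fun m => q ^ m), Finset.sum_mul]
  apply Finset.sum_congr rfl
  intro m _
  rw [ZM, Finset.mul_sum]
  apply Finset.sum_congr rfl
  intro τ _
  rw [inv_insP_zero, pow_add]
  ring

lemma SF_congr (q : ℝ) {f g : ℕ → ℝ} (h : ∀ r, f r = g r) (n i j : ℕ) :
    SF q f n i j = SF q g n i j := by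
  unfold SF
  simp only [h]

lemma SF_add (q : ℝ) (f g : ℕ → ℝ) (n i j : ℕ) :
    SF q (fun r => f r + g r) n i j = SF q f n i j + SF q g n i j := by
  unfold SF
  rw [← Finset.sum_add_distrib]
  exact Finset.sum_congr rfl fun σ _ => by ring

lemma SF_mul (q : ℝ) (c : ℝ) (f : ℕ → ℝ) (n i j : ℕ) :
    SF q (fun r => c * f r) n i j = c * SF q f n i j := by
  unfold SF
  rw [Finset.mul_sum]
  exact Finset.sum_congr rfl fun σ _ => by ring

lemma SF_one (q : ℝ) (n i j : ℕ) : SF q (fun _ => 1) n i j = ZM q n := by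
  unfold SF ZM
  simp

/-- the first moment -/
lemma SF_first (q : ℝ) : ∀ (n i j : ℕ), i ≤ n + 1 → j ≤ n + 1 →
    SF q (qn q) (n + 1) i j = qn q i * qn q j * ZM q n
  | n, 0, j, hi, hj => by rw [SF_zero, qn_zero]; ring
  | n, i + 1, j, hi, hj => by
    rw [SF_succ q _ hj]
    have h1 : SF q (fun r => qn q (r + 1)) n i (j - 1) = ZM q n + q * SF q (qn q) n i (j - 1) := by
      rw [SF_congr q (g := fun r => 1 + q * qn q r) (fun r => qn_succ q r), SF_add, SF_one, SF_mul]
    rw [h1]
    cases n with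
    | zero =>
      have hi0 : i = 0 := by omega
      subst hi0
      rw [SF_zero, SF_zero, qn_zero, qn_succ, qn_zero]
      ring
    | succ n =>
      rcases Nat.eq_zero_or_pos j with hj0 | hj0
      · subst hj0
        rw [qn_zero, SF_first q n i 0 (by omega) (by omega), qn_zero]
        ring
      · obtain ⟨s, rfl⟩ : ∃ s, j = s + 1 := ⟨j - 1, by omega⟩
        rw [Nat.add_sub_cancel, SF_first q n i s (by omega) (by omega)]
        rcases Nat.lt_or_ge (s + 1) (n + 2) with hs | hs
        · rw [SF_first q n i (s + 1) (by omega) (by omega), ZM_succ, qn_succ q i,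
            qn_succ q (n + 1)]
          have := qn_succ q s
          rw [qn_succ q s]
          ring
        · have hs' : s = n + 1 := by omega
          subst hs'
          rw [ZM_succ, qn_succ q i, qn_succ q (n + 1)]
          ring

/-- the second factorial moment -/
lemma SF_second (q : ℝ) : ∀ (n i j : ℕ), i ≤ n + 2 → j ≤ n + 2 →
    SF q (fun r => qn q r * qn q (r - 1)) (n + 2) i j =
      qn q i * qn q (i - 1) * (qn q j * qn q (j - 1)) * ZM q n
  | n, 0, j, hi, hj => by rw [SF_zero, qn_zero]; ring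
  | n, i + 1, j, hi, hj => by
    rw [SF_succ q _ hj]
    have h1 : ∀ r, qn q (r + 1) * qn q (r + 1 - 1) =
        (1 + q) * qn q r + q ^ 2 * (qn q r * qn q (r - 1)) := by
      intro r
      cases r with
      | zero => simp [qn_zero]
      | succ r =>
        rw [Nat.add_sub_cancel, Nat.add_sub_cancel, qn_succ q (r + 1), qn_succ q r]
        ring
    have h2 : SF q (fun r => qn q (r + 1) * qn q (r + 1 - 1)) (n + 1) i (j - 1) =
        (1 + q) * SF q (qn q) (n + 1) i (j - 1) +
          q ^ 2 * SF q (fun r => qn q r * qn q (r - 1)) (n + 1) i (j - 1) := by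
      rw [SF_congr q h1, SF_add, SF_mul, SF_mul]
    rw [h2, SF_first q n i (j - 1) (by omega) (by omega), Nat.add_sub_cancel]
    cases n with
    | zero =>
      have h3 : ∀ k, SF q (fun r => qn q r * qn q (r - 1)) (0 + 1) i k = 0 := by
        intro k
        unfold SF
        apply Finset.sum_eq_zero
        intro σ _
        have h4 := RR_le_card σ i k
        have h5 : RR σ i k = 0 ∨ RR σ i k = 1 := by omega
        rcases h5 with h5 | h5 <;> rw [h5] <;> simp [qn_zero]
      rw [h3, h3]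
      rcases Nat.lt_or_ge i 1 with hi0 | hi0
      · have : i = 0 := by omega
        subst this
        rw [qn_zero]; ring
      · have : i = 1 := by omega
        subst this
        rw [qn_succ q 1, qn_succ q 0, qn_zero]
        ring
    | succ n =>
      rcases Nat.lt_or_ge j 1 with hj0 | hj0
      · have : j = 0 := by omega
        subst this
        rw [qn_zero, SF_second q n i 0 (by omega) (by omega), qn_zero]
        ring
      · obtain ⟨s, rfl⟩ : ∃ s, j = s + 1 := ⟨j - 1, by omega⟩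
        rw [Nat.add_sub_cancel, SF_second q n i s (by omega) (by omega), ZM_succ q n]
        have key : qn q (n + 1 + 2) = 1 + q + q ^ 2 * qn q (n + 1) := by
          rw [qn_succ q (n + 2), qn_succ q (n + 1)]; ring
        have hi' : qn q i * qn q (i + 1) = qn q i * (1 + q + q ^ 2 * qn q (i - 1)) := by
          cases i with
          | zero => rw [qn_zero]; ring
          | succ i => rw [Nat.add_sub_cancel, qn_succ q (i + 1), qn_succ q i]; ring
        have hs' : qn q s * qn q (s + 1) = qn q s * (1 + q + q ^ 2 * qn q (s - 1)) := by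
          cases s with
          | zero => rw [qn_zero]; ring
          | succ i => rw [Nat.add_sub_cancel, qn_succ q (i + 1), qn_succ q i]; ring
        rcases Nat.lt_or_ge (s + 1) (n + 3) with hs | hs
        · rw [SF_second q n i (s + 1) (by omega) (by omega), key, Nat.add_sub_cancel]
          linear_combination (-(qn q (s + 1) * qn q i * qn q (i - 1) * ZM q n)) * hs' -
            (qn q (s + 1) * qn q s * qn q (n + 1) * ZM q n) * hi'
        · have hs2 : s = n + 2 := by omega
          subst hs2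
          have e1 : n + 2 - 1 = n + 1 := rfl
          have e2 : n + 1 + 1 + 1 = n + 2 + 1 := rfl
          rw [e1, e2, sub_self, zero_mul, add_zero]
          linear_combination (-(qn q (n + 2 + 1) * qn q (n + 2) * qn q (n + 1) * ZM q n)) * hi'

end Pool.Agent.Lib.MP_264509_pr
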