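import Pool.Agent.Lib.MP_264509_pr.MalLLN

open Finset Equiv Filter
open scoped Topology

namespace Pool.Agent.Lib.MP_264509_pr

lemma peel {N l : ℕ} {q : ℝ} (a m : Fin (l + 1) → Fin (N + 1))
    (ha : Function.Injective a) (hm : Function.Injective m) :
    ∃ a' m' : Fin l → Fin N, Function.Injective a' ∧ Function.Injective m' ∧
      (∀ i, (a' i : ℕ) ≤ a i.succ ∧ (a i.succ : ℕ) ≤ a' i + 1) ∧
      (∀ i, (m' i : ℕ) ≤ m i.succ ∧ (m i.succ : ℕ) ≤ m' i + 1) ∧
      ∀ G : Perm (Fin (N + 1)) → ℝ,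
        PM q (N + 1) (fun σ => if ∀ i, σ (a i) = m i then G σ else 0) =
        1 / qn q (N + 1) * PM q N (fun τ => if ∀ i, τ (a' i) = m' i then
          q ^ ((a 0 : ℕ) + m 0 - 2 * RR τ (a 0) (m 0)) * G (insP (a 0) (m 0) τ) else 0) := by
  have h1 : ∀ i : Fin l, ∃ z, (a 0).succAbove z = a i.succ := fun i =>
    Fin.exists_succAbove_eq fun h => Fin.succ_ne_zero i (ha h)
  have h2 : ∀ i : Fin l, ∃ z, (m 0).succAbove z = m i.succ := fun i =>
    Fin.exists_succAbove_eq fun h => Fin.succ_ne_zero i (hm h)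
  choose a' ha' using h1
  choose m' hm' using h2
  refine ⟨a', m', ?_, ?_, ?_, ?_, ?_⟩
  · intro i j hij
    apply Fin.succ_injective
    apply ha
    rw [← ha', ← ha', hij]
  · intro i j hij
    apply Fin.succ_injective
    apply hm
    rw [← hm', ← hm', hij]
  · intro i
    have := succAbove_val (a 0) (a' i)
    rw [ha'] at this
    split_ifs at this <;> omega
  · intro i
    have := succAbove_val (m 0) (m' i)
    rw [hm'] at this
    split_ifs at this <;> omega
  · intro G
    have h3 : ∑ σ : Perm (Fin (N + 1)), q ^ inv σ * (if ∀ i, σ (a i) = m i then G σ else 0) =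
        ∑ σ : Perm (Fin (N + 1)), if σ (a 0) = m 0 then
          (q ^ inv σ * if ∀ i : Fin l, σ (a i.succ) = m i.succ then G σ else 0) else 0 := by
      apply Finset.sum_congr rfl
      intro σ _
      have h4 : (∀ i, σ (a i) = m i) ↔ σ (a 0) = m 0 ∧ ∀ i : Fin l, σ (a i.succ) = m i.succ :=
        Fin.forall_fin_succ
      by_cases h5 : σ (a 0) = m 0
      · simp only [h4, h5, true_and, if_true]
      · simp only [h4, h5, false_and, if_false, mul_zero]
    unfold PM
    rw [h3, sum_insP, ZM_succ, one_div, ← div_eq_inv_mul, div_div, mul_comm (ZM q N)]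
    congr 1
    apply Finset.sum_congr rfl
    intro τ _
    have h6 : (∀ i : Fin l, insP (a 0) (m 0) τ (a i.succ) = m i.succ) ↔
        ∀ i, τ (a' i) = m' i := by
      apply forall_congr'
      intro i
      rw [← ha', ← hm', insP_succAbove, Fin.succAbove_right_inj]
    have h7 : inv (insP (a 0) (m 0) τ) = inv τ + ((a 0 : ℕ) + m 0 - 2 * RR τ (a 0) (m 0)) := by
      have h8 := inv_insP (a 0) (m 0) τ
      have h9 := RR_le_left τ (a 0) (m 0)
      have h10 := RR_le_right τ (a 0) (m 0)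
      omega
    rw [h7, pow_add]
    simp only [h6]
    split_ifs
    · ring
    · ring

lemma hit_bound {q M : ℝ} (hq : 0 < q) (hM : 1 ≤ M) {n : ℕ}
    (hb : ∀ e ≤ 2 * n, q ^ e ≤ M ∧ 1 ≤ M * q ^ e) : ∀ (l n' : ℕ) (a m : Fin l → Fin n'), n' ≤ n →
      Function.Injective a → Function.Injective m →
      PM q n' (fun σ => if ∀ i, σ (a i) = m i then 1 else 0) ≤
        (M ^ 2) ^ l * (((n' - l).factorial : ℝ) / (n'.factorial : ℝ))
  | 0, n', a, m, hn, ha, hm => by
    have h1 : PM q n' (fun σ => if ∀ i : Fin 0, σ (a i) = m i then 1 else 0) = 1 := by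
      have h2 : (fun σ : Perm (Fin n') => if ∀ i : Fin 0, σ (a i) = m i then (1 : ℝ) else 0) =
          fun _ => 1 := by
        funext σ
        rw [if_pos (fun i => i.elim0)]
      rw [h2]
      exact PM_one hq
    rw [h1, pow_zero, one_mul, Nat.sub_zero, div_self (by positivity)]
  | l + 1, 0, a, m, hn, ha, hm => (a 0).elim0
  | l + 1, N + 1, a, m, hn, ha, hm => by
    obtain ⟨a', m', ha', hm', -, -, h⟩ := peel (q := q) a m ha hm
    rw [h]
    have ih := hit_bound hq hM hb l N a' m' (by omega) ha' hm'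
    have h1 : PM q N (fun τ => if ∀ i, τ (a' i) = m' i then
          q ^ ((a 0 : ℕ) + m 0 - 2 * RR τ (a 0) (m 0)) * 1 else 0) ≤
        M * PM q N (fun σ => if ∀ i, σ (a' i) = m' i then 1 else 0) := by
      rw [← PM_mul]
      apply PM_mono hq
      intro τ
      split_ifs
      · rw [mul_one, mul_one]
        apply (hb _ _).1
        have := (a 0).2
        have := (m 0).2
        omega
      · simp
    have hqn : ((N : ℝ) + 1) / M ≤ qn q (N + 1) := by
      have h2 := (qn_bounds (q := q) (s := N + 1) (m := 1 / M) (M := M) (fun t ht => by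
        have h3 := (hb t (by omega)).2
        rw [div_le_iff₀ (by linarith)]
        linarith) (fun t ht => (hb t (by omega)).1)).1
      push_cast at h2
      calc ((N : ℝ) + 1) / M = ((N : ℝ) + 1) * (1 / M) := by ring
        _ ≤ _ := h2
    have hM0 : 0 < M := by linarith
    have hpos : 0 < ((N : ℝ) + 1) / M := by positivity
    have h4 : 1 / qn q (N + 1) ≤ M / ((N : ℝ) + 1) := by
      calc 1 / qn q (N + 1) ≤ 1 / (((N : ℝ) + 1) / M) := one_div_le_one_div_of_le hpos hqn
        _ = M / ((N : ℝ) + 1) := by rw [one_div_div]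
    have h5 : 0 ≤ PM q N (fun σ => if ∀ i, σ (a' i) = m' i then 1 else 0) :=
      PM_nonneg hq fun σ => by split_ifs <;> norm_num
    calc 1 / qn q (N + 1) * _ ≤ M / ((N : ℝ) + 1) *
          (M * PM q N (fun σ => if ∀ i, σ (a' i) = m' i then 1 else 0)) := by
          apply mul_le_mul h4 h1 _ (by positivity)
          apply PM_nonneg hq
          intro σ
          split_ifs
          · positivity
          · exact le_rfl
      _ ≤ M / ((N : ℝ) + 1) * (M * ((M ^ 2) ^ l * (((N - l).factorial : ℝ) /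
            (N.factorial : ℝ)))) := by gcongr
      _ = (M ^ 2) ^ (l + 1) * (((N + 1 - (l + 1)).factorial : ℝ) / ((N + 1).factorial : ℝ)) := by
          rw [Nat.add_sub_add_right, Nat.factorial_succ]
          push_cast
          field_simp
          ring

/-- the density of the limit of Mallows permutations -/
noncomputable def uB (β x y : ℝ) : ℝ :=
  Real.exp (-(β * (x + y))) / (eB β 1 * (1 - wB β x y) ^ 2)

lemma wB_lt_one {β x y : ℝ} (hx : 0 ≤ x) (hx1 : x ≤ 1) (hy : 0 ≤ y) (hy1 : y ≤ 1) :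
    0 < 1 - wB β x y := by
  unfold wB eB
  by_cases hβ : β = 0
  · simp [hβ]
  · simp only [hβ, if_false, mul_one]
    have h1 : β * ((1 - Real.exp (-(β * x))) / β) * ((1 - Real.exp (-(β * y))) / β) /
        ((1 - Real.exp (-β)) / β) =
        (1 - Real.exp (-(β * x))) * (1 - Real.exp (-(β * y))) / (1 - Real.exp (-β)) := by
      have : (1 - Real.exp (-β)) ≠ 0 := by
        intro h
        have : Real.exp (-β) = 1 := by linarith
        rw [Real.exp_eq_one_iff] at this
        exact hβ (by linarith)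
      field_simp
    rw [h1]
    rcases lt_or_gt_of_ne hβ with h | h
    · have e1 : 1 ≤ Real.exp (-(β * x)) := Real.one_le_exp (by nlinarith)
      have e2 : 1 ≤ Real.exp (-(β * y)) := Real.one_le_exp (by nlinarith)
      have e3 : 1 < Real.exp (-β) := Real.one_lt_exp_iff.2 (by linarith)
      have h2 : (1 - Real.exp (-(β * x))) * (1 - Real.exp (-(β * y))) / (1 - Real.exp (-β)) ≤ 0 :=
        div_nonpos_of_nonneg_of_nonpos (mul_nonneg_of_nonpos_of_nonpos (by linarith) (by linarith))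
          (by linarith)
      linarith
    · have e1 : Real.exp (-β) ≤ Real.exp (-(β * x)) := Real.exp_le_exp.2 (by nlinarith)
      have e2 : Real.exp (-β) ≤ Real.exp (-(β * y)) := Real.exp_le_exp.2 (by nlinarith)
      have e3 : Real.exp (-β) < 1 := Real.exp_lt_one_iff.2 (by linarith)
      have e4 : Real.exp (-(β * x)) ≤ 1 := Real.exp_le_one_iff.2 (by nlinarith)
      have e5 : Real.exp (-(β * y)) ≤ 1 := Real.exp_le_one_iff.2 (by nlinarith)
      have e6 : 0 < Real.exp (-β) := Real.exp_pos _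
      have h2 : (1 - Real.exp (-(β * x))) * (1 - Real.exp (-(β * y))) / (1 - Real.exp (-β)) < 1 := by
        rw [div_lt_one (by linarith)]
        nlinarith
      linarith

lemma near_inv_sq {A Y D c M : ℝ} (hD : 0 < D) (hM : 1 ≤ M) (hA0 : 0 ≤ A) (hA : A ≤ M)
    (hY : Y ≤ M) (hY' : 1 ≤ M * Y) :
    |A / Y ^ 2 - c / D ^ 2| ≤ M ^ 3 * (D + M) / D ^ 2 * |Y - D| + |A - c| / D ^ 2 := by
  have hY0 : 0 < Y := by
    by_contra h
    push Not at h
    nlinarith
  have h1 : A / Y ^ 2 - c / D ^ 2 = A * (D - Y) * (D + Y) / (Y ^ 2 * D ^ 2) + (A - c) / D ^ 2 := by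
    field_simp
    ring
  rw [h1]
  refine (abs_add_le _ _).trans (add_le_add ?_ ?_)
  · rw [abs_div, abs_mul, abs_mul, abs_of_nonneg hA0, abs_of_pos (by positivity : 0 < D + Y),
      abs_of_pos (by positivity : 0 < Y ^ 2 * D ^ 2), abs_sub_comm D Y]
    rw [div_mul_eq_mul_div, div_le_div_iff₀ (by positivity) (by positivity)]
    have h2 : 1 ≤ M ^ 2 * Y ^ 2 := by nlinarith
    have h3 : 0 ≤ |Y - D| := abs_nonneg _
    calc A * |Y - D| * (D + Y) * D ^ 2 ≤ M * |Y - D| * (D + M) * D ^ 2 := by gcongr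
      _ = (M * |Y - D| * (D + M) * D ^ 2) * 1 := by ring
      _ ≤ (M * |Y - D| * (D + M) * D ^ 2) * (M ^ 2 * Y ^ 2) := by
          apply mul_le_mul_of_nonneg_left h2
          positivity
      _ = M ^ 3 * (D + M) * |Y - D| * (Y ^ 2 * D ^ 2) := by ring
  · rw [abs_div, abs_of_pos (by positivity : 0 < D ^ 2)]

lemma pow_diff {q M : ℝ} {R R' n : ℕ} (hq : 0 < q) (hb : ∀ e ≤ n, q ^ e ≤ M) (hR : R ≤ n)
    (h1 : R' ≤ R + 1) (h2 : R ≤ R' + 2) : |q ^ R' - q ^ R| ≤ M * (|q - 1| + |q ^ 2 - 1|) := by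
  have hc : R' = R + 1 ∨ R' = R ∨ R = R' + 1 ∨ R = R' + 2 := by omega
  have a1 : 0 ≤ |q - 1| := abs_nonneg _
  have a2 : 0 ≤ |q ^ 2 - 1| := abs_nonneg _
  have hM : 0 ≤ M := le_trans (by positivity) (hb 0 (Nat.zero_le _))
  rcases hc with h | h | h | h
  · have h3 := hb R hR
    rw [h, show q ^ (R + 1) - q ^ R = q ^ R * (q - 1) by ring, abs_mul,
      abs_of_pos (pow_pos hq R)]
    calc q ^ R * |q - 1| ≤ M * |q - 1| := by gcongr
      _ ≤ _ := by nlinarith
  · rw [h, sub_self, abs_zero]; positivity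
  · have h3 := hb R' (by omega)
    rw [h, show q ^ R' - q ^ (R' + 1) = -(q ^ R' * (q - 1)) by ring, abs_neg, abs_mul,
      abs_of_pos (pow_pos hq R')]
    calc q ^ R' * |q - 1| ≤ M * |q - 1| := by gcongr
      _ ≤ _ := by nlinarith
  · have h3 := hb R' (by omega)
    rw [h, show q ^ R' - q ^ (R' + 2) = -(q ^ R' * (q ^ 2 - 1)) by ring, abs_neg, abs_mul,
      abs_of_pos (pow_pos hq R')]
    calc q ^ R' * |q ^ 2 - 1| ≤ M * |q ^ 2 - 1| := by gcongr
      _ ≤ _ := by nlinarith

end Pool.Agent.Lib.MP_264509_pr
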