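import Pool.Agent.Lib.MP_264509_pr.MalAsym

open Finset Equiv Filter
open scoped Topology

namespace Pool.Agent.Lib.MP_264509_pr

lemma ZM_pos {q : ℝ} (hq : 0 < q) (n : ℕ) : 0 < ZM q n :=
  Finset.sum_pos (fun σ _ => by positivity) Finset.univ_nonempty

lemma qn_pos {q : ℝ} (hq : 0 < q) {n : ℕ} (hn : 0 < n) : 0 < qn q n :=
  Finset.sum_pos (fun σ _ => by positivity) (Finset.nonempty_range_iff.2 hn.ne')

lemma qn_nonneg {q : ℝ} (hq : 0 < q) (n : ℕ) : 0 ≤ qn q n :=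
  Finset.sum_nonneg fun σ _ => by positivity

/-- the Mallows expectation -/
noncomputable def PM (q : ℝ) (n : ℕ) (f : Perm (Fin n) → ℝ) : ℝ :=
  (∑ σ, q ^ inv σ * f σ) / ZM q n

section

variable {q : ℝ} {n : ℕ}

lemma PM_add (f g : Perm (Fin n) → ℝ) : PM q n (fun σ => f σ + g σ) = PM q n f + PM q n g := by
  unfold PM
  rw [← add_div, ← Finset.sum_add_distrib]
  congr 1
  exact Finset.sum_congr rfl fun σ _ => by ring

lemma PM_mul (c : ℝ) (f : Perm (Fin n) → ℝ) : PM q n (fun σ => c * f σ) = c * PM q n f := by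
  unfold PM
  rw [← mul_div_assoc, Finset.mul_sum]
  congr 1
  exact Finset.sum_congr rfl fun σ _ => by ring

lemma PM_one (hq : 0 < q) : PM q n (fun _ => 1) = 1 := by
  unfold PM
  simp only [mul_one]
  exact div_self (ZM_pos hq n).ne'

lemma PM_mono (hq : 0 < q) {f g : Perm (Fin n) → ℝ} (h : ∀ σ, f σ ≤ g σ) :
    PM q n f ≤ PM q n g := by
  unfold PM
  apply div_le_div_of_nonneg_right _ (ZM_pos hq n).le
  exact Finset.sum_le_sum fun σ _ => mul_le_mul_of_nonneg_left (h σ) (by positivity)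

lemma PM_nonneg (hq : 0 < q) {f : Perm (Fin n) → ℝ} (h : ∀ σ, 0 ≤ f σ) : 0 ≤ PM q n f := by
  unfold PM
  apply div_nonneg _ (ZM_pos hq n).le
  exact Finset.sum_nonneg fun σ _ => mul_nonneg (by positivity) (h σ)

lemma PM_first {i j : ℕ} (hq : 0 < q) (hn : 1 ≤ n) (hi : i ≤ n) (hj : j ≤ n) :
    PM q n (fun σ => qn q (RR σ i j)) = qn q i * qn q j / qn q n := by
  obtain ⟨m, rfl⟩ : ∃ m, n = m + 1 := ⟨n - 1, by omega⟩
  have h1 := SF_first q m i j hi hj
  have h2 := ZM_succ q m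
  have h3 := ZM_pos hq m
  have h4 := qn_pos hq (show 0 < m + 1 by omega)
  unfold PM
  unfold SF at h1
  rw [h1, h2]
  field_simp

lemma PM_second {i j : ℕ} (hq : 0 < q) (hn : 2 ≤ n) (hi : i ≤ n) (hj : j ≤ n) :
    PM q n (fun σ => qn q (RR σ i j) * qn q (RR σ i j - 1)) =
      qn q i * qn q (i - 1) * (qn q j * qn q (j - 1)) / (qn q n * qn q (n - 1)) := by
  obtain ⟨m, rfl⟩ : ∃ m, n = m + 2 := ⟨n - 2, by omega⟩
  have h1 := SF_second q m i j hi hj
  have h2 := ZM_succ q m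
  have h2' := ZM_succ q (m + 1)
  have h3 := ZM_pos hq m
  have h4 := qn_pos hq (show 0 < m + 1 by omega)
  have h5 := qn_pos hq (show 0 < m + 2 by omega)
  have e1 : m + 2 - 1 = m + 1 := rfl
  unfold PM
  unfold SF at h1
  rw [e1, h1, show m + 2 = m + 1 + 1 from rfl, h2', h2]
  have e2 : m + 1 + 1 = m + 2 := rfl
  rw [e2]
  field_simp

lemma sq_qn (q : ℝ) (r : ℕ) : qn q r ^ 2 = qn q r + q * (qn q r * qn q (r - 1)) := by
  cases r with
  | zero => simp [qn_zero]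
  | succ r =>
    rw [Nat.add_sub_cancel]
    have := qn_succ q r
    rw [sq]
    nth_rewrite 2 [this]
    ring

lemma PM_sq {i j : ℕ} (w : ℝ) (hq : 0 < q) (hn : 2 ≤ n) (hi : i ≤ n) (hj : j ≤ n) :
    PM q n (fun σ => (q ^ RR σ i j - (1 - w)) ^ 2) =
      w ^ 2 + (-2 * w + (1 - q)) * ((1 - q) * qn q i * qn q j / qn q n) +
      q * ((1 - q) * qn q i * qn q j / qn q n) *
        ((1 - q) * qn q (i - 1) * qn q (j - 1) / qn q (n - 1)) := by
  have h1 : ∀ σ : Perm (Fin n), (q ^ RR σ i j - (1 - w)) ^ 2 =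
      w ^ 2 * 1 + ((-2 * w * (1 - q) + (1 - q) ^ 2) * qn q (RR σ i j) +
        ((1 - q) ^ 2 * q) * (qn q (RR σ i j) * qn q (RR σ i j - 1))) := by
    intro σ
    have h2 := one_sub_mul_qn q (RR σ i j)
    have h3 : q ^ RR σ i j = 1 - (1 - q) * qn q (RR σ i j) := by rw [h2]; ring
    rw [h3]
    have h4 := sq_qn q (RR σ i j)
    linear_combination (1 - q) ^ 2 * h4
  simp only [h1]
  rw [PM_add, PM_add, PM_mul, PM_mul, PM_mul, PM_one hq, PM_first hq (by omega) hi hj,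
    PM_second hq hn hi hj]
  have h5 := (qn_pos hq (show 0 < n by omega)).ne'
  have h6 := (qn_pos hq (show 0 < n - 1 by omega)).ne'
  field_simp
  ring

end

section

variable {β : ℝ} {n : ℕ → ℕ} {q : ℕ → ℝ}

lemma Reg.n_ge (H : Reg β n q) (c : ℕ) : ∀ᶠ k in atTop, c ≤ n k :=
  H.n_top.eventually (eventually_ge_atTop c)

lemma Reg.self_ratio (H : Reg β n q) : Tendsto (fun k => (n k : ℝ) / (n k : ℝ)) atTop (𝓝 1) := by
  refine tendsto_const_nhds.congr' ?_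
  filter_upwards [H.cast_top.eventually (eventually_gt_atTop 0)] with k hk
  rw [div_self hk.ne']

lemma Reg.sq_lim (H : Reg β n q) {i j : ℕ → ℕ} {x y : ℝ} (hin : ∀ k, i k ≤ n k)
    (hjn : ∀ k, j k ≤ n k)
    (hi : Tendsto (fun k => (i k : ℝ) / (n k : ℝ)) atTop (𝓝 x))
    (hj : Tendsto (fun k => (j k : ℝ) / (n k : ℝ)) atTop (𝓝 y)) :
    Tendsto (fun k => PM (q k) (n k) fun σ => (q k ^ RR σ (i k) (j k) - (1 - wB β x y)) ^ 2)
      atTop (𝓝 0) := by
  set w := wB β x y with hw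
  have hA := H.A_lim hi hj H.self_ratio
  have hA' := H.A_lim (tendsto_pred H.n_top hi) (tendsto_pred H.n_top hj)
    (tendsto_pred H.n_top H.self_ratio)
  have h1 : Tendsto (fun k => w ^ 2 + (-2 * w + (1 - q k)) *
      ((1 - q k) * qn (q k) (i k) * qn (q k) (j k) / qn (q k) (n k)) +
      q k * ((1 - q k) * qn (q k) (i k) * qn (q k) (j k) / qn (q k) (n k)) *
        ((1 - q k) * qn (q k) (i k - 1) * qn (q k) (j k - 1) / qn (q k) (n k - 1))) atTop
      (𝓝 (w ^ 2 + (-2 * w + (1 - 1)) * w + 1 * w * w)) := by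
    apply Tendsto.add
    · apply Tendsto.add tendsto_const_nhds
      apply Tendsto.mul _ hA
      exact tendsto_const_nhds.add (tendsto_const_nhds.sub H.q_one)
    · exact (H.q_one.mul hA).mul hA'
  have h2 : w ^ 2 + (-2 * w + (1 - 1)) * w + 1 * w * w = 0 := by ring
  rw [h2] at h1
  refine h1.congr' ?_
  filter_upwards [H.n_ge 2] with k hk
  rw [PM_sq w (H.q_pos k) hk (hin k) (hjn k)]

lemma tendsto_min {i : ℕ → ℕ} {x : ℝ} (H : Reg β n q) (hx : x ≤ 1)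
    (hi : Tendsto (fun k => (i k : ℝ) / (n k : ℝ)) atTop (𝓝 x)) :
    Tendsto (fun k => ((min (i k) (n k) : ℕ) : ℝ) / (n k : ℝ)) atTop (𝓝 x) := by
  have h1 := hi.min (tendsto_const_nhds (x := (1 : ℝ)))
  rw [min_eq_left hx] at h1
  refine h1.congr' ?_
  filter_upwards [H.cast_top.eventually (eventually_gt_atTop 0)] with k hk
  rw [Nat.cast_min, ← min_div_div_right hk.le, div_self hk.ne']

theorem Reg.lln (H : Reg β n q) {i j : ℕ → ℕ} {x y : ℝ} (hx : x ≤ 1) (hy : y ≤ 1)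
    (hi : Tendsto (fun k => (i k : ℝ) / (n k : ℝ)) atTop (𝓝 x))
    (hj : Tendsto (fun k => (j k : ℝ) / (n k : ℝ)) atTop (𝓝 y)) :
    Tendsto (fun k => PM (q k) (n k) fun σ => |q k ^ RR σ (i k) (j k) - (1 - wB β x y)|)
      atTop (𝓝 0) := by
  have h1 := H.sq_lim (fun k => min_le_right (i k) (n k)) (fun k => min_le_right (j k) (n k))
    (tendsto_min H hx hi) (tendsto_min H hy hj)
  simp only [RR_min] at h1
  rw [Metric.tendsto_atTop] at h1 ⊢
  intro ε hε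
  obtain ⟨N, hN⟩ := h1 (ε ^ 2) (by positivity)
  refine ⟨N, fun k hk => ?_⟩
  have h2 := hN k hk
  rw [Real.dist_eq, sub_zero] at h2 ⊢
  have h3 : 0 ≤ PM (q k) (n k) fun σ => |q k ^ RR σ (i k) (j k) - (1 - wB β x y)| :=
    PM_nonneg (H.q_pos k) fun σ => abs_nonneg _
  rw [abs_of_nonneg h3]
  have h4 : (PM (q k) (n k) fun σ => |q k ^ RR σ (i k) (j k) - (1 - wB β x y)|) ≤
      PM (q k) (n k) (fun σ => ε / 2 * 1 + 1 / (2 * ε) *
        (q k ^ RR σ (i k) (j k) - (1 - wB β x y)) ^ 2) := by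
    apply PM_mono (H.q_pos k)
    intro σ
    set u := q k ^ RR σ (i k) (j k) - (1 - wB β x y)
    have h5 : 0 ≤ (|u| - ε) ^ 2 := sq_nonneg _
    have h6 : |u| ^ 2 = u ^ 2 := sq_abs u
    have h7 : ε / 2 * 1 + 1 / (2 * ε) * u ^ 2 - |u| = (|u| - ε) ^ 2 / (2 * ε) := by
      rw [← h6]; field_simp; ring
    have h8 : 0 ≤ (|u| - ε) ^ 2 / (2 * ε) := by positivity
    linarith
  rw [PM_add, PM_mul, PM_mul, PM_one (H.q_pos k)] at h4
  have h9 := lt_of_le_of_lt (le_abs_self _) h2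
  calc _ ≤ _ := h4
    _ < ε / 2 * 1 + 1 / (2 * ε) * ε ^ 2 := by gcongr
    _ = ε := by field_simp; ring

end

end Pool.Agent.Lib.MP_264509_pr
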