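import Pool.Agent.Lib.MP_264509_pr.MalInd

open Finset Equiv Filter
open scoped Topology

namespace Pool.Agent.Lib.MP_264509_pr

/-- the probability that `σ (a i) = m i` for all `i`, with a functional -/
noncomputable def HM (q : ℝ) {n l : ℕ} (a m : Fin l → Fin n) (G : Perm (Fin n) → ℝ) : ℝ :=
  PM q n fun σ => if ∀ i, σ (a i) = m i then G σ else 0

lemma HM_mono {q : ℝ} (hq : 0 < q) {n l : ℕ} {a m : Fin l → Fin n} {F G : Perm (Fin n) → ℝ}
    (h : ∀ σ, F σ ≤ G σ) : HM q a m F ≤ HM q a m G := by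
  apply PM_mono hq
  intro σ
  split_ifs
  · exact h σ
  · exact le_rfl

lemma HM_nonneg {q : ℝ} (hq : 0 < q) {n l : ℕ} {a m : Fin l → Fin n} {F : Perm (Fin n) → ℝ}
    (h : ∀ σ, 0 ≤ F σ) : 0 ≤ HM q a m F := by
  apply PM_nonneg hq
  intro σ
  split_ifs
  · exact h σ
  · exact le_rfl

lemma HM_add {q : ℝ} {n l : ℕ} {a m : Fin l → Fin n} (F G : Perm (Fin n) → ℝ) :
    HM q a m (fun σ => F σ + G σ) = HM q a m F + HM q a m G := by
  unfold HM
  rw [← PM_add]
  congr 1
  funext σ
  split_ifs <;> simp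

lemma HM_mul {q : ℝ} {n l : ℕ} {a m : Fin l → Fin n} (c : ℝ) (F : Perm (Fin n) → ℝ) :
    HM q a m (fun σ => c * F σ) = c * HM q a m F := by
  unfold HM
  rw [← PM_mul]
  congr 1
  funext σ
  split_ifs <;> simp

lemma HM_abs {q : ℝ} (hq : 0 < q) {n l : ℕ} {a m : Fin l → Fin n} (F : Perm (Fin n) → ℝ) :
    |HM q a m F| ≤ HM q a m fun σ => |F σ| := by
  rw [abs_le]
  constructor
  · have h1 : HM q a m (fun σ => (-1) * |F σ|) ≤ HM q a m F :=
      HM_mono hq fun σ => by have := neg_abs_le (F σ); linarith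
    rw [HM_mul] at h1
    linarith
  · exact HM_mono hq fun σ => le_abs_self _

theorem mal_lim {β : ℝ} : ∀ (l : ℕ) {n : ℕ → ℕ} {q : ℕ → ℝ}, Reg β n q →
    ∀ (a m : ∀ k, Fin l → Fin (n k + l)), (∀ k, Function.Injective (a k)) →
    (∀ k, Function.Injective (m k)) → ∀ (x y : Fin l → ℝ),
    (∀ i, 0 ≤ x i ∧ x i ≤ 1) → (∀ i, 0 ≤ y i ∧ y i ≤ 1) →
    (∀ i, Tendsto (fun k => ((a k i : ℕ) : ℝ) / (n k : ℝ)) atTop (𝓝 (x i))) →
    (∀ i, Tendsto (fun k => ((m k i : ℕ) : ℝ) / (n k : ℝ)) atTop (𝓝 (y i))) →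
    Tendsto (fun k => (n k : ℝ) ^ l * HM (q k) (a k) (m k) fun _ => 1) atTop
      (𝓝 (∏ i, uB β (x i) (y i))) ∧
    ∀ (i j : ℕ → ℕ) (x' y' : ℝ), x' ≤ 1 → y' ≤ 1 →
      Tendsto (fun k => (i k : ℝ) / (n k : ℝ)) atTop (𝓝 x') →
      Tendsto (fun k => (j k : ℝ) / (n k : ℝ)) atTop (𝓝 y') →
      Tendsto (fun k => (n k : ℝ) ^ l * HM (q k) (a k) (m k)
        fun σ => |q k ^ RR σ (i k) (j k) - (1 - wB β x' y')|) atTop (𝓝 0)
  | 0, n, q, H, a, m, ha, hm, x, y, hx, hy, hax, hmy => by
    have h0 : ∀ (k : ℕ) (F : Perm (Fin (n k)) → ℝ), HM (q k) (n := n k) (a k) (m k) F =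
        PM (q k) (n k) F := by
      intro k F
      unfold HM
      congr 1
    constructor
    · have h1 : ∀ k, (n k : ℝ) ^ 0 * HM (q k) (a k) (m k) (fun _ => 1) = 1 := by
        intro k
        rw [pow_zero, one_mul]
        exact (h0 k _).trans (PM_one (H.q_pos k))
      simp only [h1, Finset.univ_eq_empty, Finset.prod_empty]
      exact tendsto_const_nhds
    · intro i j x' y' hx' hy' hi hj
      refine (H.lln hx' hy' hi hj).congr fun k => ?_
      rw [pow_zero, one_mul]
      exact (h0 k _).symm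
  | l + 1, n, q, H, a, m, ha, hm, x, y, hx, hy, hax, hmy => by
    have hpeel := fun k => peel (q := q k) (N := n k + l) (a k) (m k) (ha k) (hm k)
    choose a' m' ha' hm' haa hmm hpeel using hpeel
    have hlim' : ∀ (b : ℕ → ℕ) (b' : ℕ → ℕ) (z : ℝ), (∀ k, b' k ≤ b k ∧ b k ≤ b' k + 1) →
        Tendsto (fun k => (b k : ℝ) / (n k : ℝ)) atTop (𝓝 z) →
        Tendsto (fun k => (b' k : ℝ) / (n k : ℝ)) atTop (𝓝 z) := by
      intro b b' z hb hz
      have h1 : Tendsto (fun k => (1 : ℝ) / (n k : ℝ)) atTop (𝓝 0) :=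
        tendsto_const_nhds.div_atTop H.cast_top
      have h2 := hz.sub h1
      rw [sub_zero] at h2
      refine tendsto_of_tendsto_of_tendsto_of_le_of_le h2 hz ?_ ?_
      · intro k
        change (b k : ℝ) / (n k : ℝ) - 1 / (n k : ℝ) ≤ (b' k : ℝ) / (n k : ℝ)
        rw [← sub_div]
        apply div_le_div_of_nonneg_right _ (Nat.cast_nonneg _)
        have : (b k : ℝ) ≤ (b' k : ℝ) + 1 := by exact_mod_cast (hb k).2
        linarith
      · intro k
        change (b' k : ℝ) / (n k : ℝ) ≤ (b k : ℝ) / (n k : ℝ)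
        apply div_le_div_of_nonneg_right _ (Nat.cast_nonneg _)
        exact_mod_cast (hb k).1
    have ih := mal_lim l H a' m' ha' hm' (fun i => x i.succ) (fun i => y i.succ)
      (fun i => hx i.succ) (fun i => hy i.succ)
      (fun i => hlim' _ _ _ (fun k => haa k i) (hax i.succ))
      (fun i => hlim' _ _ _ (fun k => hmm k i) (hmy i.succ))
    obtain ⟨ih1, ih2⟩ := ih
    obtain ⟨M, hM, hb⟩ := H.bound 4
    have hM0 : 0 < M := by linarith
    -- the ratio of the partition functions
    have hself : Tendsto (fun k => ((n k + l + 1 : ℕ) : ℝ) / (n k : ℝ)) atTop (𝓝 1) := by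
      have h1 := (tendsto_ratio_shift H.n_top (l + 1)).inv₀ one_ne_zero
      rw [inv_one] at h1
      refine h1.congr fun k => ?_
      rw [inv_div]
      congr 1
    have hZ : Tendsto (fun k => (n k : ℝ) * (1 / qn (q k) (n k + l + 1))) atTop
        (𝓝 (1 / eB β 1)) := by
      have h1 := (H.qn_lim hself).inv₀ (eB_one_pos β).ne'
      rw [one_div]
      refine h1.congr fun k => ?_
      rw [inv_div]; ring
    -- the exponents are bounded
    have hexp : ∀ᶠ k in atTop, l + 1 ≤ n k ∧ ∀ e ≤ 4 * n k, q k ^ e ≤ M ∧ 1 ≤ M * q k ^ e := by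
      filter_upwards [hb, H.n_ge (l + 1)] with k h1 h2 using ⟨h2, h1⟩
    have hform : ∀ (k : ℕ) (G : Perm (Fin (n k + l + 1)) → ℝ),
        (n k : ℝ) ^ (l + 1) * HM (q k) (n := n k + l + 1) (a k) (m k) G =
        ((n k : ℝ) * (1 / qn (q k) (n k + l + 1))) * ((n k : ℝ) ^ l *
          HM (q k) (a' k) (m' k) fun τ =>
            q k ^ ((a k 0 : ℕ) + m k 0 - 2 * RR τ (a k 0) (m k 0)) *
              G (insP (a k 0) (m k 0) τ)) := by
      intro k G
      have h1 := hpeel k G
      unfold HM
      rw [h1]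
      ring
    constructor
    · -- the probabilities
      set D := 1 - wB β (x 0) (y 0) with hD
      have hD0 : 0 < D := wB_lt_one (hx 0).1 (hx 0).2 (hy 0).1 (hy 0).2
      set c := Real.exp (-(β * (x 0 + y 0))) with hc
      have hA : Tendsto (fun k => q k ^ ((a k 0 : ℕ) + (m k 0 : ℕ))) atTop (𝓝 c) := by
        apply H.pow_lim
        have := (hax 0).add (hmy 0)
        refine this.congr fun k => ?_
        push_cast
        rw [add_div]
      have hmain : Tendsto (fun k => (n k : ℝ) ^ l * HM (q k) (a' k) (m' k) fun τ =>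
          q k ^ ((a k 0 : ℕ) + m k 0 - 2 * RR τ (a k 0) (m k 0))) atTop
          (𝓝 (c / D ^ 2 * ∏ i : Fin l, uB β (x i.succ) (y i.succ))) := by
        have h1 := ih1.const_mul (c / D ^ 2)
        have h2 := ih2 (fun k => (a k 0 : ℕ)) (fun k => (m k 0 : ℕ)) (x 0) (y 0) (hx 0).2 (hy 0).2
          (hax 0) (hmy 0)
        have h3 : Tendsto (fun k => |q k ^ ((a k 0 : ℕ) + (m k 0 : ℕ)) - c| / D ^ 2) atTop
            (𝓝 0) := by
          have h4 := (hA.sub_const c).abs.div_const (D ^ 2)
          rwa [sub_self, abs_zero, zero_div] at h4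
        have h5 := (h2.const_mul (M ^ 3 * (D + M) / D ^ 2)).add (h3.mul ih1)
        rw [mul_zero, zero_mul, add_zero] at h5
        have h6 : Tendsto (fun k => ((n k : ℝ) ^ l * HM (q k) (a' k) (m' k) fun τ =>
            q k ^ ((a k 0 : ℕ) + m k 0 - 2 * RR τ (a k 0) (m k 0))) -
            c / D ^ 2 * ((n k : ℝ) ^ l * HM (q k) (a' k) (m' k) fun _ => 1)) atTop (𝓝 0) := by
          apply squeeze_zero_norm' _ h5
          filter_upwards [hexp] with k hk
          obtain ⟨hk1, hk2⟩ := hk
          have hn0 : (0 : ℝ) ≤ (n k : ℝ) ^ l := by positivity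
          have ha0 := (a k 0).2
          have hm0 := (m k 0).2
          have e1 : ((n k : ℝ) ^ l * HM (q k) (a' k) (m' k) fun τ =>
              q k ^ ((a k 0 : ℕ) + m k 0 - 2 * RR τ (a k 0) (m k 0))) -
              c / D ^ 2 * ((n k : ℝ) ^ l * HM (q k) (a' k) (m' k) fun _ => 1) =
              (n k : ℝ) ^ l * HM (q k) (a' k) (m' k) fun τ =>
                q k ^ ((a k 0 : ℕ) + m k 0 - 2 * RR τ (a k 0) (m k 0)) +
                  (-(c / D ^ 2)) * 1 := by
            rw [HM_add, HM_mul]; ring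
          rw [e1, Real.norm_eq_abs, abs_mul, abs_of_nonneg hn0]
          have e2 : ∀ τ : Perm (Fin (n k + l)),
              |q k ^ ((a k 0 : ℕ) + m k 0 - 2 * RR τ (a k 0) (m k 0)) + (-(c / D ^ 2)) * 1| ≤
              M ^ 3 * (D + M) / D ^ 2 * |q k ^ RR τ (a k 0) (m k 0) - D| +
                |q k ^ ((a k 0 : ℕ) + (m k 0 : ℕ)) - c| / D ^ 2 * 1 := by
            intro τ
            have r1 := RR_le_left τ (a k 0) (m k 0)
            have r2 := RR_le_right τ (a k 0) (m k 0)
            have e3 : q k ^ ((a k 0 : ℕ) + m k 0 - 2 * RR τ (a k 0) (m k 0)) =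
                q k ^ ((a k 0 : ℕ) + (m k 0 : ℕ)) / (q k ^ RR τ (a k 0) (m k 0)) ^ 2 := by
              rw [eq_div_iff (by have := H.q_pos k; positivity), ← pow_mul, ← pow_add]
              congr 1
              omega
            have hq := H.q_pos k
            have b1 := hk2 ((a k 0 : ℕ) + (m k 0 : ℕ)) (by omega)
            have b2 := hk2 (RR τ (a k 0) (m k 0)) (by omega)
            rw [e3, mul_one, mul_one, ← sub_eq_add_neg]
            exact near_inv_sq hD0 hM (by positivity) b1.1 b2.1 b2.2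
          calc (n k : ℝ) ^ l * _ ≤ (n k : ℝ) ^ l * HM (q k) (a' k) (m' k) fun τ =>
                (M ^ 3 * (D + M) / D ^ 2 * |q k ^ RR τ (a k 0) (m k 0) - D| +
                |q k ^ ((a k 0 : ℕ) + (m k 0 : ℕ)) - c| / D ^ 2 * 1) := by
                apply mul_le_mul_of_nonneg_left _ hn0
                exact (HM_abs (H.q_pos k) _).trans (HM_mono (H.q_pos k) e2)
            _ = _ := by
                rw [HM_add, HM_mul, HM_mul]; ring
        have h7 := h6.add h1
        rw [zero_add] at h7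
        refine h7.congr fun k => ?_
        ring
      have h8 := hZ.mul hmain
      have h9 : 1 / eB β 1 * (c / D ^ 2 * ∏ i : Fin l, uB β (x i.succ) (y i.succ)) =
          ∏ i, uB β (x i) (y i) := by
        rw [Fin.prod_univ_succ, uB, ← hc, ← hD]
        have := (eB_one_pos β).ne'
        field_simp
      rw [h9] at h8
      refine h8.congr fun k => ?_
      have h10 := hform k fun _ => 1
      simp only [mul_one] at h10
      exact h10.symm
    · -- the conditional law of large numbers
      intro i j x' y' hx' hy' hi hj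
      set D := 1 - wB β x' y' with hD
      have h2 := ih2 i j x' y' hx' hy' hi hj
      have hδ : Tendsto (fun k => M * (|q k - 1| + |q k ^ 2 - 1|)) atTop (𝓝 0) := by
        have h3 : Tendsto (fun k => M * (|q k - 1| + |q k ^ 2 - 1|)) atTop
            (𝓝 (M * (|1 - 1| + |(1 : ℝ) ^ 2 - 1|))) :=
          (((H.q_one.sub_const 1).abs).add (((H.q_one.pow 2).sub_const 1).abs)).const_mul M
        simpa using h3
      have h4 := (hZ.mul ((h2.add (hδ.mul ih1)).const_mul M))
      rw [zero_mul, add_zero, mul_zero, mul_zero] at h4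
      refine tendsto_of_tendsto_of_tendsto_of_le_of_le' tendsto_const_nhds h4 ?_ ?_
      · refine Eventually.of_forall fun k => ?_
        exact mul_nonneg (by positivity) (HM_nonneg (H.q_pos k) fun σ => abs_nonneg _)
      · filter_upwards [hexp] with k hk
        obtain ⟨hk1, hk2⟩ := hk
        have hq := H.q_pos k
        have ha0 := (a k 0).2
        have hm0 := (m k 0).2
        have h10 := hform k fun σ => |q k ^ RR σ (i k) (j k) - D|
        refine le_trans (le_of_eq h10) ?_
        have hqn := qn_pos hq (show 0 < n k + l + 1 by omega)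
        apply mul_le_mul_of_nonneg_left _ (by positivity)
        calc (n k : ℝ) ^ l * HM (q k) (a' k) (m' k) (fun τ =>
              q k ^ ((a k 0 : ℕ) + m k 0 - 2 * RR τ (a k 0) (m k 0)) *
                |q k ^ RR (insP (a k 0) (m k 0) τ) (i k) (j k) - D|)
            ≤ (n k : ℝ) ^ l * HM (q k) (a' k) (m' k) (fun τ =>
              M * (|q k ^ RR τ (i k) (j k) - D| + (M * (|q k - 1| + |q k ^ 2 - 1|)) * 1)) := by
              apply mul_le_mul_of_nonneg_left _ (by positivity)
              apply HM_mono hq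
              intro τ
              have b1 := (hk2 ((a k 0 : ℕ) + m k 0 - 2 * RR τ (a k 0) (m k 0)) (by omega)).1
              have r1 := RR_insP_le (a k 0) (m k 0) τ (i k) (j k)
              have r2 := le_RR_insP (a k 0) (m k 0) τ (i k) (j k)
              have r3 := RR_le_card τ (i k) (j k)
              have b2 := pow_diff hq (n := n k + l) (M := M) (fun e he => (hk2 e (by omega)).1)
                r3 r1 r2
              have b3 : |q k ^ RR (insP (a k 0) (m k 0) τ) (i k) (j k) - D| ≤
                  |q k ^ RR τ (i k) (j k) - D| + (M * (|q k - 1| + |q k ^ 2 - 1|)) * 1 := by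
                have e4 : q k ^ RR (insP (a k 0) (m k 0) τ) (i k) (j k) - D =
                    (q k ^ RR τ (i k) (j k) - D) +
                    (q k ^ RR (insP (a k 0) (m k 0) τ) (i k) (j k) -
                      q k ^ RR τ (i k) (j k)) := by ring
                rw [e4, mul_one]
                exact (abs_add_le _ _).trans (add_le_add le_rfl b2)
              exact mul_le_mul b1 b3 (abs_nonneg _) hM0.le
          _ = M * ((n k : ℝ) ^ l * HM (q k) (a' k) (m' k) (fun τ =>
                |q k ^ RR τ (i k) (j k) - D|) +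
                M * (|q k - 1| + |q k ^ 2 - 1|) * ((n k : ℝ) ^ l *
                  HM (q k) (a' k) (m' k) fun _ => 1)) := by
              rw [HM_mul, HM_add, HM_mul]; ring

end Pool.Agent.Lib.MP_264509_pr
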