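import Pool.Agent.Lib.MP_264509_pr.MalLim
import Pool.Agent.Lib.MP_264509_pr.EwensModel

open Finset Equiv Filter MeasureTheory
open scoped Topology ENNReal

namespace Pool.Agent.Lib.MP_264509_pr

lemma inv_symm {n : ℕ} (σ : Perm (Fin n)) : inv σ.symm = inv σ := by
  rw [inv_eq_sum, inv_eq_sum, ← Equiv.sum_comp σ]
  have h1 : ∀ u : Fin n, (∑ t : Fin n, if σ u < t ∧ σ.symm t < σ.symm (σ u) then 1 else 0) =
      ∑ v : Fin n, if σ u < σ v ∧ v < u then 1 else 0 := by
    intro u
    rw [← Equiv.sum_comp σ]
    simp only [Equiv.symm_apply_apply]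
  simp only [h1]
  rw [Finset.sum_comm]
  apply Finset.sum_congr rfl
  intro s _
  apply Finset.sum_congr rfl
  intro t _
  simp only [and_comm]

/-- the Mallows probabilities -/
noncomputable def pM (q : ℕ → ℝ) (n : ℕ) (π : Perm (Fin n)) : ℝ :=
  mallowsWeight (q n) n π / ∑ π', mallowsWeight (q n) n π'

lemma sum_mallows (q : ℕ → ℝ) (n : ℕ) : ∑ π', mallowsWeight (q n) n π' = ZM (q n) n := rfl

lemma pat_mallows (q : ℕ → ℝ) {n l : ℕ} (a m : Fin l → Fin n) :
    pat (pM q n) a m = HM (q n) a m fun _ => 1 := by
  unfold pat pM HM PM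
  rw [sum_mallows, Finset.sum_div, ← sum_symm]
  apply Finset.sum_congr rfl
  intro σ _
  rw [Equiv.symm_symm]
  by_cases h : ∀ i, σ (a i) = m i
  · simp only [h, implies_true, if_true, mul_one, mallowsWeight, inv_symm]
  · simp only [h, if_false, mul_zero, zero_div]

/-- the densities of the marks in the Mallows case -/
noncomputable def rhoM (β : ℝ) : Lab → ℝ → ℝ
  | .disp _ => mallowsDiag β
  | .stack _ => mallowsFront β

lemma one_sub_exp_ne {β : ℝ} (hβ : β ≠ 0) : 1 - Real.exp (-β) ≠ 0 := by
  intro h
  have : Real.exp (-β) = 1 := by linarith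
  rw [Real.exp_eq_one_iff] at this
  exact hβ (by linarith)

lemma uB_front (β x : ℝ) : uB β x 0 = mallowsFront β x := by
  unfold uB mallowsFront wB eB
  split_ifs with h
  · simp [h]
  · have h1 := one_sub_exp_ne h
    simp only [mul_zero, neg_zero, Real.exp_zero, sub_self, zero_div, sub_zero, one_pow, mul_one,
      add_zero]
    field_simp

lemma uB_diag {β x : ℝ} (hx : x ∈ Set.Ioo (0 : ℝ) 1) : uB β x x = mallowsDiag β x := by
  have hD := wB_lt_one (β := β) hx.1.le hx.2.le hx.1.le hx.2.le
  unfold uB mallowsDiag
  unfold wB eB at *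
  split_ifs with h
  · simp [h]
  · simp only [h, if_false, mul_one] at hD
    have h1 := one_sub_exp_ne h
    have e1 : Real.exp (-(β * (x + x))) = Real.exp (-(β * x)) ^ 2 := by
      rw [← Real.exp_nat_mul]; congr 1; push_cast; ring
    have e2 : Real.exp (-(β * (1 - x))) = Real.exp (-β) / Real.exp (-(β * x)) := by
      rw [← Real.exp_sub]; congr 1; ring
    have hz : 0 < Real.exp (-(β * x)) := Real.exp_pos _
    rw [e1, e2]
    simp only [mul_one]
    set z := Real.exp (-(β * x))
    set E := Real.exp (-β)
    have h3 : 1 - β * ((1 - z) / β) * ((1 - z) / β) / ((1 - E) / β) =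
        (2 * z - z ^ 2 - E) / (1 - E) := by
      field_simp; ring
    have h4 : 2 - z - E / z = (2 * z - z ^ 2 - E) / z := by
      field_simp
    have h5 : 2 * z - z ^ 2 - E ≠ 0 := by
      intro h6
      rw [h3, h6, zero_div] at hD
      exact lt_irrefl _ hD
    rw [h3, h4]
    field_simp

/-- the regime of the parameters -/
lemma reg_id {β : ℝ} {q : ℕ → ℝ} (hq : ∀ n, 0 < q n)
    (hlim : Tendsto (fun n : ℕ => (n : ℝ) * (1 - q n)) atTop (𝓝 β)) : Reg β (fun n => n) q :=
  ⟨tendsto_id, hq, hlim⟩

theorem mallows_model {β : ℝ} {q : ℕ → ℝ} (hq : ∀ n, 0 < q n)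
    (hlim : Tendsto (fun n : ℕ => (n : ℝ) * (1 - q n)) atTop (𝓝 β)) : Model (pM q) (rhoM β) where
  nonneg n π := by
    unfold pM
    rw [sum_mallows]
    have := ZM_pos (hq n) n
    have := hq n
    unfold mallowsWeight
    positivity
  sum_one n := by
    unfold pM
    rw [← Finset.sum_div, sum_mallows, div_self (ZM_pos (hq n) n).ne']
  bound := by
    obtain ⟨M, hM, hb⟩ := (reg_id hq hlim).bound 2
    refine ⟨M ^ 2, by positivity, ?_⟩
    filter_upwards [hb] with n hn l a m ha hm
    rw [pat_mallows]
    exact hit_bound (hq n) hM hn l n a m le_rfl ha hm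
  lim := by
    intro l v x hv hinj hx n hn a m ha hm hlim' hrel
    have hln : ∀ k, l ≤ n k := by
      intro k
      have := Fintype.card_le_of_injective _ (ha k)
      simpa using this
    obtain ⟨N, rfl⟩ : ∃ N : ℕ → ℕ, n = fun k => N k + l :=
      ⟨fun k => n k - l, by
        funext k
        have := hln k
        change n k = n k - l + l
        omega⟩
    have hN : Tendsto N atTop atTop := by
      rw [tendsto_atTop] at hn ⊢
      intro b
      filter_upwards [hn (b + l)] with k hk
      omega
    have hN' : Tendsto (fun k => (N k : ℝ)) atTop atTop := tendsto_natCast_atTop_atTop.comp hN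
    have hq1 : Tendsto (fun k => q (N k + l)) atTop (𝓝 1) := (reg_id hq hlim).q_one.comp hn
    have hR : Reg β N (fun k => q (N k + l)) := by
      refine ⟨hN, fun k => hq _, ?_⟩
      have h1 : Tendsto (fun k => ((N k + l : ℕ) : ℝ) * (1 - q (N k + l))) atTop (𝓝 β) :=
        hlim.comp hn
      have h2 : Tendsto (fun k => (l : ℝ) * (1 - q (N k + l))) atTop (𝓝 (l * (1 - 1))) :=
        (tendsto_const_nhds.sub hq1).const_mul _
      have h3 := h1.sub h2
      rw [sub_self, mul_zero, sub_zero] at h3
      refine h3.congr fun k => ?_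
      push_cast; ring
    have hratio : Tendsto (fun k => ((N k + l : ℕ) : ℝ) / (N k : ℝ)) atTop (𝓝 1) := by
      have h1 := (tendsto_ratio_shift hN l).inv₀ one_ne_zero
      rw [inv_one] at h1
      refine h1.congr fun k => ?_
      rw [inv_div]
    have ha' : ∀ i, Tendsto (fun k => ((a k i : ℕ) : ℝ) / (N k : ℝ)) atTop (𝓝 (x i)) := by
      intro i
      have h1 := (hlim' i).mul hratio
      rw [mul_one] at h1
      refine h1.congr' ?_
      filter_upwards [hN'.eventually (eventually_gt_atTop 0)] with k hk
      have : (0 : ℝ) < ((N k + l : ℕ) : ℝ) := by push_cast; positivity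
      field_simp
    set y : Fin l → ℝ := fun i => match v i with
      | .disp _ => x i
      | .stack _ => 0 with hy
    have hm' : ∀ i, Tendsto (fun k => ((m k i : ℕ) : ℝ) / (N k : ℝ)) atTop (𝓝 (y i)) := by
      intro i
      cases hvi : v i with
      | disp d =>
        have hyi : y i = x i := by simp only [hy, hvi]
        rw [hyi]
        have h0 : Tendsto (fun k => (d : ℝ) / (N k : ℝ)) atTop (𝓝 0) :=
          tendsto_const_nhds.div_atTop hN'
        have h1 := (ha' i).sub h0
        rw [sub_zero] at h1
        refine h1.congr fun k => ?_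
        have h2 := hrel k i
        rw [hvi] at h2
        simp only [PosRel] at h2
        rw [← sub_div]
        congr 1
        have h3 : ((a k i : ℕ) : ℝ) - ((m k i : ℕ) : ℝ) = (d : ℝ) := by exact_mod_cast h2
        linarith
      | stack j =>
        have hyi : y i = 0 := by simp only [hy, hvi]
        rw [hyi]
        have h0 : Tendsto (fun k => (j : ℝ) / (N k : ℝ)) atTop (𝓝 0) :=
          tendsto_const_nhds.div_atTop hN'
        refine h0.congr fun k => ?_
        have h2 := hrel k i
        rw [hvi] at h2
        simp only [PosRel] at h2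
        rw [h2]
    have hy01 : ∀ i, 0 ≤ y i ∧ y i ≤ 1 := by
      intro i
      cases hvi : v i with
      | disp d =>
        have hyi : y i = x i := by simp only [hy, hvi]
        rw [hyi]; exact ⟨(hx i).1.le, (hx i).2.le⟩
      | stack j =>
        have hyi : y i = 0 := by simp only [hy, hvi]
        rw [hyi]; norm_num
    have h1 := (mal_lim l hR a m ha hm x y (fun i => ⟨(hx i).1.le, (hx i).2.le⟩) hy01 ha' hm').1
    have h2 := h1.mul (hratio.pow l)
    rw [one_pow, mul_one] at h2
    have h3 : ∏ i, uB β (x i) (y i) = ∏ i, rhoM β (v i) (x i) := by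
      apply Finset.prod_congr rfl
      intro i _
      cases hvi : v i with
      | disp d =>
        have hyi : y i = x i := by simp only [hy, hvi]
        rw [hyi, uB_diag (hx i)]; rfl
      | stack j =>
        have hyi : y i = 0 := by simp only [hy, hvi]
        rw [hyi, uB_front]; rfl
    rw [h3] at h2
    refine h2.congr' ?_
    filter_upwards [hN'.eventually (eventually_gt_atTop 0)] with k hk
    rw [pat_mallows]
    rw [div_pow]
    have : (N k : ℝ) ^ l ≠ 0 := by positivity
    field_simp

lemma diag_num_nonneg (β : ℝ) : 0 ≤ β * (1 - Real.exp (-β)) := by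
  rcases le_total β 0 with h | h
  · have : 1 ≤ Real.exp (-β) := Real.one_le_exp (by linarith)
    exact mul_nonneg_of_nonpos_of_nonpos h (by linarith)
  · have : Real.exp (-β) ≤ 1 := Real.exp_le_one_iff.2 (by linarith)
    exact mul_nonneg h (by linarith)

lemma diag_num_pos {β : ℝ} (hβ : β ≠ 0) : 0 < β * (1 - Real.exp (-β)) :=
  lt_of_le_of_ne (diag_num_nonneg β) (mul_ne_zero hβ (one_sub_exp_ne hβ)).symm

lemma diag_den_ne {β x : ℝ} (hβ : β ≠ 0) (hx : x ∈ Set.Icc (0 : ℝ) 1) :
    2 - Real.exp (-(β * x)) - Real.exp (-(β * (1 - x))) ≠ 0 := by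
  obtain ⟨h0, h1⟩ := hx
  rcases lt_or_gt_of_ne hβ with h | h
  · have e1 : 1 ≤ Real.exp (-(β * x)) := Real.one_le_exp (by nlinarith)
    have e2 : 1 ≤ Real.exp (-(β * (1 - x))) := Real.one_le_exp (by nlinarith)
    intro h2
    have e3 : Real.exp (-(β * x)) = 1 := by linarith
    have e4 : Real.exp (-(β * (1 - x))) = 1 := by linarith
    rw [Real.exp_eq_one_iff] at e3 e4
    have e5 : β * 1 = 0 := by linarith
    exact hβ (by linarith)
  · have e1 : Real.exp (-(β * x)) ≤ 1 := Real.exp_le_one_iff.2 (by nlinarith)
    have e2 : Real.exp (-(β * (1 - x))) ≤ 1 := Real.exp_le_one_iff.2 (by nlinarith)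
    intro h2
    have e3 : Real.exp (-(β * x)) = 1 := by linarith
    have e4 : Real.exp (-(β * (1 - x))) = 1 := by linarith
    rw [Real.exp_eq_one_iff] at e3 e4
    have e5 : β * 1 = 0 := by linarith
    exact hβ (by linarith)

lemma measurable_mallowsDiag (β : ℝ) : Measurable (mallowsDiag β) := by
  unfold mallowsDiag
  by_cases h : β = 0
  · simp only [h, if_true]; exact measurable_const
  · simp only [h, if_false]
    fun_prop

lemma continuous_mallowsFront (β : ℝ) : Continuous (mallowsFront β) := by
  unfold mallowsFront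
  by_cases h : β = 0
  · simp only [h, if_true]; exact continuous_const
  · simp only [h, if_false]
    fun_prop

lemma continuousOn_mallowsDiag (β : ℝ) : ContinuousOn (mallowsDiag β) (Set.Icc 0 1) := by
  unfold mallowsDiag
  by_cases h : β = 0
  · simp only [h, if_true]; exact continuousOn_const
  · simp only [h, if_false]
    apply ContinuousOn.div continuousOn_const (by fun_prop)
    intro x hx
    exact pow_ne_zero 2 (diag_den_ne h hx)

lemma mallowsDiag_nonneg (β x : ℝ) : 0 ≤ mallowsDiag β x := by
  unfold mallowsDiag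
  split_ifs
  · norm_num
  · exact div_nonneg (diag_num_nonneg β) (sq_nonneg _)

lemma mallowsFront_nonneg (β x : ℝ) : 0 ≤ mallowsFront β x := by
  unfold mallowsFront
  split_ifs with h
  · norm_num
  · have h1 := diag_num_pos h
    have h2 := one_sub_exp_ne h
    have h3 : β * Real.exp (-(β * x)) / (1 - Real.exp (-β)) =
        β * (1 - Real.exp (-β)) * Real.exp (-(β * x)) / (1 - Real.exp (-β)) ^ 2 := by
      field_simp
    rw [h3]
    positivity

lemma integral_mallowsFront (β : ℝ) : ∫ x in (0 : ℝ)..1, mallowsFront β x = 1 := by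
  unfold mallowsFront
  by_cases h : β = 0
  · simp [h]
  · simp only [h, if_false]
    have h2 := one_sub_exp_ne h
    have hd : ∀ x : ℝ, HasDerivAt (fun x => -Real.exp (-(β * x)) / (1 - Real.exp (-β)))
        (β * Real.exp (-(β * x)) / (1 - Real.exp (-β))) x := by
      intro x
      have h3 : HasDerivAt (fun x : ℝ => -(β * x)) (-β) x := by
        have h5 := ((hasDerivAt_id x).const_mul β).fun_neg
        simpa using h5
      have h4 := (h3.exp.neg).div_const (1 - Real.exp (-β))
      convert! h4 using 1
      ring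
    rw [intervalIntegral.integral_eq_sub_of_hasDerivAt (fun x _ => hd x)]
    · rw [← sub_div, mul_one, mul_zero, neg_zero, Real.exp_zero]
      rw [div_eq_one_iff_eq h2]
      ring
    · apply Continuous.intervalIntegrable
      fun_prop

theorem mallows_dens (β : ℝ) :
    Dens (rhoM β) (fun _ => dens (mallowsDiag β)) (dens (mallowsFront β)) where
  meas l := by
    cases l with
    | disp k => exact measurable_mallowsDiag β
    | stack j => exact (continuous_mallowsFront β).measurable
  nonneg l x := by
    cases l with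
    | disp k => exact mallowsDiag_nonneg β x
    | stack j => exact mallowsFront_nonneg β x
  int l := by
    cases l with
    | disp k => exact (continuousOn_mallowsDiag β).integrableOn_Icc
    | stack j => exact (continuous_mallowsFront β).continuousOn.integrableOn_Icc
  disp k := rfl
  stack j := rfl
  pos k := by
    intro h
    rw [dens_eq, withDensity_apply _ MeasurableSet.univ, Measure.restrict_univ,
      lintegral_eq_zero_iff (measurable_mallowsDiag β).ennreal_ofReal] at h
    have h1 : ∀ᵐ x ∂U, x ∈ Set.Icc (0 : ℝ) 1 := ae_restrict_mem measurableSet_Icc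
    obtain ⟨x, hx1, hx2⟩ := (h.and h1).exists
    simp only [Pi.zero_apply, ENNReal.ofReal_eq_zero] at hx1
    unfold mallowsDiag at hx1
    split_ifs at hx1 with hβ
    · linarith
    · have := div_pos (diag_num_pos hβ) (pow_pos (abs_pos.2 (diag_den_ne hβ hx2)) 2)
      rw [sq_abs] at this
      linarith
  prob := by
    constructor
    rw [dens_eq, withDensity_apply _ MeasurableSet.univ, Measure.restrict_univ,
      ← ofReal_integral_eq_lintegral_ofReal]
    · have h1 : ∫ x, mallowsFront β x ∂U = 1 := by
        rw [U, integral_Icc_eq_integral_Ioc, ← intervalIntegral.integral_of_le zero_le_one,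
          integral_mallowsFront]
      rw [h1, ENNReal.ofReal_one]
    · exact (continuous_mallowsFront β).continuousOn.integrableOn_Icc
    · exact Eventually.of_forall fun x => mallowsFront_nonneg β x

end Pool.Agent.Lib.MP_264509_pr
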