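import Pool.Agent.Lib.MP_264509_pr.Word

namespace Pool.Agent.Lib.MP_264509_pr

/-- two natural numbers at distance at most `k` -/
def Close (k a b : ℕ) : Prop := a ≤ b + k ∧ b ≤ a + k

instance (k a b : ℕ) : Decidable (Close k a b) := by unfold Close; infer_instance

/-- the label of the letter `a` at position `m` -/
def lab (R a m : ℕ) : Option Lab :=
  if m < R then some (.stack m) else if Close R a m then some (.disp ((a : ℤ) - m)) else none

/-- the word of marks of a permutation -/
def word {n : ℕ} (R : ℕ) (π : Equiv.Perm (Fin n)) : List Lab :=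
  (List.finRange n).filterMap fun a : Fin n => lab R a (π.symm a)

/-- a permutation is generic if its marks are far from the left end and far apart -/
def Generic {n : ℕ} (R : ℕ) (π : Equiv.Perm (Fin n)) : Prop :=
  (∀ v : Fin n, (lab R v (π.symm v)).isSome → 10 * R ≤ v) ∧
  ∀ v v' : Fin n, (lab R v (π.symm v)).isSome → (lab R v' (π.symm v')).isSome → v ≠ v' →
    ¬ Close (10 * R) v v'

lemma lab_isSome {R a m : ℕ} : (lab R a m).isSome ↔ m < R ∨ Close R a m := by
  unfold lab
  split_ifs with h1 h2 <;> simp [*]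

/-- the child relation of the forest -/
def CF (n : ℕ) (π π' : Equiv.Perm (Fin n)) : Prop := ∃ i, π i = i ∧ π' = bump π i

lemma bump_symm {n : ℕ} (π : Equiv.Perm (Fin n)) (i v : Fin n) :
    (bump π i).symm v = Fin.cycleRange i (π.symm v) := rfl

lemma pos_bump {n : ℕ} (y : Equiv.Perm (Fin n)) {i : Fin n} (hi : y i = i) (v : Fin n) :
    ((bump y i).symm v : ℕ) = if v = i then 0 else
      if (y.symm v : ℕ) < i then (y.symm v : ℕ) + 1 else (y.symm v : ℕ) := by
  have h1 : y.symm v = i ↔ v = i := by
    rw [Equiv.symm_apply_eq, hi]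
  rw [bump_symm]
  split_ifs with h2 h3
  · rw [h1.2 h2, Fin.coe_cycleRange_of_le le_rfl, if_pos rfl]
  · rw [Fin.coe_cycleRange_of_lt h3]
  · rw [Fin.cycleRange_of_gt]
    rw [Fin.lt_def]
    have : (y.symm v : ℕ) ≠ i := fun h => h2 (h1.1 (Fin.ext h))
    omega

lemma bump_inv {n : ℕ} (y : Equiv.Perm (Fin n)) (i : Fin n) :
    bump ((Fin.cycleRange i).trans y) i = y := by
  ext v
  simp [bump]

lemma CF_unique {n : ℕ} : ∀ a b x, CF n a x → CF n b x → a = b := by
  rintro a b x ⟨i, hi, rfl⟩ ⟨j, hj, h⟩
  have h1 : ((bump a i).symm i : ℕ) = 0 := by rw [pos_bump a hi, if_pos rfl]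
  have h2 : ((bump b j).symm j : ℕ) = 0 := by rw [pos_bump b hj, if_pos rfl]
  rw [← h] at h2
  have h3 : i = j := (bump a i).symm.injective (Fin.ext (by rw [h1, h2]))
  subst h3
  ext v
  have := congrArg (fun e => (Fin.cycleRange i).trans e) h
  simp only [bump] at this
  have h4 := congrArg (fun e => e v) this
  simp only [Equiv.trans_apply, Equiv.symm_apply_apply] at h4
  rw [h4]

/-- the invariant for permutations near `π` -/
def Inv {n : ℕ} (π : Equiv.Perm (Fin n)) (k : ℕ) (y : Equiv.Perm (Fin n)) : Prop :=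
  ∀ v : Fin n, Close k (y.symm v) (π.symm v) ∨ ((y.symm v : ℕ) < k ∧ Close k v (π.symm v)) ∨
    ((π.symm v : ℕ) < k ∧ Close k v (y.symm v))

lemma inv_zero {n : ℕ} (π : Equiv.Perm (Fin n)) : Inv π 0 π := fun v => Or.inl ⟨by simp, by simp⟩

lemma inv_mono {n : ℕ} (π : Equiv.Perm (Fin n)) (k : ℕ) (y : Equiv.Perm (Fin n))
    (h : Inv π k y) : Inv π (k + 1) y := by
  intro v
  have := h v
  unfold Close at *
  omega

lemma inv_child {n : ℕ} (π : Equiv.Perm (Fin n)) (k : ℕ) (y y' : Equiv.Perm (Fin n))
    (h : Inv π k y) (hc : CF n y y') : Inv π (k + 1) y' := by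
  obtain ⟨i, hi, rfl⟩ := hc
  intro v
  have h1 := h v
  have h2 := pos_bump y hi v
  have h3 : (y.symm i : ℕ) = i := by
    have : y.symm i = i := by rw [Equiv.symm_apply_eq, hi]
    rw [this]
  unfold Close at *
  split_ifs at h2 with h4 h5
  · subst h4
    omega
  · omega
  · omega

lemma inv_parent {n : ℕ} (π : Equiv.Perm (Fin n)) (k : ℕ) (y y' : Equiv.Perm (Fin n))
    (h : Inv π k y) (hc : CF n y' y) : Inv π (k + 1) y' := by
  obtain ⟨i, hi, rfl⟩ := hc
  intro v
  have h1 := h v
  have h2 := pos_bump y' hi v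
  have h3 : (y'.symm i : ℕ) = i := by
    have : y'.symm i = i := by rw [Equiv.symm_apply_eq, hi]
    rw [this]
  unfold Close at *
  split_ifs at h2 with h4 h5
  · subst h4
    omega
  · omega
  · omega

lemma inv_of_near {n : ℕ} (π : Equiv.Perm (Fin n)) {k : ℕ} {y : Equiv.Perm (Fin n)}
    (h : Near (CF n) π k y) : Inv π k y :=
  near_induct (P := Inv π) (inv_zero π) (inv_mono π) (inv_child π) (inv_parent π) h

/-- the label of the letter `v` in the permutation `y` -/
def labY {n : ℕ} (R : ℕ) (y : Equiv.Perm (Fin n)) (v : Fin n) : Lab :=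
  if (y.symm v : ℕ) < 2 * R then .stack (y.symm v) else .disp ((v : ℤ) - (y.symm v : ℕ))

section

variable {n R K : ℕ} {π : Equiv.Perm (Fin n)} (hR : K + 2 ≤ R) (hg : Generic R π)
include hR hg

omit hg in
lemma mark_of_fixed {k : ℕ} (hk : k ≤ K + 1) {y : Equiv.Perm (Fin n)} (h : Inv π k y)
    {i : Fin n} (hi : y i = i) : (lab R i (π.symm i)).isSome := by
  rw [lab_isSome]
  have h1 := h i
  have h3 : (y.symm i : ℕ) = i := by
    have : y.symm i = i := by rw [Equiv.symm_apply_eq, hi]
    rw [this]
  unfold Close at *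
  omega

lemma labY_bump {k : ℕ} (hk : k ≤ K + 1) {y : Equiv.Perm (Fin n)} (h : Inv π k y)
    {i : Fin n} (hi : y i = i) {v : Fin n} (hv : (lab R v (π.symm v)).isSome) (hvi : v ≠ i) :
    labY R (bump y i) v = updL (v < i) (labY R y v) := by
  have hi1 := mark_of_fixed hR hk h hi
  have h1 := hg.1 v hv
  have h2 := hg.1 i hi1
  have h3 := hg.2 v i hv hi1 hvi
  rw [lab_isSome] at hv hi1
  have h4 := h v
  have h5 := h i
  have h6 := pos_bump y hi v
  rw [if_neg hvi] at h6
  unfold Close at *
  unfold labY
  have hlt : v < i ↔ (v : ℕ) < i := Fin.lt_def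
  by_cases h7 : (y.symm v : ℕ) < 2 * R
  · rw [if_pos h7]
    have h8 : (y.symm v : ℕ) < i := by omega
    rw [if_pos h8] at h6
    have h9 : ((bump y i).symm v : ℕ) < 2 * R := by omega
    rw [if_pos h9, h6]
    rfl
  · rw [if_neg h7]
    by_cases h10 : v < i
    · have h8 : (y.symm v : ℕ) < i := by omega
      rw [if_pos h8] at h6
      have h9 : ¬ ((bump y i).symm v : ℕ) < 2 * R := by omega
      rw [if_neg h9, h6]
      simp only [updL, h10, if_true, Lab.disp.injEq]
      push_cast
      ring
    · have h8 : ¬ (y.symm v : ℕ) < i := by omega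
      rw [if_neg h8] at h6
      rw [h6, if_neg h7]
      simp only [updL, h10, if_false]

theorem perm_cover : ∃ p : Equiv.Perm (Fin n) → (Fin (word R π).length → Lab),
    p π = (word R π).get ∧ LocalCover (CF n) (CW _) p π K := by
  obtain ⟨emb, hmono, hemb, hsurj⟩ : ∃ emb : Fin (word R π).length → Fin n, StrictMono emb ∧
      (∀ i, lab R (emb i) (π.symm (emb i)) = some ((word R π).get i)) ∧
      ∀ a ∈ List.finRange n, (lab R a (π.symm a)).isSome → ∃ i, emb i = a := by
    obtain ⟨emb, hmono, hemb, -, hsurj⟩ := filterMap_emb (fun a : Fin n => lab R a (π.symm a))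
      (List.finRange n) (List.pairwise_lt_finRange n)
    exact ⟨emb, hmono, hemb, hsurj⟩
  have hsome : ∀ l, (lab R (emb l) (π.symm (emb l))).isSome := by
    intro l
    rw [hemb]; rfl
  have hsurj' : ∀ a : Fin n, (lab R a (π.symm a)).isSome → ∃ i, emb i = a := fun a ha =>
    hsurj a (List.mem_finRange a) ha
  let p : Equiv.Perm (Fin n) → (Fin (word R π).length → Lab) := fun y l => labY R y (emb l)
  have hbump : ∀ (k : ℕ) (y : Equiv.Perm (Fin n)), k ≤ K + 1 → Inv π k y →
      ∀ l, y (emb l) = emb l → p (bump y (emb l)) = upd l (p y) := by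
    intro k y hk h l hl
    funext j
    by_cases hj : j = l
    · subst hj
      rw [upd_self]
      change labY R _ _ = _
      unfold labY
      have := pos_bump y hl (emb j)
      rw [if_pos rfl] at this
      rw [if_pos (by omega), this]
    · have h1 : emb j ≠ emb l := fun h => hj (hmono.injective h)
      have h2 := labY_bump hR hg hk h hl (hsome j) h1
      change labY R _ _ = upd l (p y) j
      rw [h2]
      unfold upd
      rw [if_neg hj]
      have h3 : emb j < emb l ↔ j < l := hmono.lt_iff_lt
      change _ = updL _ (labY R y (emb j))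
      by_cases h4 : j < l
      · have h5 := h3.2 h4
        simp only [updL, h4, h5]
      · have h5 : ¬ emb j < emb l := fun h => h4 (h3.1 h)
        simp only [updL, h4, h5]
  have hdisp : ∀ (y : Equiv.Perm (Fin n)) l, p y l = .disp 0 → y (emb l) = emb l := by
    intro y l hl
    change labY R y (emb l) = _ at hl
    unfold labY at hl
    split_ifs at hl with h1
    simp only [Lab.disp.injEq] at hl
    have h2 : (y.symm (emb l) : ℕ) = emb l := by omega
    have h3 : y.symm (emb l) = emb l := Fin.ext h2
    rw [Equiv.symm_apply_eq] at h3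
    exact h3.symm
  refine ⟨p, ?_, ?_⟩
  · funext l
    have h1 := hemb l
    have h2 := hg.1 _ (hsome l)
    change labY R π (emb l) = (word R π).get l
    change lab R (emb l) (π.symm (emb l)) = some ((word R π).get l) at h1
    unfold lab at h1
    unfold labY
    split_ifs at h1 with h3 h4
    · rw [if_pos (by omega)]
      exact Option.some.inj h1
    · rw [if_neg (by unfold Close at h4; omega)]
      exact Option.some.inj h1
  · refine ⟨CF_unique, CW_unique, CW_pot, ?_, ?_, ?_, ?_⟩
    · rintro y y' hy ⟨i, hi, rfl⟩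
      have hinv := inv_of_near π hy
      obtain ⟨l, rfl⟩ := hsurj' i (mark_of_fixed hR (by omega) hinv hi)
      refine ⟨l, ?_, hbump K y (by omega) hinv l hi⟩
      change labY R y (emb l) = _
      unfold labY
      have h1 := hg.1 _ (hsome l)
      have h3 : y.symm (emb l) = emb l := by rw [Equiv.symm_apply_eq, hi]
      rw [h3, if_neg (by omega), sub_self]
    · rintro y t hy ⟨l, hl, rfl⟩
      have hinv := inv_of_near π hy
      exact ⟨bump y (emb l), ⟨emb l, hdisp y l hl, rfl⟩,
        hbump K y (by omega) hinv l (hdisp y l hl)⟩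
    · rintro y t hy ⟨l, hl, hpt⟩
      have h1 : p y l = .stack 0 := by rw [hpt, upd_self]
      change labY R y (emb l) = _ at h1
      unfold labY at h1
      split_ifs at h1 with h2
      simp only [Lab.stack.injEq] at h1
      have hfix : ((Fin.cycleRange (emb l)).trans y) (emb l) = emb l := by
        have h3 : Fin.cycleRange (emb l) (emb l) = y.symm (emb l) := by
          apply Fin.ext
          rw [h1, Fin.coe_cycleRange_of_le le_rfl, if_pos rfl]
        rw [Equiv.trans_apply, h3, Equiv.apply_symm_apply]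
      have hc : CF n ((Fin.cycleRange (emb l)).trans y) y :=
        ⟨emb l, hfix, (bump_inv y (emb l)).symm⟩
      have hinv' := inv_of_near π (near_parent CF_unique hy hc)
      refine ⟨_, hc, ?_⟩
      have h4 := hbump (K + 1) _ le_rfl hinv' l hfix
      rw [bump_inv] at h4
      have h5 : p ((Fin.cycleRange (emb l)).trans y) l = .disp 0 := by
        change labY R _ (emb l) = _
        unfold labY
        have h6 := hg.1 _ (hsome l)
        have h7 : ((Fin.cycleRange (emb l)).trans y).symm (emb l) = emb l := by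
          rw [Equiv.symm_apply_eq, hfix]
        rw [h7, if_neg (by omega), sub_self]
      exact CW_unique _ _ _ ⟨l, h5, h4⟩ ⟨l, hl, hpt⟩
    · rintro y y₁ y₂ hy ⟨i, hi, rfl⟩ ⟨j, hj, rfl⟩ hp
      have hinv := inv_of_near π hy
      obtain ⟨l, rfl⟩ := hsurj' i (mark_of_fixed hR (by omega) hinv hi)
      obtain ⟨m, rfl⟩ := hsurj' j (mark_of_fixed hR (by omega) hinv hj)
      rw [hbump K y (by omega) hinv l hi, hbump K y (by omega) hinv m hj] at hp
      have : l = m := by
        apply upd_eq_zero (s := p y)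
        rw [← hp, upd_self]
      rw [this]

theorem perm_ballIso {r : ℕ} (hr : 2 * (r + 1) ≤ K) {W : Type*} (G : SimpleGraph W) (g : W) :
    BallIso (forest n) π r G g ↔ BallIso (SimpleGraph.fromRel (CW (word R π).length))
      (word R π).get r G g := by
  obtain ⟨p, hp, H⟩ := perm_cover hR hg
  rw [← hp]
  exact H.ballIso_iff hr G g

end

end Pool.Agent.Lib.MP_264509_pr
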