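import Pool.Agent.Lib.MP_264509_pr.Cells
import Pool.Agent.Lib.MP_264509_pr.PermApp

open Finset Filter
open scoped Topology

namespace Pool.Agent.Lib.MP_264509_pr

/-- the probability that the letters `a i` are at the positions `m i` -/
noncomputable def pat {n l : ℕ} (p : Equiv.Perm (Fin n) → ℝ) (a m : Fin l → Fin n) : ℝ :=
  ∑ π, if ∀ i, π.symm (a i) = m i then p π else 0

/-- the relation between the label, the letter and its position -/
def PosRel : Lab → ℕ → ℕ → Prop
  | .disp d, a, m => (a : ℤ) - m = d
  | .stack j, _, m => m = j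

/-- no front label is repeated -/
def StackDistinct {l : ℕ} (v : Fin l → Lab) : Prop :=
  ∀ i j s, v i = .stack s → v j = .stack s → i = j

/-- a sequence of laws on permutations with densities `ρ` for the marks in the limit -/
structure Model (p : ∀ n, Equiv.Perm (Fin n) → ℝ) (ρ : Lab → ℝ → ℝ) : Prop where
  nonneg : ∀ n π, 0 ≤ p n π
  sum_one : ∀ n, ∑ π, p n π = 1
  bound : ∃ C : ℝ, 0 < C ∧ ∀ᶠ n in atTop, ∀ (l : ℕ) (a m : Fin l → Fin n),
    Function.Injective a → Function.Injective m →
      pat (p n) a m ≤ C ^ l * (((n - l).factorial : ℝ) / (n.factorial : ℝ))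
  lim : ∀ (l : ℕ) (v : Fin l → Lab) (x : Fin l → ℝ), StackDistinct v → Function.Injective x →
    (∀ i, x i ∈ Set.Ioo (0 : ℝ) 1) → ∀ n : ℕ → ℕ, Tendsto n atTop atTop →
    ∀ a m : ∀ k, Fin l → Fin (n k), (∀ k, Function.Injective (a k)) →
    (∀ k, Function.Injective (m k)) →
    (∀ i, Tendsto (fun k => ((a k i : ℕ) : ℝ) / (n k : ℝ)) atTop (𝓝 (x i))) →
    (∀ k i, PosRel (v i) (a k i) (m k i)) →
    Tendsto (fun k => (n k : ℝ) ^ l * pat (p (n k)) (a k) (m k)) atTop
      (𝓝 (∏ i, ρ (v i) (x i)))

/-- the labels in the window of radius `R` -/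
noncomputable def winS (R : ℕ) : Finset Lab :=
  (Finset.Icc (-(R : ℤ)) R).image .disp ∪ (Finset.range R).image .stack

lemma mem_winS {R : ℕ} {x : Lab} : x ∈ winS R ↔
    (∃ d : ℤ, -(R : ℤ) ≤ d ∧ d ≤ R ∧ x = .disp d) ∨ ∃ j < R, x = .stack j := by
  simp only [winS, Finset.mem_union, Finset.mem_image, Finset.mem_Icc, Finset.mem_range]
  constructor
  · rintro (⟨d, ⟨h1, h2⟩, rfl⟩ | ⟨j, h, rfl⟩)
    · exact Or.inl ⟨d, h1, h2, rfl⟩
    · exact Or.inr ⟨j, h, rfl⟩
  · rintro (⟨d, h1, h2, rfl⟩ | ⟨j, h, rfl⟩)
    · exact Or.inl ⟨d, ⟨h1, h2⟩, rfl⟩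
    · exact Or.inr ⟨j, h, rfl⟩

lemma lab_mem {R a m : ℕ} {x : Lab} (h : lab R a m = some x) : x ∈ winS R := by
  unfold lab at h
  rw [mem_winS]
  split_ifs at h with h1 h2
  · exact Or.inr ⟨m, h1, (Option.some.inj h).symm⟩
  · refine Or.inl ⟨_, ?_, ?_, (Option.some.inj h).symm⟩
    · unfold Close at h2; omega
    · unfold Close at h2; omega

lemma lab_inj {R a m m' : ℕ} {x : Lab} (h : lab R a m = some x) (h' : lab R a m' = some x) :
    m = m' := by
  unfold lab at h h'
  split_ifs at h h' with h1 h2 h3 h4 h5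
  · rw [← h] at h'
    simp only [Option.some.injEq, Lab.stack.injEq] at h'
    exact h'.symm
  · rw [← h] at h'; simp at h'
  · rw [← h] at h'; simp at h'
  · rw [← h] at h'
    simp only [Option.some.injEq, Lab.disp.injEq] at h'
    omega

lemma word_mem {n R : ℕ} (π : Equiv.Perm (Fin n)) : ∀ x ∈ word R π, x ∈ winS R := by
  intro x hx
  simp only [word, List.mem_filterMap] at hx
  obtain ⟨a, -, h⟩ := hx
  exact lab_mem h

/-- the probability that the letters `a i` have the labels `v i` -/
noncomputable def labProb {n l : ℕ} (p : Equiv.Perm (Fin n) → ℝ) (R : ℕ) (v : Fin l → Lab)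
    (a : Fin l → Fin n) : ℝ :=
  ∑ π, if ∀ i, lab R (a i) (π.symm (a i)) = some (v i) then p π else 0

lemma cnt_word {n R : ℕ} (π : Equiv.Perm (Fin n)) (v : List Lab) :
    (cnt v (word R π) : ℝ) = ∑ a : Fin v.length → Fin n,
      if StrictMono a ∧ ∀ i, lab R (a i) (π.symm (a i)) = some (v.get i) then (1 : ℝ) else 0 := by
  classical
  have h := cnt_filterMap (fun a : Fin n => lab R a (π.symm a)) (List.finRange n) v
    (List.pairwise_lt_finRange n)
  have h2 : Tup (fun a : Fin n => lab R a (π.symm a)) (List.finRange n) v =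
      ((Finset.univ.filter fun a : Fin v.length → Fin n =>
        StrictMono a ∧ ∀ i, lab R (a i) (π.symm (a i)) = some (v.get i) : Finset _) :
        Set (Fin v.length → Fin n)) := by
    ext a
    simp only [Tup, Set.mem_ofPred_eq, Finset.coe_filter, Finset.mem_univ, true_and,
      List.mem_finRange, implies_true]
  rw [h2, Set.encard_coe_eq_coe_finsetCard] at h
  have h3 : cnt v (word R π) = (Finset.univ.filter fun a : Fin v.length → Fin n =>
        StrictMono a ∧ ∀ i, lab R (a i) (π.symm (a i)) = some (v.get i)).card := by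
    exact_mod_cast h
  rw [h3, Finset.sum_boole]

lemma moment_eq {n R : ℕ} (p : Equiv.Perm (Fin n) → ℝ) (v : List Lab) :
    ∑ π, p π * (cnt v (word R π) : ℝ) =
      ∑ a : Fin v.length → Fin n, if StrictMono a then labProb p R v.get a else 0 := by
  classical
  simp only [cnt_word, Finset.mul_sum]
  rw [Finset.sum_comm]
  apply Finset.sum_congr rfl
  intro a _
  by_cases ha : StrictMono a
  · rw [if_pos ha, labProb]
    apply Finset.sum_congr rfl
    intro π _
    simp [ha]
  · simp [ha]

lemma card_strictMono (n l : ℕ) :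
    (∑ a : Fin l → Fin n, if StrictMono a then (1 : ℝ) else 0) ≤ (n.choose l : ℝ) := by
  classical
  have h := cnt_filterMap (fun _ : Fin n => some ()) (List.finRange n) (List.replicate l ())
    (List.pairwise_lt_finRange n)
  have h2 := cnt_le_choose (List.replicate l ()) ((List.finRange n).filterMap fun _ => some ())
  have h4 : ((List.finRange n).filterMap fun _ => some ()).length = n := by
    rw [List.filterMap_eq_map']
    simp
  rw [h4, List.length_replicate] at h2
  rw [Finset.sum_boole]
  have h3 : ((Finset.univ.filter fun a : Fin l → Fin n => StrictMono a).card : ℕ∞) ≤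
      (cnt (List.replicate l ()) ((List.finRange n).filterMap fun _ => some ()) : ℕ) := by
    rw [h, ← Set.encard_coe_eq_coe_finsetCard]
    have hl : (List.replicate l ()).length = l := List.length_replicate
    have hinj : Function.Injective fun (a : Fin l → Fin n) (i : Fin (List.replicate l ()).length) =>
        a (Fin.cast hl i) := by
      intro a b hab
      funext i
      have := congrFun hab (Fin.cast hl.symm i)
      simpa using this
    rw [← hinj.encard_image]
    apply Set.encard_le_encard
    rintro _ ⟨a, ha, rfl⟩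
    simp only [Finset.coe_filter, Finset.mem_univ, true_and, Set.mem_ofPred_eq] at ha
    refine ⟨?_, fun i => List.mem_finRange _, fun i => rfl⟩
    intro i j hij
    exact ha (by simpa using hij)
  have h5 : (Finset.univ.filter fun a : Fin l → Fin n => StrictMono a).card ≤ n.choose l := by
    have h6 : (Finset.univ.filter fun a : Fin l → Fin n => StrictMono a).card ≤
      cnt (List.replicate l ()) ((List.finRange n).filterMap fun _ => some ()) := by
      exact_mod_cast h3
    exact h6.trans h2
  exact_mod_cast h5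

section

variable {p : ∀ n, Equiv.Perm (Fin n) → ℝ} {ρ : Lab → ℝ → ℝ}

lemma labProb_nonneg (H : Model p ρ) {n l R : ℕ} (v : Fin l → Lab) (a : Fin l → Fin n) :
    0 ≤ labProb (p n) R v a :=
  Finset.sum_nonneg fun π _ => by split_ifs <;> simp [H.nonneg n π]

lemma labProb_le (H : Model p ρ) {n l R : ℕ} (v : Fin l → Lab) (a : Fin l → Fin n)
    (ha : Function.Injective a) {B : ℝ} (hB : 0 ≤ B)
    (hm : ∀ m : Fin l → Fin n, Function.Injective m → pat (p n) a m ≤ B) :
    labProb (p n) R v a ≤ B := by
  by_cases h : ∃ π : Equiv.Perm (Fin n), ∀ i, lab R (a i) (π.symm (a i)) = some (v i)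
  · obtain ⟨π0, h0⟩ := h
    have hinj : Function.Injective fun i => π0.symm (a i) := π0.symm.injective.comp ha
    refine le_trans ?_ (hm (fun i => π0.symm (a i)) hinj)
    apply Finset.sum_le_sum
    intro π _
    split_ifs with h1 h2
    · exact le_rfl
    · exact absurd (fun i => Fin.ext (lab_inj (h1 i) (h0 i))) h2
    · exact H.nonneg n π
    · exact le_rfl
  · have : labProb (p n) R v a = 0 := by
      apply Finset.sum_eq_zero
      intro π _
      rw [if_neg]
      exact fun h1 => h ⟨π, h1⟩
    rw [this]; exact hB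

lemma moment_bound (H : Model p ρ) (R : ℕ) : ∃ C : ℝ, 0 < C ∧ ∀ᶠ n in atTop, ∀ v : List Lab,
    0 ≤ ∑ π, p n π * (cnt v (word R π) : ℝ) ∧
    ∑ π, p n π * (cnt v (word R π) : ℝ) ≤ C ^ v.length / (v.length.factorial : ℝ) := by
  obtain ⟨C, hC, hb⟩ := H.bound
  refine ⟨C, hC, ?_⟩
  filter_upwards [hb] with n hn v
  refine ⟨Finset.sum_nonneg fun π _ => mul_nonneg (H.nonneg n π) (Nat.cast_nonneg _), ?_⟩
  rw [moment_eq]
  set l := v.length
  have hB : 0 ≤ C ^ l * (((n - l).factorial : ℝ) / (n.factorial : ℝ)) := by positivity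
  calc ∑ a : Fin l → Fin n, (if StrictMono a then labProb (p n) R v.get a else 0)
      ≤ ∑ a : Fin l → Fin n, (if StrictMono a then (1 : ℝ) else 0) *
          (C ^ l * (((n - l).factorial : ℝ) / (n.factorial : ℝ))) := by
        apply Finset.sum_le_sum
        intro a _
        split_ifs with ha
        · rw [one_mul]
          exact labProb_le H _ a ha.injective hB fun m hm => hn l a m ha.injective hm
        · simp
    _ ≤ (n.choose l : ℝ) * (C ^ l * (((n - l).factorial : ℝ) / (n.factorial : ℝ))) := by
        rw [← Finset.sum_mul]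
        exact mul_le_mul_of_nonneg_right (card_strictMono n l) hB
    _ ≤ C ^ l / (l.factorial : ℝ) := by
        rcases le_or_gt l n with h | h
        · have h1 := Nat.choose_mul_factorial_mul_factorial h
          have h2 : (n.choose l : ℝ) * (l.factorial : ℝ) * ((n - l).factorial : ℝ) =
            (n.factorial : ℝ) := by exact_mod_cast h1
          have h3 : (0 : ℝ) < n.factorial := by positivity
          have h4 : (0 : ℝ) < l.factorial := by positivity
          rw [le_div_iff₀ h4]
          have : (n.choose l : ℝ) * (C ^ l * (((n - l).factorial : ℝ) / (n.factorial : ℝ))) *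
            (l.factorial : ℝ) = C ^ l * (((n.choose l : ℝ) * (l.factorial : ℝ) *
              ((n - l).factorial : ℝ)) / (n.factorial : ℝ)) := by ring
          rw [this, h2, div_self h3.ne', mul_one]
        · rw [Nat.choose_eq_zero_of_lt h]
          simp only [Nat.cast_zero, zero_mul]
          positivity

end

end Pool.Agent.Lib.MP_264509_pr
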