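import Pool.Agent.Lib.MP_264509_pr.Dct

open Finset MeasureTheory ProbabilityTheory
open scoped ENNReal NNReal

namespace Pool.Agent.Lib.MP_264509_pr

lemma poisson_descFactorial (lam : ℝ≥0) (c : ℕ) :
    ∫⁻ n, (n.descFactorial c : ℝ≥0∞) ∂(poissonMeasure lam) = (lam : ℝ≥0∞) ^ c := by
  rw [lintegral_countable']
  have h1 : ∀ n : ℕ, (n.descFactorial c : ℝ≥0∞) * poissonMeasure lam {n} =
      (n.descFactorial c : ℝ≥0∞) *
        ENNReal.ofReal (Real.exp (-lam) * (lam : ℝ) ^ n / (n.factorial : ℝ)) := fun n => by
    rw [poissonMeasure_singleton]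
  simp only [h1]
  rw [← Summable.sum_add_tsum_nat_add' (k := c) ENNReal.summable]
  have h2 : ∑ n ∈ range c, (n.descFactorial c : ℝ≥0∞) *
      ENNReal.ofReal (Real.exp (-lam) * (lam : ℝ) ^ n / (n.factorial : ℝ)) = 0 := by
    apply Finset.sum_eq_zero
    intro n hn
    rw [Nat.descFactorial_eq_zero_iff_lt.2 (Finset.mem_range.1 hn)]
    simp
  rw [h2, zero_add]
  have h3 : ∀ m : ℕ, ((m + c).descFactorial c : ℝ≥0∞) *
      ENNReal.ofReal (Real.exp (-lam) * (lam : ℝ) ^ (m + c) / ((m + c).factorial : ℝ)) =
      (lam : ℝ≥0∞) ^ c * poissonMeasure lam {m} := by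
    intro m
    rw [poissonMeasure_singleton]
    have h4 : ((m + c).descFactorial c : ℝ≥0∞) =
        ENNReal.ofReal (((m + c).descFactorial c : ℕ) : ℝ) := by
      rw [ENNReal.ofReal_natCast]
    have h5 : (lam : ℝ≥0∞) ^ c = ENNReal.ofReal ((lam : ℝ) ^ c) := by
      rw [ENNReal.ofReal_pow lam.coe_nonneg, ENNReal.ofReal_coe_nnreal]
    rw [h4, h5, ← ENNReal.ofReal_mul (by positivity), ← ENNReal.ofReal_mul (by positivity)]
    congr 1
    have h6 := Nat.factorial_mul_descFactorial (show c ≤ m + c by omega)
    rw [Nat.add_sub_cancel] at h6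
    have h7 : ((m + c).factorial : ℝ) = (m.factorial : ℝ) * ((m + c).descFactorial c : ℝ) := by
      rw [← h6]; push_cast; ring
    rw [h7, pow_add]
    have h8 : ((m + c).descFactorial c : ℝ) ≠ 0 := by
      rw [Nat.cast_ne_zero, Ne, Nat.descFactorial_eq_zero_iff_lt]
      omega
    have h9 : (m.factorial : ℝ) ≠ 0 := by positivity
    field_simp
  simp only [h3]
  rw [ENNReal.tsum_mul_left]
  have h10 : ∑' m : ℕ, poissonMeasure lam {m} = 1 := by
    have : ∑' m : ℕ, poissonMeasure lam {m} = ∫⁻ _ : ℕ, 1 ∂(poissonMeasure lam) := by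
      rw [lintegral_countable']; simp
    rw [this]; simp
  rw [h10, mul_one]

/-- the injective choices of indices for the labels of `v`, when there are `num x` points with
the label `x` -/
def Jset (num : Lab → ℕ) {l : ℕ} (v : Fin l → Lab) : Finset (Fin l → ℕ) :=
  open Classical in (Fintype.piFinset fun t => range (num (v t))).filter fun i =>
    Function.Injective fun t => (v t, i t)

/-- the number of occurrences of the label `x` -/
def mult {l : ℕ} (v : Fin l → Lab) (x : Lab) : ℕ := (Finset.univ.filter fun t => v t = x).card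

lemma mem_Jset {num : Lab → ℕ} {l : ℕ} {v : Fin l → Lab} {i : Fin l → ℕ} :
    i ∈ Jset num v ↔ (∀ t, i t < num (v t)) ∧ Function.Injective fun t => (v t, i t) := by
  simp [Jset, Fintype.mem_piFinset]

lemma card_Jset_succ (num : Lab → ℕ) {l : ℕ} (v : Fin (l + 1) → Lab) :
    (Jset num v).card = (num (v 0) - mult (fun t : Fin l => v t.succ) (v 0)) *
      (Jset num fun t : Fin l => v t.succ).card := by
  classical
  set v' : Fin l → Lab := fun t => v t.succ with hv'
  have hmap : ∀ i ∈ Jset num v, (fun t : Fin l => i t.succ) ∈ Jset num v' := by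
    intro i hi
    rw [mem_Jset] at hi ⊢
    refine ⟨fun t => hi.1 t.succ, fun s t hst => ?_⟩
    exact Fin.succ_injective _ (hi.2 hst)
  rw [Finset.card_eq_sum_card_fiberwise hmap]
  have hfib : ∀ i' ∈ Jset num v', ((Jset num v).filter fun i => (fun t : Fin l => i t.succ) = i').card
      = num (v 0) - mult v' (v 0) := by
    intro i' hi'
    rw [mem_Jset] at hi'
    set bad := (Finset.univ.filter fun t : Fin l => v' t = v 0).image i' with hbad
    have hbadsub : bad ⊆ range (num (v 0)) := by
      intro h hh
      rw [hbad, Finset.mem_image] at hh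
      obtain ⟨t, ht, rfl⟩ := hh
      rw [Finset.mem_filter] at ht
      rw [Finset.mem_range, ← ht.2]
      exact hi'.1 t
    have hbadcard : bad.card = mult v' (v 0) := by
      rw [hbad, mult]
      apply Finset.card_image_of_injOn
      intro s hs t ht hst
      simp only [Finset.coe_filter, Finset.mem_univ, true_and, Set.mem_ofPred_eq] at hs ht
      apply hi'.2
      simp only [hs, ht, hst]
    have hEq : ((Jset num v).filter fun i => (fun t : Fin l => i t.succ) = i') =
        (range (num (v 0)) \ bad).image fun h => (Fin.cons h i' : Fin (l + 1) → ℕ) := by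
      ext i
      simp only [Finset.mem_filter, Finset.mem_image, Finset.mem_sdiff, Finset.mem_range, mem_Jset]
      constructor
      · rintro ⟨⟨h1, h2⟩, h3⟩
        refine ⟨i 0, ⟨h1 0, ?_⟩, ?_⟩
        · rw [hbad, Finset.mem_image]
          rintro ⟨t, ht, hti⟩
          rw [Finset.mem_filter] at ht
          have h4 : (t.succ : Fin (l + 1)) = 0 := by
            apply h2
            have h5 : i t.succ = i' t := congrFun h3 t
            have h6 : v t.succ = v 0 := ht.2
            simp only [h6, h5, hti]
          exact Fin.succ_ne_zero t h4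
        · funext t
          induction t using Fin.cases with
          | zero => simp
          | succ t => simpa using (congrFun h3 t).symm
      · rintro ⟨h, ⟨h1, h2⟩, rfl⟩
        refine ⟨⟨?_, ?_⟩, ?_⟩
        · intro t
          induction t using Fin.cases with
          | zero => simpa using h1
          | succ t => simpa using hi'.1 t
        · have hne : ∀ t : Fin l, (v t.succ, i' t) ≠ (v 0, h) := by
            intro t hst
            simp only [Prod.mk.injEq] at hst
            apply h2
            rw [hbad, Finset.mem_image]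
            exact ⟨t, by simp only [Finset.mem_filter, Finset.mem_univ, true_and]; exact hst.1,
              hst.2⟩
          intro s t hst
          induction s using Fin.cases with
          | zero =>
            induction t using Fin.cases with
            | zero => rfl
            | succ t =>
              simp only [Fin.cons_zero, Fin.cons_succ] at hst
              exact absurd hst.symm (hne t)
          | succ s =>
            induction t using Fin.cases with
            | zero =>
              simp only [Fin.cons_zero, Fin.cons_succ] at hst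
              exact absurd hst (hne s)
            | succ t =>
              simp only [Fin.cons_succ] at hst
              rw [hi'.2 hst]
        · funext t; simp
    rw [hEq, Finset.card_image_of_injective _ (fun a b hab => (Fin.cons_injective2 hab).1),
      Finset.card_sdiff_of_subset hbadsub, Finset.card_range, hbadcard]
  rw [Finset.sum_congr rfl hfib, Finset.sum_const, smul_eq_mul, mul_comm]

lemma mult_succ {l : ℕ} (v : Fin (l + 1) → Lab) (x : Lab) :
    mult v x = (if v 0 = x then 1 else 0) + mult (fun t : Fin l => v t.succ) x := by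
  classical
  unfold mult
  rw [Finset.card_filter, Finset.card_filter, Fin.sum_univ_succ]

lemma card_Jset (num : Lab → ℕ) (S : Finset Lab) : ∀ {l : ℕ} (v : Fin l → Lab),
    (∀ t, v t ∈ S) → (Jset num v).card = ∏ x ∈ S, (num x).descFactorial (mult v x)
  | 0, v, hv => by
    have h1 : ∀ x, mult v x = 0 := fun x => by simp [mult]
    simp only [h1, Nat.descFactorial_zero, Finset.prod_const_one]
    rw [Finset.card_eq_one]
    refine ⟨fun t => t.elim0, ?_⟩
    ext i
    rw [mem_Jset, Finset.mem_singleton]
    constructor
    · intro _; funext t; exact t.elim0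
    · intro _; exact ⟨fun t => t.elim0, fun t => t.elim0⟩
  | l + 1, v, hv => by
    classical
    rw [card_Jset_succ, card_Jset num S (fun t : Fin l => v t.succ) fun t => hv t.succ]
    rw [← Finset.mul_prod_erase S _ (hv 0), ← Finset.mul_prod_erase S _ (hv 0), ← mul_assoc]
    congr 1
    · rw [mult_succ, if_pos rfl, add_comm 1, Nat.descFactorial_succ]
    · apply Finset.prod_congr rfl
      intro x hx
      rw [mult_succ, if_neg (fun h => (Finset.mem_erase.1 hx).1 h.symm), zero_add]

/-- the numbers of points of each label -/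
def numLab (N : ℤ → ℕ) : Lab → ℕ
  | .disp k => N k
  | .stack _ => 1

lemma prod_winS {M : Type*} [CommMonoid M] (R : ℕ) (f : Lab → M) :
    ∏ x ∈ winS R, f x = (∏ k ∈ Finset.Icc (-(R : ℤ)) R, f (.disp k)) *
      ∏ j ∈ Finset.range R, f (.stack j) := by
  classical
  unfold winS
  rw [Finset.prod_union]
  · rw [Finset.prod_image, Finset.prod_image]
    · intro a _ b _ h; simpa using h
    · intro a _ b _ h; simpa using h
  · rw [Finset.disjoint_left]
    intro x hx hx'
    rw [Finset.mem_image] at hx hx'
    obtain ⟨a, -, rfl⟩ := hx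
    obtain ⟨b, -, h⟩ := hx'
    simp at h

/-- the masses of the labels -/
noncomputable def massLab (lam : ℤ → ℝ≥0) : Lab → ℝ≥0∞
  | .disp k => lam k
  | .stack _ => 1

lemma expect_Jset (lam : ℤ → ℝ≥0) (R : ℕ) {l : ℕ} (v : Fin l → Lab) (hv : ∀ t, v t ∈ winS R) :
    ∫⁻ N, ((Jset (numLab N) v).card : ℝ≥0∞)
      ∂(Measure.infinitePi fun k : ℤ => poissonMeasure (lam k)) =
      (open Classical in if StackDistinct v then ∏ t, massLab lam (v t) else 0) := by
  classical
  have h1 : ∀ N : ℤ → ℕ, ((Jset (numLab N) v).card : ℝ≥0∞) =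
      (∏ k ∈ Finset.Icc (-(R : ℤ)) R, ((N k).descFactorial (mult v (.disp k)) : ℝ≥0∞)) *
        ((∏ j ∈ Finset.range R, Nat.descFactorial 1 (mult v (.stack j)) : ℕ) : ℝ≥0∞) := by
    intro N
    rw [card_Jset _ (winS R) v hv, prod_winS]
    push_cast
    rfl
  simp only [h1]
  rw [lintegral_mul_const'' _ (by
    apply Measurable.aemeasurable
    exact Finset.measurable_prod _ fun k _ =>
      (measurable_of_countable fun n : ℕ => (n.descFactorial (mult v (.disp k)) : ℝ≥0∞)).comp
        (measurable_pi_apply k))]
  have h2 : ∫⁻ N, ∏ k ∈ Finset.Icc (-(R : ℤ)) R, ((N k).descFactorial (mult v (.disp k)) : ℝ≥0∞)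
      ∂(Measure.infinitePi fun k : ℤ => poissonMeasure (lam k)) =
      ∏ k ∈ Finset.Icc (-(R : ℤ)) R, (lam k : ℝ≥0∞) ^ (mult v (.disp k)) := by
    have hind := iIndepFun_infinitePi (P := fun k : ℤ => poissonMeasure (lam k))
      (X := fun k (n : ℕ) => (n.descFactorial (mult v (.disp k)) : ℝ≥0∞))
      fun k => measurable_of_countable _
    rw [lintegral_prod_eq_prod_lintegral_of_indepFun _ _ hind fun k =>
      (measurable_of_countable fun n : ℕ => (n.descFactorial (mult v (.disp k)) : ℝ≥0∞)).comp
        (measurable_pi_apply k)]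
    apply Finset.prod_congr rfl
    intro k _
    rw [← poisson_descFactorial (lam k) (mult v (.disp k))]
    have h3 := Measure.infinitePi_map_eval (fun k : ℤ => poissonMeasure (lam k)) k
    conv_rhs => rw [← h3]
    rw [lintegral_map (measurable_of_countable _) (measurable_pi_apply k)]
  rw [h2]
  have h4 : ∏ t, massLab lam (v t) = ∏ x ∈ winS R, massLab lam x ^ mult v x := by
    rw [← Finset.prod_fiberwise_of_maps_to (g := v) (t := winS R) (fun t _ => hv t)]
    apply Finset.prod_congr rfl
    intro x _
    rw [Finset.prod_congr rfl (g := fun _ => massLab lam x) (fun t ht => by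
      rw [(Finset.mem_filter.1 ht).2]), Finset.prod_const]
    rfl
  rw [h4, prod_winS]
  have h5 : ∏ j ∈ Finset.range R, massLab lam (.stack j) ^ mult v (.stack j) = 1 := by
    apply Finset.prod_eq_one
    intro j _
    simp [massLab]
  rw [h5, mul_one]
  by_cases hd : StackDistinct v
  · rw [if_pos hd]
    have h6 : ∏ j ∈ Finset.range R, Nat.descFactorial 1 (mult v (.stack j)) = 1 := by
      apply Finset.prod_eq_one
      intro j _
      have h7 : mult v (.stack j) ≤ 1 := by
        unfold mult
        rw [Finset.card_le_one]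
        intro a ha b hb
        rw [Finset.mem_filter] at ha hb
        exact hd a b j ha.2 hb.2
      interval_cases mult v (.stack j) <;> rfl
    rw [h6, Nat.cast_one, mul_one]
    rfl
  · rw [if_neg hd]
    unfold StackDistinct at hd
    push Not at hd
    obtain ⟨a, b, s, ha, hb, hab⟩ := hd
    have hsR : s ∈ Finset.range R := by
      have := hv a
      rw [ha, mem_winS] at this
      rcases this with ⟨d, -, -, h⟩ | ⟨j, hj, h⟩
      · simp at h
      · simp only [Lab.stack.injEq] at h
        rw [h]; exact Finset.mem_range.2 hj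
    have h6 : ∏ j ∈ Finset.range R, Nat.descFactorial 1 (mult v (.stack j)) = 0 := by
      apply Finset.prod_eq_zero hsR
      rw [Nat.descFactorial_eq_zero_iff_lt]
      unfold mult
      rw [Finset.one_lt_card]
      exact ⟨a, by simp [ha], b, by simp [hb], hab⟩
    rw [h6, Nat.cast_zero, mul_zero]

end Pool.Agent.Lib.MP_264509_pr
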