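import Pool.Agent.Lib.MP_264509_pr.Tuples

open Finset MeasureTheory Filter
open scoped Topology

namespace Pool.Agent.Lib.MP_264509_pr

variable {A : Type*} [DecidableEq A]

theorem hasSum_fin {ι : Type*} [Fintype ι] (S : Finset A) (p : ι → ℝ) (W : ι → List A)
    (hW : ∀ i, ∀ x ∈ W i, x ∈ S) (w : List A) :
    HasSum (fun s : ℕ => (-1 : ℝ) ^ s * sumW S (w.length + s)
      (fun v => (cnt w v : ℝ) * ∑ i, p i * (cnt v (W i) : ℝ)))
      (∑ i, p i * if W i = w then 1 else 0) := by
  have h := hasSum_sum (s := Finset.univ) (fun i (_ : i ∈ Finset.univ) =>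
    (hasSum_detect S (W i) w (hW i)).mul_left (p i))
  convert! h using 1
  funext s
  have : ∀ i, p i * ((-1 : ℝ) ^ s * sumW S (w.length + s)
      (fun v => (cnt w v : ℝ) * (cnt v (W i) : ℝ))) =
      (-1 : ℝ) ^ s * sumW S (w.length + s)
        (fun v => p i * ((cnt w v : ℝ) * (cnt v (W i) : ℝ))) := by
    intro i
    rw [sumW_mul_left]; ring
  simp only [this]
  rw [← Finset.mul_sum, ← sumW_sum]
  congr 1
  apply sumW_congr
  intro v _ _
  rw [Finset.mul_sum]
  exact Finset.sum_congr rfl fun i _ => by ring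

omit [DecidableEq A] in
lemma integrable_sumW {Ω : Type*} [MeasurableSpace Ω] {μ : Measure Ω} (S : Finset A) :
    ∀ (m : ℕ) (F : List A → Ω → ℝ), (∀ v, Integrable (F v) μ) →
      Integrable (fun ω => sumW S m fun v => F v ω) μ ∧
      ∫ ω, sumW S m (fun v => F v ω) ∂μ = sumW S m fun v => ∫ ω, F v ω ∂μ
  | 0, F, h => ⟨h [], rfl⟩
  | m + 1, F, h => by
    have ih : ∀ x : A, _ := fun x => integrable_sumW S m (fun v => F (x :: v)) fun v => h _
    constructor
    · exact integrable_finsetSum _ fun x _ => (ih x).1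
    · simp only [sumW]
      rw [integral_finsetSum _ fun x _ => (ih x).1]
      exact Finset.sum_congr rfl fun x _ => (ih x).2

/-- the bound for the terms of the alternating sum -/
lemma sumW_bound (S : Finset A) (w : List A) (C : ℝ) (M : List A → ℝ) (m : ℕ)
    (hM : ∀ v, 0 ≤ M v ∧ M v ≤ C ^ v.length / (v.length.factorial : ℝ)) :
    |sumW S m (fun v => (cnt w v : ℝ) * M v)| ≤
      (2 * S.card * C) ^ m / (m.factorial : ℝ) := by
  rw [abs_of_nonneg (sumW_nonneg S m _ fun v => mul_nonneg (Nat.cast_nonneg _) (hM v).1)]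
  calc sumW S m (fun v => (cnt w v : ℝ) * M v)
      ≤ (S.card : ℝ) ^ m * (2 ^ m * (C ^ m / (m.factorial : ℝ))) := by
        apply sumW_le
        intro v hv
        subst hv
        apply mul_le_mul _ (hM v).2 (hM v).1 (by positivity)
        exact_mod_cast cnt_le_two_pow w v
    _ = (2 * S.card * C) ^ m / (m.factorial : ℝ) := by
        rw [mul_pow, mul_pow]; ring

omit [DecidableEq A] in
lemma summable_bound (S : Finset A) (C : ℝ) (l : ℕ) :
    Summable fun s : ℕ => (2 * (S.card : ℝ) * C) ^ (l + s) / ((l + s).factorial : ℝ) := by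
  have := (summable_nat_add_iff l).2 (Real.summable_pow_div_factorial (2 * (S.card : ℝ) * C))
  simpa [add_comm] using this

theorem hasSum_meas {Ω : Type*} [MeasurableSpace Ω] (μ : Measure Ω) [IsFiniteMeasure μ]
    (S : Finset A) (W : Ω → List A) (hW : ∀ᵐ ω ∂μ, ∀ x ∈ W ω, x ∈ S)
    (hint : ∀ v, Integrable (fun ω => (cnt v (W ω) : ℝ)) μ) (C : ℝ)
    (hC : ∀ v, ∫ ω, (cnt v (W ω) : ℝ) ∂μ ≤ C ^ v.length / (v.length.factorial : ℝ))
    (w : List A) :
    NullMeasurableSet {ω | W ω = w} μ ∧ HasSum (fun s : ℕ => (-1 : ℝ) ^ s *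
      sumW S (w.length + s) (fun v => (cnt w v : ℝ) * ∫ ω, (cnt v (W ω) : ℝ) ∂μ))
      (μ.real {ω | W ω = w}) := by
  let F : ℕ → Ω → ℝ := fun s ω => (-1 : ℝ) ^ s * sumW S (w.length + s)
    (fun v => (cnt w v : ℝ) * (cnt v (W ω) : ℝ))
  have hF0 : ∀ s, _ := fun s => integrable_sumW (μ := μ) S (w.length + s)
    (fun v ω => (cnt w v : ℝ) * (cnt v (W ω) : ℝ)) fun v => (hint v).const_mul _
  have hF1 : ∀ s, Integrable (F s) μ := fun s => (hF0 s).1.const_mul _
  have hF2 : ∀ s, ∫ ω, F s ω ∂μ = (-1 : ℝ) ^ s *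
      sumW S (w.length + s) (fun v => (cnt w v : ℝ) * ∫ ω, (cnt v (W ω) : ℝ) ∂μ) := by
    intro s
    change ∫ ω, (-1 : ℝ) ^ s * sumW S (w.length + s)
      (fun v => (cnt w v : ℝ) * (cnt v (W ω) : ℝ)) ∂μ = _
    rw [integral_const_mul, (hF0 s).2]
    congr 1
    apply sumW_congr
    intro v _ _
    rw [integral_const_mul]
  have hF3 : ∀ s, ∫ ω, ‖F s ω‖ ∂μ = sumW S (w.length + s)
      (fun v => (cnt w v : ℝ) * ∫ ω, (cnt v (W ω) : ℝ) ∂μ) := by
    intro s
    have : ∀ ω, ‖F s ω‖ = sumW S (w.length + s)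
        (fun v => (cnt w v : ℝ) * (cnt v (W ω) : ℝ)) := by
      intro ω
      simp only [F, norm_mul, norm_pow, norm_neg, norm_one, one_pow, one_mul]
      rw [Real.norm_of_nonneg]
      exact sumW_nonneg S _ _ fun v => by positivity
    simp only [this]
    rw [(hF0 s).2]
    apply sumW_congr
    intro v _ _
    rw [integral_const_mul]
  have hnn : ∀ v, 0 ≤ ∫ ω, (cnt v (W ω) : ℝ) ∂μ := fun v =>
    integral_nonneg fun ω => Nat.cast_nonneg _
  have hsum : Summable fun s => ∫ ω, ‖F s ω‖ ∂μ := by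
    simp only [hF3]
    apply Summable.of_norm_bounded (summable_bound S C w.length)
    intro s
    exact sumW_bound S w C _ _ fun v => ⟨hnn v, hC v⟩
  have hdet : ∀ᵐ ω ∂μ, HasSum (fun s => F s ω) (if W ω = w then 1 else 0) := by
    filter_upwards [hW] with ω hω
    exact hasSum_detect S (W ω) w hω
  have hae : AEStronglyMeasurable (fun ω => if W ω = w then (1 : ℝ) else 0) μ := by
    refine aestronglyMeasurable_of_tendsto_ae atTop
      (f := fun n ω => ∑ s ∈ range n, F s ω) ?_ ?_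
    · intro n
      exact (integrable_finsetSum _ fun s _ => hF1 s).aestronglyMeasurable
    · filter_upwards [hdet] with ω hω
      exact hω.tendsto_sum_nat
  have hnull : NullMeasurableSet {ω | W ω = w} μ := by
    have h1 : {ω | W ω = w} = (fun ω => if W ω = w then (1 : ℝ) else 0) ⁻¹' {1} := by
      ext ω
      by_cases h : W ω = w <;> simp [h]
    rw [h1]
    exact hae.aemeasurable.nullMeasurable (measurableSet_singleton 1)
  refine ⟨hnull, ?_⟩
  have h1 := hasSum_integral_of_summable_integral_norm hF1 hsum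
  simp only [hF2] at h1
  convert! h1 using 1
  have h2 : ∫ ω, (∑' s, F s ω) ∂μ = ∫ ω, Set.indicator {ω | W ω = w} (fun _ => (1 : ℝ)) ω ∂μ := by
    apply integral_congr_ae
    filter_upwards [hdet] with ω hω
    rw [hω.tsum_eq]
    by_cases h : W ω = w <;> simp [h]
  rw [h2, integral_indicator₀ hnull]
  simp [Measure.real]

omit [DecidableEq A] in
theorem tendsto_sumW (S : Finset A) : ∀ (m : ℕ) (F : ℕ → List A → ℝ) (G : List A → ℝ),
    (∀ v : List A, (∀ x ∈ v, x ∈ S) → Tendsto (fun n => F n v) atTop (𝓝 (G v))) →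
      Tendsto (fun n => sumW S m (F n)) atTop (𝓝 (sumW S m G))
  | 0, F, G, h => h [] (by simp)
  | m + 1, F, G, h => by
    simp only [sumW]
    exact tendsto_finsetSum _ fun x hx => tendsto_sumW S m _ _ fun v hv =>
      h _ (by simpa [hx] using hv)

theorem tendsto_word (S : Finset A) (C : ℝ) (M : ℕ → List A → ℝ) (M' : List A → ℝ)
    (hM : ∀ v : List A, (∀ x ∈ v, x ∈ S) → Tendsto (fun n => M n v) atTop (𝓝 (M' v)))
    (hbd : ∀ᶠ n in atTop, ∀ v, 0 ≤ M n v ∧ M n v ≤ C ^ v.length / (v.length.factorial : ℝ))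
    (w : List A) (P : ℕ → ℝ) (P' : ℝ)
    (hP : ∀ n, HasSum (fun s : ℕ => (-1 : ℝ) ^ s *
      sumW S (w.length + s) (fun v => (cnt w v : ℝ) * M n v)) (P n))
    (hP' : HasSum (fun s : ℕ => (-1 : ℝ) ^ s *
      sumW S (w.length + s) (fun v => (cnt w v : ℝ) * M' v)) P') :
    Tendsto P atTop (𝓝 P') := by
  have h := tendsto_tsum_of_dominated_convergence (𝓕 := atTop)
    (f := fun n (s : ℕ) => (-1 : ℝ) ^ s *
      sumW S (w.length + s) (fun v => (cnt w v : ℝ) * M n v))
    (g := fun s => (-1 : ℝ) ^ s *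
      sumW S (w.length + s) (fun v => (cnt w v : ℝ) * M' v)) (summable_bound S C w.length)
    (fun s => (tendsto_sumW S _ _ _ fun v hv => (hM v hv).const_mul _).const_mul _) (by
      filter_upwards [hbd] with n hn s
      rw [norm_mul, norm_pow, norm_neg, norm_one, one_pow, one_mul, Real.norm_eq_abs]
      exact sumW_bound S w C _ _ hn)
  rw [hP'.tsum_eq] at h
  simpa only [(hP _).tsum_eq] using h

/-- pointwise convergence of the probabilities of words implies convergence of the probabilities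
of all sets of words -/
theorem tendsto_sets {B : Type*} (P : ℕ → Set B → ℝ) (P' : Set B → ℝ)
    (hadd : ∀ n s t, Disjoint s t → P n (s ∪ t) = P n s + P n t)
    (hnn : ∀ n s, 0 ≤ P n s) (hone : ∀ n, P n Set.univ = 1)
    (hadd' : ∀ s t, Disjoint s t → P' (s ∪ t) = P' s + P' t)
    (hnn' : ∀ s, 0 ≤ P' s) (hone' : P' Set.univ = 1)
    (htight : ∀ ε > 0, ∃ F : Finset B, 1 - ε < P' (F : Set B))
    (hpt : ∀ b, Tendsto (fun n => P n {b}) atTop (𝓝 (P' {b}))) (s : Set B) :
    Tendsto (fun n => P n s) atTop (𝓝 (P' s)) := by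
  classical
  have hempty : ∀ n, P n ∅ = 0 := by
    intro n
    have := hadd n ∅ ∅ disjoint_bot_left
    rw [Set.union_empty] at this
    linarith
  have hempty' : P' ∅ = 0 := by
    have := hadd' ∅ ∅ disjoint_bot_left
    rw [Set.union_empty] at this
    linarith
  have hfin : ∀ F : Finset B, Tendsto (fun n => P n (F : Set B)) atTop (𝓝 (P' (F : Set B))) := by
    intro F
    induction F using Finset.induction_on with
    | empty => simp [hempty, hempty']
    | insert b F hb ih =>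
      have hd : Disjoint ({b} : Set B) (F : Set B) := by
        rw [Set.disjoint_singleton_left]; simpa using hb
      rw [Finset.coe_insert, Set.insert_eq]
      simp only [hadd _ _ _ hd, hadd' _ _ hd]
      exact (hpt b).add ih
  rw [Metric.tendsto_atTop]
  intro ε hε
  obtain ⟨F, hF⟩ := htight (ε / 4) (by positivity)
  have h1 := (Metric.tendsto_atTop.1 (hfin F)) (ε / 4) (by positivity)
  have h2 := (Metric.tendsto_atTop.1 (hfin (F.filter (· ∈ s)))) (ε / 4) (by positivity)
  obtain ⟨n1, h1⟩ := h1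
  obtain ⟨n2, h2⟩ := h2
  refine ⟨max n1 n2, fun n hn => ?_⟩
  have h3 := h1 n (le_of_max_le_left hn)
  have h4 := h2 n (le_of_max_le_right hn)
  rw [Real.dist_eq, abs_lt] at h3 h4
  have hsF : ((F.filter (· ∈ s) : Finset B) : Set B) = (F : Set B) ∩ s := by
    ext b; simp
  rw [hsF] at h4
  have e0 : ((F : Set B) ∩ s) ∪ (s \ F) = s := by
    ext b; simp only [Set.mem_union, Set.mem_inter_iff, Set.mem_sdiff]; tauto
  have d0 : Disjoint ((F : Set B) ∩ s) (s \ F) := by
    rw [Set.disjoint_left]; rintro b ⟨h, -⟩ ⟨-, h'⟩; exact h' h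
  have e1 : (F : Set B) ∪ ((F : Set B)ᶜ \ s ∪ (s \ F)) = Set.univ := by
    ext b
    simp only [Set.mem_union, Set.mem_sdiff, Set.mem_compl_iff, Set.mem_univ, iff_true]; tauto
  have d1 : Disjoint (F : Set B) ((F : Set B)ᶜ \ s ∪ (s \ F)) := by
    rw [Set.disjoint_left]
    intro b hb hb'
    simp only [Set.mem_union, Set.mem_sdiff, Set.mem_compl_iff] at hb'
    tauto
  have d2 : Disjoint ((F : Set B)ᶜ \ s) (s \ F) := by
    rw [Set.disjoint_left]
    intro b hb hb'
    exact hb.2 hb'.1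
  have a1 := hadd n _ _ d0
  have a2 := hadd' _ _ d0
  have b1 := hadd n _ _ d1
  have b2 := hadd' _ _ d1
  have c1 := hadd n _ _ d2
  have c2 := hadd' _ _ d2
  rw [e0] at a1 a2
  rw [e1, hone] at b1
  rw [e1, hone'] at b2
  have k1 := hnn n (s \ F)
  have k2 := hnn' (s \ F)
  have k3 := hnn n ((F : Set B)ᶜ \ s)
  have k4 := hnn' ((F : Set B)ᶜ \ s)
  rw [Real.dist_eq, abs_lt]
  constructor <;> linarith

end Pool.Agent.Lib.MP_264509_pr
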