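import Pool.Agent.Lib.MP_264509_pr.Count

open Finset

namespace Pool.Agent.Lib.MP_264509_pr

variable {α A : Type*} [LinearOrder α] [DecidableEq A]

/-- the increasing tuples of members of `L` whose labels spell `v` -/
def Tup (f : α → Option A) (L : List α) (v : List A) : Set (Fin v.length → α) :=
  {a | StrictMono a ∧ (∀ i, a i ∈ L) ∧ ∀ i, f (a i) = some (v.get i)}

lemma strictMono_cons {n : ℕ} {b : α} {a : Fin n → α} :
    StrictMono (Fin.cons b a : Fin (n + 1) → α) ↔ (∀ i, b < a i) ∧ StrictMono a := by
  constructor
  · intro h
    refine ⟨fun i => ?_, fun i j hij => ?_⟩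
    · have := h (Fin.succ_pos i)
      simpa using this
    · have := h (Fin.succ_lt_succ_iff.2 hij)
      simpa using this
  · rintro ⟨h1, h2⟩ i j hij
    induction i using Fin.cases with
    | zero =>
      induction j using Fin.cases with
      | zero => exact absurd hij (lt_irrefl _)
      | succ j => simpa using h1 j
    | succ i =>
      induction j using Fin.cases with
      | zero => exact absurd hij (Fin.not_lt_zero _)
      | succ j =>
        have := h2 (Fin.succ_lt_succ_iff.1 hij)
        simpa using this

theorem cnt_filterMap (f : α → Option A) : ∀ (L : List α) (v : List A), L.Pairwise (· < ·) →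
    ((cnt v (L.filterMap f) : ℕ) : ℕ∞) = (Tup f L v).encard
  | L, [], hL => by
    rw [cnt_nil]
    have : Tup f L [] = Set.univ := by
      ext a
      simp only [Tup, Set.mem_ofPred_eq, Set.mem_univ, iff_true]
      exact ⟨fun i => i.elim0, fun i => i.elim0, fun i => i.elim0⟩
    rw [this, Set.encard_univ]
    change ((1 : ℕ) : ℕ∞) = ENat.card (Fin 0 → α)
    simp
  | [], x :: v, hL => by
    have : Tup f [] (x :: v) = ∅ := by
      ext a
      simp only [Tup, Set.mem_ofPred_eq, Set.mem_empty_iff_false, iff_false]
      rintro ⟨-, h, -⟩
      exact absurd (h ⟨0, by simp⟩) (by simp)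
    rw [this, Set.encard_empty]
    rfl
  | b :: L, x :: v, hL => by
    rw [List.pairwise_cons] at hL
    have hT : Tup f (b :: L) (x :: v) = Tup f L (x :: v) ∪
        {a | f b = some x ∧ ∃ a' ∈ Tup f L v, Fin.cons b a' = a} := by
      ext a
      simp only [Tup, Set.mem_ofPred_eq, Set.mem_union]
      constructor
      · rintro ⟨h1, h2, h3⟩
        by_cases h4 : a ⟨0, by simp⟩ = b
        · right
          have h5 : f b = some x := by
            have := h3 ⟨0, by simp⟩
            rw [h4] at this
            simpa using this
          refine ⟨h5, fun i => a i.succ, ⟨?_, ?_, ?_⟩, ?_⟩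
          · intro i j hij
            exact h1 (Fin.succ_lt_succ_iff.2 hij)
          · intro i
            have h6 := h2 i.succ
            rw [List.mem_cons] at h6
            rcases h6 with h6 | h6
            · exfalso
              have h7 : a ⟨0, by simp⟩ < a i.succ := h1 (Fin.succ_pos i)
              rw [h4, h6] at h7
              exact lt_irrefl _ h7
            · exact h6
          · intro i
            exact h3 i.succ
          · funext i
            induction i using Fin.cases with
            | zero => simpa using h4.symm
            | succ i => simp
        · left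
          refine ⟨h1, fun i => ?_, h3⟩
          have h6 := h2 i
          rw [List.mem_cons] at h6
          rcases h6 with h6 | h6
          · exfalso
            have h7 := h2 ⟨0, by simp⟩
            rw [List.mem_cons] at h7
            rcases h7 with h7 | h7
            · exact h4 h7
            · have h8 := hL.1 _ h7
              have h9 : a ⟨0, by simp⟩ ≤ a i := h1.monotone (Fin.zero_le i)
              rw [h6] at h9
              exact absurd h8 (not_lt.2 h9)
          · exact h6
      · rintro (⟨h1, h2, h3⟩ | ⟨h5, a', ⟨h1, h2, h3⟩, rfl⟩)
        · exact ⟨h1, fun i => List.mem_cons_of_mem _ (h2 i), h3⟩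
        · refine ⟨strictMono_cons.2 ⟨fun i => hL.1 _ (h2 i), h1⟩, ?_, ?_⟩
          · intro i
            induction i using Fin.cases with
            | zero => simp
            | succ i => simpa using Or.inr (h2 i)
          · intro i
            induction i using Fin.cases with
            | zero => simpa using h5
            | succ i => simpa using h3 i
    have hdisj : Disjoint (Tup f L (x :: v))
        {a | f b = some x ∧ ∃ a' ∈ Tup f L v, Fin.cons b a' = a} := by
      rw [Set.disjoint_left]
      rintro a ⟨-, h2, -⟩ ⟨-, a', -, rfl⟩
      have := hL.1 _ (h2 ⟨0, by simp⟩)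
      simp at this
    rw [hT, Set.encard_union_eq hdisj, ← cnt_filterMap f L (x :: v) hL.2]
    cases hfb : f b with
    | none =>
      have : {a : Fin (x :: v).length → α | (none : Option A) = some x ∧
          ∃ a' ∈ Tup f L v, Fin.cons b a' = a} = ∅ := by
        ext a; simp
      rw [this, Set.encard_empty, add_zero, List.filterMap_cons_none hfb]
    | some y =>
      rw [List.filterMap_cons_some hfb, cnt_cons_cons, Nat.cast_add]
      congr 1
      by_cases hxy : x = y
      · have : {a : Fin (x :: v).length → α | (some y : Option A) = some x ∧
            ∃ a' ∈ Tup f L v, Fin.cons b a' = a} =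
            (fun a' : Fin v.length → α => (Fin.cons b a' : Fin (v.length + 1) → α)) ''
              Tup f L v := by
          ext a
          simp [hxy]
        rw [this, if_pos hxy, cnt_filterMap f L v hL.2]
        symm
        apply Function.Injective.encard_image
        intro a a' h
        exact (Fin.cons_right_injective _ h)
      · have : {a : Fin (x :: v).length → α | (some y : Option A) = some x ∧
            ∃ a' ∈ Tup f L v, Fin.cons b a' = a} = ∅ := by
          ext a
          simp only [Option.some.injEq, Set.mem_ofPred_eq, Set.mem_empty_iff_false, iff_false]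
          rintro ⟨h, -⟩
          exact hxy h.symm
        rw [this, if_neg hxy, Set.encard_empty]
        rfl

end Pool.Agent.Lib.MP_264509_pr
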