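import Pool.Agent.Lib.MP_264509_pr.Iso

namespace Pool.Agent.Lib.MP_264509_pr

/-- labels of the marks -/
inductive Lab where
  | disp (k : ℤ)
  | stack (j : ℕ)
deriving DecidableEq

/-- the change of a label when a point is bumped, `c` says whether the mark is to its left -/
def updL (c : Prop) [Decidable c] : Lab → Lab
  | .stack j => .stack (j + 1)
  | .disp k => if c then .disp (k - 1) else .disp k

/-- bumping the mark `i` of a labelled word -/
def upd {N : ℕ} (i : Fin N) (s : Fin N → Lab) : Fin N → Lab := fun l =>
  if l = i then .stack 0 else updL (l < i) (s l)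

/-- the child relation on words -/
def CW (N : ℕ) (s t : Fin N → Lab) : Prop := ∃ i, s i = .disp 0 ∧ t = upd i s

lemma updL_ne (c : Prop) [Decidable c] (s : Lab) : updL c s ≠ .stack 0 := by
  cases s with
  | disp k => simp only [updL]; split_ifs <;> simp
  | stack j => simp [updL]

lemma updL_inj (c : Prop) [Decidable c] {s t : Lab} (h : updL c s = updL c t) : s = t := by
  cases s <;> cases t <;> simp only [updL] at h <;> (try split_ifs at h) <;> simp_all

lemma upd_self {N : ℕ} (i : Fin N) (s : Fin N → Lab) : upd i s i = .stack 0 := by simp [upd]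

lemma upd_eq_zero {N : ℕ} {i l : Fin N} {s : Fin N → Lab} (h : upd i s l = .stack 0) : l = i := by
  by_contra hne
  simp only [upd, hne, if_false] at h
  exact updL_ne _ _ h

lemma CW_unique {N : ℕ} : ∀ a b t, CW N a t → CW N b t → a = b := by
  rintro a b t ⟨i, hi, rfl⟩ ⟨j, hj, h⟩
  have h1 : i = j := by
    apply upd_eq_zero (s := b)
    rw [← h, upd_self]
  subst h1
  funext l
  by_cases hl : l = i
  · rw [hl, hi, hj]
  · have := congrFun h l
    simp only [upd, hl, if_false] at this
    exact updL_inj _ this

lemma CW_pot {N : ℕ} : ∃ h : (Fin N → Lab) → ℕ, ∀ y y', CW N y y' → h y' = h y + 1 := by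
  classical
  refine ⟨fun y => (Finset.univ.filter fun l => ∃ j, y l = .stack j).card, ?_⟩
  rintro y y' ⟨i, hi, rfl⟩
  have : (Finset.univ.filter fun l => ∃ j, upd i y l = .stack j) =
      insert i (Finset.univ.filter fun l => ∃ j, y l = .stack j) := by
    ext l
    simp only [Finset.mem_filter, Finset.mem_univ, true_and, Finset.mem_insert]
    by_cases hl : l = i
    · subst hl; simp [upd_self]
    · simp only [upd, hl, if_false, false_or]
      cases hy : y l with
      | disp k => simp only [updL]; split_ifs <;> simp
      | stack j => simp [updL]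
  simp only [this]
  rw [Finset.card_insert_of_notMem]
  simp [hi]

lemma anc_last {X : Type*} {C : X → X → Prop} : ∀ {a : ℕ} {x z : X}, Anc C (a + 1) x z →
    ∃ y, Anc C a x y ∧ C z y
  | 0, x, z, ⟨y, hy, h⟩ => by cases h; exact ⟨x, rfl, hy⟩
  | a + 1, x, z, ⟨y, hy, h⟩ => by
    obtain ⟨w, hw, hw'⟩ := anc_last h
    exact ⟨w, ⟨y, hy, hw⟩, hw'⟩

lemma near_induct {X : Type*} {C : X → X → Prop} {x0 : X} {P : ℕ → X → Prop} (h0 : P 0 x0)
    (hm : ∀ k x, P k x → P (k + 1) x)
    (hc : ∀ k x x', P k x → C x x' → P (k + 1) x')
    (hp : ∀ k x x', P k x → C x' x → P (k + 1) x') {k : ℕ} {x : X} (h : Near C x0 k x) :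
    P k x := by
  obtain ⟨a, b, z, hab, ha, hb⟩ := h
  have h1 : ∀ a z, Anc C a x0 z → P a z := by
    intro a
    induction a with
    | zero => intro z hz; cases hz; exact h0
    | succ a ih =>
      intro z hz
      obtain ⟨y, hy, hzy⟩ := anc_last hz
      exact hp _ _ _ (ih _ hy) hzy
  have h2 : ∀ b x, Anc C b x z → P (a + b) x := by
    intro b
    induction b with
    | zero => intro x hx; cases hx; exact h1 _ _ ha
    | succ b ih =>
      rintro x ⟨y, hy, hyz⟩
      exact hc _ _ _ (ih _ hyz) hy
  have h3 := h2 _ _ hb
  have h4 : ∀ l, P (a + b + l) x := by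
    intro l
    induction l with
    | zero => exact h3
    | succ l ih => exact hm _ _ ih
  have := h4 (k - (a + b))
  rwa [Nat.add_sub_cancel' hab] at this

/-- the embedding of the word obtained by `filterMap` of a sorted list -/
lemma filterMap_emb {α A : Type*} [LinearOrder α] (f : α → Option A) (L : List α)
    (hL : L.Pairwise (· < ·)) :
    ∃ emb : Fin (L.filterMap f).length → α, StrictMono emb ∧
      (∀ i, f (emb i) = some ((L.filterMap f).get i)) ∧ (∀ i, emb i ∈ L) ∧
      ∀ a ∈ L, (f a).isSome → ∃ i, emb i = a := by
  have h1 : (L.filter fun a => (f a).isSome).map f = (L.filterMap f).map some := by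
    clear hL
    induction L with
    | nil => rfl
    | cons a L ih =>
      rw [List.filter_cons, List.filterMap_cons]
      cases h : f a with
      | none => simpa [h] using ih
      | some b => simpa [h] using ih
  have hlen : (L.filterMap f).length = (L.filter fun a => (f a).isSome).length := by
    have := congrArg List.length h1
    simpa using this.symm
  refine ⟨fun i => (L.filter fun a => (f a).isSome).get (Fin.cast hlen i), ?_, ?_, ?_, ?_⟩
  · have h2 : (L.filter fun a => (f a).isSome).Pairwise (· < ·) := hL.filter _
    intro i j hij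
    exact List.pairwise_iff_get.1 h2 _ _ (by simpa using hij)
  · intro i
    have h3 : ((L.filter fun a => (f a).isSome).map f)[i.1]'(by
        rw [List.length_map, ← hlen]; exact i.2) = ((L.filterMap f).map some)[i.1]'(by
        rw [List.length_map]; exact i.2) := by
      congr 1
    rw [List.getElem_map, List.getElem_map] at h3
    simpa using h3
  · intro i
    have : (L.filter fun a => (f a).isSome).get (Fin.cast hlen i) ∈
        (L.filter fun a => (f a).isSome) := List.get_mem _ _
    exact List.mem_of_mem_filter this
  · intro a ha hfa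
    have : a ∈ L.filter fun a => (f a).isSome := by
      rw [List.mem_filter]; exact ⟨ha, by simpa using hfa⟩
    obtain ⟨i, hi⟩ := List.get_of_mem this
    exact ⟨Fin.cast hlen.symm i, by simpa using hi⟩

end Pool.Agent.Lib.MP_264509_pr
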